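import Mathlib.Data.Nat.Bitwise
import Mathlib.Data.Int.Basic
import Mathlib.Algebra.Order.Ring.Int

/-! Kernel checker for the weight certificates (lower irredundance of the rook graph). -/

set_option autoImplicit false

namespace Pool.Agent.P.MP_41d1ec_co

noncomputable section

/-- evaluate `n` first, then continue -/
def frc (n : ℕ) (k : ℕ → Bool) : Bool :=
  Nat.rec false (fun m _ => k m) (Nat.add n (nat_lit 1))

def sel {α : Type} (b : Bool) (x y : α) : α := Bool.rec y x b

def allN (n : ℕ) (f : ℕ → Bool) : Bool := Nat.rec true (fun i ih => sel (f i) ih false) n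

def imp (a b : Bool) : Bool := Bool.rec true b a

def both (a b : Bool) : Bool := Bool.rec false b a

/-- 24 bit digit -/
def dg (T i : ℕ) : ℕ :=
  Nat.land (Nat.shiftRight T (Nat.mul (nat_lit 24) i)) (nat_lit 16777215)

def nb (T i : ℕ) : ℕ := Nat.land (Nat.shiftRight T (Nat.mul (nat_lit 4) i)) (nat_lit 15)

def bt (T i : ℕ) : Bool := Nat.beq (Nat.land (Nat.shiftRight T i) (nat_lit 1)) (nat_lit 1)

def pack (w : ℕ) (f : ℕ → ℕ) (m : ℕ) : ℕ :=
  Nat.rec (nat_lit 0) (fun i ih => Nat.add ih (Nat.shiftLeft (f i) (Nat.mul w i))) m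

def cM1 : ℕ := nat_lit 0xffffffffffffffffffffffffffffffffffffffffffffffffffffffffffffffffffffffffffffffffffffffffffffffffffffffffffffffffffffffffffffffffffffffffffffffffffffffffffffffffffffffffffffffffffffffffffffffffffffffffffffffffffffffffffffffffffffffffffffffffffffffffffffffffffffffffffffffffffffffffffffffffffffffffffffffffffffffffffffffffffffffffffffffffffffffffffffffffffffffffffffffffffffffffffffffffffffffffffffffffffffffffffffffffffffffffffffffffffffffffffffffffffffffffffffffffffffffffffffffffffffffffffffffffffffffffffffffffffffffffffffffffffffffffffffffffffffffffffffffffffffffffffffffffffffffffffffffffffffffffffffffffffffffffffffffffffffffffffffffffffffffffffffffffffffffffffffffffffffffffffffffffffffffffffffffffffffffffffffffffffffffffffffffffffffffffffffffffffffffffffffffffffffffffffffffffffffffffffffffffffffffffffffffffffffffffffffffffffffffffffffffffffffffffffffffffffffffffffffffffffffffffffffffff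
def cFB : ℕ := nat_lit 0xffffffffff7fffffffffffffff7fffffffffffffff7fffffffffffffff7fffffffffffffff7fffffffffffffff7fffffffffffffff7fffffffffffffff7fffffffffffffff7fffffffffffffff7fffffffffffffff7fffffffffffffff7fffffffffffffff7fffffffffffffff7fffffffffffffff7fffffffffffffff7fffffffffffffff7fffffffffffffff7fffffffffffffff7fffffffffffffff7fffffffffffffff7fffffffffffffff7fffffffffffffff7fffffffffffffff7fffffffffffffff7fffffffffffffff7fffffffffffffff7fffffffffffffff7fffffffffffffff7fffffffffffffff7fffffffffffffff7fffffffffffffff7fffffffffffffff7fffffffffffffff7fffffffffffffff7fffffffffffffff7fffffffffffffff7fffffffffffffff7fffffffffffffff7fffffffffffffff7fffffffffffffff7fffffffffffffff7fffffffffffffff7fffffffffffffff7fffffffffffffff7fffffffffffffff7fffffffffffffff7fffffffffffffff7fffffffffffffff7fffffffffffffff7fffffffffffffff7fffffffffffffff7fffffffffffffff7fffffffffffffff7fffffffffffffff7fffffffffffffff800000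
def cMB : ℕ := nat_lit 0xffffffffffffffffffffffffffffffffffffffffffffffffffffffffffffffffffffffffffffffffffffffffffffffffffffffffffffffffffffffffffffffffffffffffffffffffffffffffffffffffffffffffffffffffffffffffffffffffffffffffffffffffffffffffffffffffffffffffffffffffffffffffffffffffffffffffffffffffffffffffffffffffffffffffffffffffffffffffffffffffffffffffffffffffffffffffffffffffffffffffffffffffffffffffffffffffffffffffffffffffffffffffffffffffffffffffffffffffffffffffffffffffffffffffffffffffffffffffffffffffffffffffffffffffffffffffffffffffffffffffffffffffffffffffffffffffffffffffffffffffffffffffffffffffffffffffffffffffffffffffffffffffffffffffffffffffffffffffffffffffffffffffffffffffffffffffffffffffffffffffffffffffffffffffffffffffffffffffffffffffffffffffffffffffffffffffffffffffffffffffffffffffffffffffffffffffffffffffffffffffffffffffffffffffffffffffffffffffffffffffffffffffffffffffffffffffffffffffffffffffffffffffff800000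
def cK : ℕ := nat_lit 0xfffff7fffffffffffffff7fffffffffffffff7fffffffffffffff7fffffffffffffff7fffffffffffffff7fffffffffffffff7fffffffffffffff7fffffffffffffff7fffffffffffffff7fffffffffffffff7fffffffffffffff7fffffffffffffff7fffffffffffffff7fffffffffffffff7fffffffffffffff7fffffffffffffff7fffffffffffffff7fffffffffffffff7fffffffffffffff7fffffffffffffff7fffffffffffffff7fffffffffffffff7fffffffffffffff7fffffffffffffff7fffffffffffffff7fffffffffffffff7fffffffffffffff7fffffffffffffff7fffffffffffffff7fffffffffffffff7fffffffffffffff7fffffffffffffff7fffffffffffffff7fffffffffffffff7fffffffffffffff7fffffffffffffff7fffffffffffffff7fffffffffffffff7fffffffffffffff7fffffffffffffff7fffffffffffffff7fffffffffffffff7fffffffffffffff7fffffffffffffff7fffffffffffffff7fffffffffffffff7fffffffffffffff7fffffffffffffff7fffffffffffffff7fffffffffffffff7fffffffffffffff7fffffffffffffff7fffffffffffffff7fffffffffffffff7fffffffffffffff80000000000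
def cH : ℕ := nat_lit 0x80000000000000008000000000000000800000000000000080000000000000008000000000000000800000000000000080000000000000008000000000000000800000000000000080000000000000008000000000000000800000000000000080000000000000008000000000000000800000000000000080000000000000008000000000000000800000000000000080000000000000008000000000000000800000000000000080000000000000008000000000000000800000000000000080000000000000008000000000000000800000000000000080000000000000008000000000000000800000000000000080000000000000008000000000000000800000000000000080000000000000008000000000000000800000000000000080000000000000008000000000000000800000000000000080000000000000008000000000000000800000000000000080000000000000008000000000000000800000000000000080000000000000008000000000000000800000000000000080000000000000008000000000000000800000000000000080000000000000008000000000000000800000000000000080000000000000008000000000000000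
def cR : ℕ := nat_lit 0x80000000000000008000000000000000800000000000000080000000000000008000000000000000800000000000000080000000000000008000000000000000800002200000000080000220000000008000022000000000800002200000000080000220000000008000022000000000800002200000000080000220000000008000022000000000800002200000000080000220000000008000022000000000800002200000000080000220000000008000022000000000800002200000000080000220000000008000022000000000800002200000000080000220000000008000022000000000800002200000000080000220000000008000022000000000800002200000000080000220000000008000022000000000800002200000000080000220000000008000022000000000800002200000000080000220000000008000022000000000800002200000000080000220000000008000022000000000800002200000000080000220000000008000022000000000800002200000000080000220000000008000022000000000800002200000000080000220000000008000022000000000800002200000000080000220000000008000022000000000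
def cNU : ℕ := nat_lit 0xfffffffffffffffffffffffffffffffffffffffffffffffffffffffffffffffffffffffffffffffffffffffffffffffffffffffffffffffffffffffffffffffffffffffffffbfffffffffffffffbfffffffffffffffbfffffffffffffffbfffffffffffffffbfffffffffffffffbfffffffffffffffbfffffffffffffffbfffffffffffffffbfffffffffffffffbfffffffffffffffbfffffffffffffffbfffffffffffffffbfffffffffffffffbfffffffffffffffbfffffffffffffffbfffffffffffffffbfffffffffffffffbfffffffffffffffbfffffffffffffffbfffffffffffffffbfffffffffffffffbfffffffffffffffbfffffffffffffffbfffffffffffffffbfffffffffffffffbfffffffffffffffbfffffffffffffffbfffffffffffffffbfffffffffffffffbfffffffffffffffbfffffffffffffffbfffffffffffffffbfffffffffffffffbfffffffffffffffbfffffffffffffffbfffffffffffffffbfffffffffffffffbfffffffffffffffbfffffffffffffffbfffffffffffffffbfffffffffffffffbfffffffffffffffbfffffffffffffffbfffffffffffffffbfffffffffffffffbfffffffffffffffbfffffffffffffffc0000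
def cA : ℕ := nat_lit 0x1800000000000000080000000000000008000000000000000800000000000000080000000000000008000000000000000800000000000000080000000000000007ffffe00000000007ffffe00000000007ffffe00000000007ffffe00000000007ffffe00000000007ffffe00000000007ffffe00000000007ffffe00000000007ffffe00000000007ffffe00000000007ffffe00000000007ffffe00000000007ffffe00000000007ffffe00000000007ffffe00000000007ffffe00000000007ffffe00000000007ffffe00000000007ffffe00000000007ffffe00000000007ffffe00000000007ffffe00000000007ffffe00000000007ffffe00000000007ffffe00000000007ffffe00000000007ffffe00000000007ffffe00000000007ffffe00000000007ffffe00000000007ffffe00000000007ffffe00000000007ffffe00000000007ffffe00000000007ffffe00000000007ffffe00000000007ffffe00000000007ffffe00000000007ffffe00000000007ffffe00000000007ffffe00000000007ffffe00000000007ffffe00000000007ffffe00000000007ffffe00000000007ffffe00000000007ffffe00000000007ffffe0000000000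
def cU : ℕ := nat_lit 0x4000000000000000400000000000000040000000000000004000000000000000400000000000000040000000000000004000000000000000400000000000000040000000000000004000000000000000400000000000000040000000000000004000000000000000400000000000000040000000000000004000000000000000400000000000000040000000000000004000000000000000400000000000000040000000000000004000000000000000400000000000000040000000000000004000000000000000400000000000000040000000000000004000000000000000400000000000000040000000000000004000000000000000400000000000000040000000000000004000000000000000400000000000000040000000000000004000000000000000400000000000000040000000000000004000000000000000400000000000000040000000000000004000000000000000400000000000000040000000000000004000000000000000400000000000000040000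
def tOth : ℕ := nat_lit 0xb9a786542310
def tOkL : ℕ := nat_lit 0xffffff00ffffffffffffffff00ffff7fefffffffffffffff
def tOkN : ℕ := nat_lit 0xfff00ffff00fffffffffffff00fffffff7feffffffffffff000fff000fff000fff000fff000fff000fff000fff000fff
def tCl : ℕ := nat_lit 0x777777776666555555554444333333332222111111110000
def tPi : ℕ := nat_lit 0x41f1f1f1f1f1f1f1f1f1f1f1f0b1f1f1f1f0a1f1f1f1f1f1f1f1f131108151f1f1f1f1f1f1f121f1f1f0e1f1f1f1f1f1f1f101f1f1f0c1f1f1f1f1f1f1f071f1f1f051f1f1f1f1f1f09140f0d0603021f1f1f1f1f1f1f1f1f1f01001f1f1f1f1f1f1f1f1f1f1f1f1f1f1f1f1f1f1f1f1f1f1f1f1f1f1f1f1f1f1f1f1f1f1f1f1f1f1f1f1f1f1f1f1f1f1f1f1f1f1f1f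
def tCode : ℕ := nat_lit 0x11111111111111111111111111111111111111111111111111111111111111111111111111111111111111111111111111111111000011111111000011111111000011111111000011111111111111111111110111111111110111111111111111111111111111111111111111111111110111111111110111111111777711111111777710011100775511111111775711111111111111111111110111111111110111111111111111111111111111111111111111111111110111111111110111111111666611111111666610011100665511111111665611111111111111111111111111111111111111111111111111111111111111111111111111111111111111111111111111111111000011111111000011111111000011111111000011111111111111111111111111111111111111111111111111111111111111111111111111111111111111111111111111111111000011111111000011111111000011111111000011111111111111111111111111111111111111111111111111111111111111111111111111111111111111111111111111111111111111111111111111111111111111111111111111111111111111111111110111111111110111111111111111111111111111111111111111111111110111111111110111111111111111111111111110011100115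51111111111511111111111111111111111011111111111011111111111111111111111111111111111111111111111011111111111011111111111111111111111111001110011551111111111511111111100001111111199991111111188881111111100001111111100001111111111111111111111111111111111110ba0011111100ba0011111100ba0011111100ba0011100001111111100001111111199991111111188881111111100001111111100001111111111111111111111111111111111110ba0011111100ba0011111100ba0011111100ba0011100001111111100001001110099441001110088441111111100001111111100001111111111111001110011441001110011440ba0011111100ba0011111100330013311200330013300001111111100001111111199491111111188481111111100001111111100001111111111111111111111411111111111410ba0011100000ba0011100000330013300000ba001110000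

structure CD where
  K : ℕ
  G : ℕ
  E : ℕ
  r : ℕ
  V : ℕ

structure Ct where
  md : ℕ
  par : ℕ
  den : ℕ
  a1 : ℕ
  a2 : ℕ
  b1 : ℕ
  b2 : ℕ
  W : ℕ
  P : ℕ
  X : ℕ
  cs : List CD

def oth (t : ℕ) : ℕ := nb tOth t
def isZ (u : ℕ) : Bool := bt (nat_lit 9) u
def cb (k : ℕ) : ℕ := Nat.shiftRight k (nat_lit 1)
def okL (t k1 k2 : ℕ) : Bool :=
  bt tOkL (Nat.add (Nat.add (Nat.mul (nat_lit 48) k1) (Nat.mul (nat_lit 12) k2)) t)
def okN (md u i : ℕ) : Bool :=
  bt tOkN (Nat.add (Nat.add (Nat.mul (nat_lit 192) md) (Nat.mul (nat_lit 48) u)) i)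
def cl8 (i : ℕ) : ℕ := nb tCl i
def pix (a b : ℕ) : ℕ :=
  Nat.land (Nat.shiftRight tPi (Nat.mul (nat_lit 8) (Nat.add (Nat.mul (nat_lit 12) a) b)))
    (nat_lit 255)
def code (a c e : ℕ) : ℕ :=
  nb tCode (Nat.add (Nat.add (Nat.mul (nat_lit 144) a) (Nat.mul (nat_lit 12) c)) e)
def isE (t : ℕ) : Bool := bt (nat_lit 384) t
def hl (k t : ℕ) : ℕ := Nat.add (Nat.mul (nat_lit 12) (cb k)) t

def wd (W u x y : ℕ) : ℕ :=
  dg W (Nat.add (Nat.add (Nat.mul (nat_lit 576) u) (Nat.mul (nat_lit 24) x)) y)
def wsw (W : ℕ) (s : Bool) (u x y : ℕ) : ℕ := sel s (wd W u y x) (wd W u x y)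
def pd (P u t0 c0 t1 c1 mk : ℕ) : ℕ :=
  dg P (Nat.add (Nat.mul (nat_lit 3) (Nat.add (Nat.add (Nat.mul (nat_lit 4)
    (Nat.add (Nat.mul (nat_lit 22) u) (pix t0 t1))) (Nat.mul (nat_lit 2) c0)) c1)) mk)
def psw (P : ℕ) (s : Bool) (u t0 k0 t1 k1 mk : ℕ) : ℕ :=
  sel s (pd P u t1 (cb k1) t0 (cb k0) mk) (pd P u t0 (cb k0) t1 (cb k1) mk)
def td (X u x y : ℕ) : ℕ :=
  dg X (Nat.add (Nat.add (Nat.mul (nat_lit 9) u) (Nat.mul (nat_lit 3) x)) y)
def qd (X u a : ℕ) : ℕ := dg X (Nat.add (Nat.add (nat_lit 36) (Nat.mul (nat_lit 3) u)) a)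
def k1d (X u v : ℕ) : ℕ := dg X (Nat.add (Nat.add (nat_lit 48) (Nat.mul (nat_lit 4) u)) v)
def kcd (X u : ℕ) : ℕ := dg X (Nat.add (nat_lit 64) u)

/-- sum of the three weight digits of a cell seen from direction `f` -/
def cwd (W f kf ky kz a c e : ℕ) : ℕ :=
  Nat.add (Nat.add (wsw W (Nat.beq f (nat_lit 1)) kf (hl ky (oth a)) (hl kz (oth c)))
    (wsw W (Nat.ble (nat_lit 1) f) ky (hl kf a) (hl kz e)))
    (wsw W (Nat.beq f (nat_lit 2)) kz (hl kf c) (hl ky (oth e)))

/-- kinds of vertices in direction `f` -/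
def kdir (md f k : ℕ) : Bool :=
  bt (sel (Nat.beq md (nat_lit 0)) (nat_lit 1) (sel (Nat.beq f (nat_lit 2)) (nat_lit 9) (nat_lit 6))) k

/-- the bound for a cell with a given code -/
def cbd (X k0 k1 k2 s cd : ℕ) : Bool :=
  sel (Nat.beq cd (nat_lit 1)) (Nat.ble s (nat_lit 25165824))
  (sel (Nat.beq cd (nat_lit 2)) (both (Nat.ble s (Nat.add (nat_lit 25165824) (kcd X k0)))
      (both (Nat.ble s (Nat.add (nat_lit 25165824) (kcd X k1)))
        (Nat.ble s (Nat.add (nat_lit 25165824) (kcd X k2)))))
  (Nat.ble s (Nat.add (nat_lit 25165824)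
    (sel (Nat.beq cd (nat_lit 3)) (kcd X k0) (sel (Nat.beq cd (nat_lit 4)) (kcd X k1)
    (sel (Nat.beq cd (nat_lit 5)) (kcd X k2) (sel (Nat.beq cd (nat_lit 6)) (k1d X k0 k1)
    (sel (Nat.beq cd (nat_lit 7)) (k1d X k1 k0) (sel (Nat.beq cd (nat_lit 8)) (k1d X k0 k2)
    (sel (Nat.beq cd (nat_lit 9)) (k1d X k2 k0) (sel (Nat.beq cd (nat_lit 10)) (k1d X k2 k1)
      (k1d X k1 k2))))))))))))

def cellOK (W X k0 k1 k2 a c e : ℕ) : Bool :=
  frc (code a c e) fun cd => sel (Nat.beq cd (nat_lit 0)) true
    (frc (Nat.add (Nat.add (wd W k0 (hl k1 (oth a)) (hl k2 (oth c))) (wd W k1 (hl k0 a) (hl k2 e)))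
      (wd W k2 (hl k0 c) (hl k1 (oth e)))) fun s => cbd X k0 k1 k2 s cd)

def allK (md : ℕ) (f : ℕ → ℕ → ℕ → Bool) : Bool :=
  allN (nat_lit 4) fun k0 => imp (kdir md (nat_lit 0) k0) (allN (nat_lit 4) fun k1 =>
    imp (kdir md (nat_lit 1) k1) (allN (nat_lit 4) fun k2 => imp (kdir md (nat_lit 2) k2) (f k0 k1 k2)))

def chkCells (md W X : ℕ) : Bool :=
  allK md fun k0 k1 k2 => allN (nat_lit 12) fun a => imp (okL a k1 k0) (allN (nat_lit 12) fun c =>
    imp (okL c k2 k0) (allN (nat_lit 12) fun e => imp (okL e k1 k2) (cellOK W X k0 k1 k2 a c e)))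

/-- `den * (p - p0) ≥ b * (w - w0)` for both ends `b` -/
def rk2 (C : Ct) (p p0 w w0 : ℕ) : Bool :=
  frc p fun p => frc p0 fun p0 => frc w fun w =>
    both (Nat.ble (Nat.add (Nat.mul C.den p0) (Nat.mul C.b1 w)) (Nat.add (Nat.mul C.den p) (Nat.mul C.b1 w0)))
      (Nat.ble (Nat.add (Nat.mul C.den p0) (Nat.mul C.b2 w)) (Nat.add (Nat.mul C.den p) (Nat.mul C.b2 w0)))

def okRole (md u t0 c0 t1 c1 mk : ℕ) : Bool :=
  both (Nat.ble (pix t0 t1) (nat_lit 21))
  (both (okN md u (Nat.add (Nat.mul (nat_lit 12) c0) t0))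
  (both (okN md u (Nat.add (Nat.add (nat_lit 24) (Nat.mul (nat_lit 12) c1)) t1))
  (both (sel (Nat.beq mk (nat_lit 0)) true
      (both (sel (isE t0) true (isE t1)) (Nat.ble mk (Nat.add md (nat_lit 1)))))
  (both (sel (isZ u) true (Nat.ble c1 c0))
    (imp (both (Nat.beq u (nat_lit 1)) (Nat.beq c0 (nat_lit 0)))
      (both (imp (isE t0) (bt (nat_lit 5) mk))
        (both (imp (Nat.beq t0 (nat_lit 9)) (Nat.beq t1 (nat_lit 5)))
          (imp (Nat.beq t0 (nat_lit 10)) (Nat.beq t1 (nat_lit 10))))))))))

def rsw (md : ℕ) (s : Bool) (u t0 k0 t1 k1 mk : ℕ) : Bool :=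
  sel s (okRole md u t1 (cb k1) t0 (cb k0) mk) (okRole md u t0 (cb k0) t1 (cb k1) mk)

/-- the three roles of a rook are listed -/
def roles3 (md f kf ky kz a c e m1 m2 : ℕ) : Bool :=
  both (rsw md (Nat.beq f (nat_lit 1)) kf (oth a) ky (oth c) kz (nat_lit 0))
    (both (rsw md (Nat.ble (nat_lit 1) f) ky a kf e kz m1)
      (rsw md (Nat.beq f (nat_lit 2)) kz c kf (oth e) ky m2))

def price3 (P f kf ky kz a c e m1 m2 : ℕ) : ℕ :=
  Nat.add (Nat.add (psw P (Nat.beq f (nat_lit 1)) kf (oth a) ky (oth c) kz (nat_lit 0))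
    (psw P (Nat.ble (nat_lit 1) f) ky a kf e kz m1))
    (psw P (Nat.beq f (nat_lit 2)) kz c kf (oth e) ky m2)

/-- rook without apex; `x` is the extra cost -/
def rook1 (C : Ct) (f kf ky kz a c e x : ℕ) : Bool :=
  imp (both (okL a ky kf) (both (okL c kz kf) (okL e ky kz)))
    (both (roles3 C.md f kf ky kz a c e (nat_lit 0) (nat_lit 0))
      (rk2 C (price3 C.P f kf ky kz a c e (nat_lit 0) (nat_lit 0)) (nat_lit 25165824)
        (Nat.add (cwd C.W f kf ky kz a c e) x) (nat_lit 25165824)))

/-- mark code: `x = 0` is an own mark -/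
def mkc (x k : ℕ) : ℕ := sel (Nat.beq x (nat_lit 0)) (Nat.add (nat_lit 1) (cb k)) (nat_lit 0)
/-- type of the marked line at the owner -/
def mty (x : ℕ) : ℕ := sel (Nat.beq x (nat_lit 2)) (nat_lit 3) (nat_lit 2)
def tsw (X : ℕ) (s : Bool) (u x y : ℕ) : ℕ := sel s (td X u y x) (td X u x y)

/-- rook with apex of kind `ak` -/
def rook2 (C : Ct) (f kf ky kz a c e ak x y : ℕ) : Bool :=
  both (roles3 C.md f kf ky kz a c e (mkc x ak) (mkc y ak))
    (rk2 C (price3 C.P f kf ky kz a c e (mkc x ak) (mkc y ak))
      (Nat.add (nat_lit 16777216) (tsw C.X (Nat.beq f (nat_lit 1)) ak (mkc x ky) (mkc y kz)))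
      (Nat.add (cwd C.W f kf ky kz a c e) (cwd C.W f ak ky kz (mty x) (mty y) e))
      (nat_lit 50331648))

/-- 5 or 9 -/
def pq (i : ℕ) : ℕ := Nat.add (nat_lit 5) (Nat.mul (nat_lit 4) i)
def gg (k k' : ℕ) : Bool := both (Nat.beq k (nat_lit 1)) (Nat.beq k' (nat_lit 1))

def rookF (C : Ct) (f kf ky kz : ℕ) : Bool :=
  both (rook1 C f kf ky kz (nat_lit 9) (nat_lit 9) (nat_lit 5)
    (Nat.add (Nat.add (k1d C.X kf ky) (k1d C.X kf kz)) (kcd C.X kf)))
  (allN (nat_lit 2) fun i => allN (nat_lit 2) fun j =>
    sel (sel (both (Nat.beq i (nat_lit 1)) (gg kf ky)) true (both (Nat.beq j (nat_lit 1)) (gg kf kz))) true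
    (both (rook1 C f kf ky kz (pq i) (pq j) (nat_lit 6) (nat_lit 0))
      (imp (both (Nat.ble (Nat.add i j) (nat_lit 1))
          (both (okL (pq i) ky kf) (both (okL (pq j) kz kf) (okL (nat_lit 7) ky kz))))
        (allN (nat_lit 2) fun e => allN (nat_lit 4) fun ak =>
          imp (both (kdir C.md f ak) (imp (gg ky kz) (Nat.beq ak (nat_lit 3))))
            (allN (nat_lit 3) fun x => allN (nat_lit 3) fun y =>
              rook2 C f kf ky kz (pq i) (pq j) (Nat.add (nat_lit 7) e) ak x y)))))

def chkRooks (C : Ct) : Bool :=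
  allK C.md fun k0 k1 k2 =>
    both (allN (nat_lit 2) fun a => allN (nat_lit 2) fun c => allN (nat_lit 2) fun e =>
      rook1 C (nat_lit 0) k0 k1 k2 (Nat.add (nat_lit 4) a) (Nat.add (nat_lit 4) c) (Nat.add (nat_lit 4) e) (nat_lit 0))
    (both (rook1 C (nat_lit 0) k0 k1 k2 (nat_lit 11) (nat_lit 11) (nat_lit 11) (nat_lit 0))
    (both (rookF C (nat_lit 0) k0 k1 k2) (both (rookF C (nat_lit 1) k1 k2 k0) (rookF C (nat_lit 2) k2 k0 k1))))

/-! ### forms -/

def sI (X : ℕ) : ℤ := (X : ℤ) - 8388608
def kap (z : Bool) (j : ℕ) : ℤ := if z then (j / 2 % 2 : ℕ) else if j / 2 = 1 then 2 else 0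
def twf (z : Bool) (j : ℕ) : ℤ := if z then 0 else if j / 2 = 3 then 2 else 0
def hhf (q j : ℕ) : ℤ := if j / 4 = q ∧ j % 2 = 1 then 1 else 0
def phf (par : ℕ) : ℤ := if par = 0 then 0 else 1
def plf (par : ℕ) : ℤ := if par = 1 then 3 else 2

def lev (C : Ct) (z : Bool) (q l j : ℕ) : ℤ :=
  if l = 1 then
    (if z then 4 * C.den * hhf q j - (C.den - phf C.par * C.b2)
      else C.den * (4 * hhf q j - 1 + phf C.par * twf z j))
  else if l = 0 then
    (if z then (C.den - plf C.par * C.b1) - 4 * C.den * hhf q j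
      else C.den * (1 - 4 * hhf q j - plf C.par * twf z j))
  else 0

def kfm (C : Ct) (z : Bool) (q l j : ℕ) : ℤ :=
  if l = 1 then
    (if C.md = 0 then 2 * C.den * hhf q j - C.a1 else C.den * (2 * hhf q j - kap z j))
  else if l = 0 then
    (if z then C.den * (kap z j - 2 * hhf q j) - C.b1
      else C.den * (kap z j - 2 * hhf q j - twf z j))
  else 0

/-- coefficient of form `k` on class `j` -/
def fc (C : Ct) (u la lb ka kb k j : ℕ) : ℤ :=
  if k = 0 then (if j < 4 then (C.den : ℤ) else -C.den)
  else if k = 1 then (if isZ u ∧ j / 2 % 2 = 1 then (if j < 4 then (C.den : ℤ) else -C.den) else 0)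
  else if k = 2 then (if C.md = 0 then 0 else C.den * kap (isZ u) j - C.a1)
  else if k = 3 then (if C.md = 0 then 0 else C.a2 - C.den * kap (isZ u) j)
  else if k = 4 then (if isZ u then 0 else C.den * twf (isZ u) j - C.b1)
  else if k = 5 then (if isZ u then 0 else C.b2 - C.den * twf (isZ u) j)
  else if k = 6 then lev C (isZ u) 0 la j
  else if k = 7 then lev C (isZ u) 1 lb j
  else if k = 8 then kfm C (isZ u) 0 ka j
  else if k = 9 then kfm C (isZ u) 1 kb j
  else sI (qd C.X u 0) + sI (qd C.X u 1) * kap (isZ u) j + sI (qd C.X u 2) * twf (isZ u) j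

def fcx (C : Ct) (u la lb ka kb x : ℕ) : ℤ := fc C u la lb ka kb (x / 8) (x % 8) + 8388608

def alw (md u la lb i : ℕ) : Bool :=
  both (okN md u i) (imp (Nat.beq (Nat.mod i (nat_lit 12)) (nat_lit 8))
    (Nat.ble (nat_lit 1) (sel (Nat.ble (nat_lit 24) i) la lb)))

def rowOK (md u la lb i : ℕ) : Bool := sel (Nat.ble (nat_lit 48) i) true (alw md u la lb i)

abbrev Tm := (ℕ → ℕ) × (ℕ → ℕ)

def mapA (n : ℕ) (f : ℕ → Tm) (t : List Tm) : List Tm := Nat.rec t (fun i ih => f i :: ih) n

def tm1 (CT G k : ℕ) : Tm :=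
  (fun i => sel (Nat.ble (nat_lit 48) i)
      (sel (Nat.beq i (Nat.add (nat_lit 46) k)) (nat_lit 8126464) (nat_lit 8388608))
      (dg CT (Nat.add (Nat.mul (nat_lit 8) k) (cl8 i))),
    fun l => dg G (Nat.add (Nat.mul (nat_lit 48) k) l))

def tm2 (CT E j : ℕ) : Tm :=
  (fun i => sel (Nat.ble (nat_lit 48) i)
      (Nat.add (nat_lit 8388608) (dg E (Nat.add (Nat.mul (nat_lit 8) j) (Nat.sub i (nat_lit 48)))))
      (nat_lit 8388608),
    fun l => dg CT (Nat.add (Nat.add (nat_lit 16) (Nat.mul (nat_lit 8) j)) (cl8 l)))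

def tm3 (CT : ℕ) : Tm :=
  (fun i => sel (Nat.ble (nat_lit 48) i) (nat_lit 8388608) (dg CT (Nat.add (nat_lit 80) (cl8 i))),
    fun _ => nat_lit 8650752)

def tm4 (V j : ℕ) : Tm :=
  (fun i => sel (Nat.ble (nat_lit 48) i) (nat_lit 8388608) (dg V (Nat.add (Nat.mul (nat_lit 48) j) i)),
    fun l => dg V (Nat.add (Nat.mul (nat_lit 48) j) l))

def tms (CT : ℕ) (D : CD) : List Tm :=
  mapA (nat_lit 10) (tm1 CT D.G) (mapA (nat_lit 8) (tm2 CT D.E) (tm3 CT :: mapA D.r (tm4 D.V) []))

def encF (F : ℕ → ℕ) : ℕ := Nat.land (Nat.add (pack (nat_lit 64) F (nat_lit 56)) cFB) cM1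

def frcT (l : List Tm) : (List (ℕ × (ℕ → ℕ)) → Bool) → Bool :=
  List.rec (fun k => k []) (fun t _ ih k => frc (encF t.1) fun F => ih fun r => k ((F, t.2) :: r)) l

def dot (l : List (ℕ × (ℕ → ℕ))) (x : ℕ) : ℕ :=
  List.rec (nat_lit 0) (fun t _ ih => Nat.add (Nat.mul (t.2 x) t.1) ih) l

def sumF (l : List (ℕ × (ℕ → ℕ))) : ℕ := List.rec (nat_lit 0) (fun t _ ih => Nat.add t.1 ih) l

def tri (l : ℕ) : ℕ := Nat.shiftRight (Nat.mul l (Nat.sub l (nat_lit 1))) (nat_lit 1)

/-- antisymmetric part, shifted by `2 ^ 25` -/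
def kd (W K u l i : ℕ) : ℕ :=
  sel (Nat.ble (nat_lit 48) i) (nat_lit 33554432)
  (sel (Nat.ble l i)
    (sel (Nat.beq l i) (nat_lit 33554432)
      (sel (both (Nat.ble (nat_lit 24) i) (Nat.ble l (nat_lit 23)))
        (Nat.sub (nat_lit 50331648) (Nat.add (dg K (Nat.add (tri i) l)) (wd W u l (Nat.sub i (nat_lit 24)))))
        (Nat.sub (nat_lit 41943040) (dg K (Nat.add (tri i) l)))))
    (Nat.add (nat_lit 25165824) (dg K (Nat.add (tri l) i))))

def ncol (W K u : ℕ) (tl : List (ℕ × (ℕ → ℕ))) (c0 l : ℕ) : ℕ :=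
  Nat.land (Nat.mul cM1 (Nat.add (Nat.add
    (Nat.mul (nat_lit 262144) (pack (nat_lit 64) (kd W K u l) (nat_lit 56))) (dot tl l)) c0)) cM1

def gcol (NC l : ℕ) : ℕ := Nat.land (Nat.shiftRight NC (Nat.mul (nat_lit 3584) l)) cM1

def tst (MK Y : ℕ) : Bool := Nat.beq (Nat.land Y MK) MK

/-- both values of the mass on a multiple line -/
def tst1 (MK t Y x : ℕ) : Bool :=
  sel (Nat.beq t (nat_lit 5)) (both (tst MK Y) (tst MK (Nat.add Y x)))
    (tst MK (Nat.add Y (Nat.add x x)))

def tst2 (MK t0 t1 Y x0 x1 : ℕ) : Bool :=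
  sel (Nat.beq t0 (nat_lit 5)) (both (tst1 MK t1 Y x1) (tst1 MK t1 (Nat.add Y x0) x1))
    (tst1 MK t1 (Nat.add Y (Nat.add x0 x0)) x1)

/-- twice the column of a mark; `b` is the lane of class zero -/
def mcol (NC b mk : ℕ) : ℕ :=
  sel (Nat.beq mk (nat_lit 0)) (nat_lit 0)
    (Nat.mul (nat_lit 2) (gcol NC (Nat.add b (Nat.mul (nat_lit 12) (Nat.sub mk (nat_lit 1))))))

def roleT (P u NC MK t0 c0 t1 c1 mk : ℕ) : Bool :=
  frc (Nat.add (Nat.add cR (Nat.mul (pd P u t0 c0 t1 c1 mk) cNU))
      (mcol NC (sel (isE t0) (nat_lit 26) (nat_lit 2)) mk)) fun Y =>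
    frc (gcol NC (Nat.add (Nat.mul (nat_lit 12) c0) t0)) fun x0 =>
      frc (gcol NC (Nat.add (Nat.add (nat_lit 24) (Nat.mul (nat_lit 12) c1)) t1)) fun x1 =>
        tst2 MK t0 t1 Y x0 x1

def atoms (C : Ct) (u la lb NC MK : ℕ) : Bool :=
  both (allN (nat_lit 48) fun i => imp (both (Nat.ble (Nat.mod i (nat_lit 12)) (nat_lit 1)) (okN C.md u i))
    (tst MK (Nat.add cH (Nat.mul (nat_lit 2) (gcol NC i)))))
  (both (allN (Nat.add C.md (nat_lit 2)) fun x => allN (Nat.add C.md (nat_lit 2)) fun y =>
    tst MK (Nat.add (Nat.add (Nat.add cA (Nat.mul (td C.X u x y) cU)) (mcol NC (nat_lit 3) x))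
      (mcol NC (nat_lit 27) y)))
  (allN (nat_lit 12) fun t0 => allN (nat_lit 12) fun t1 => imp (Nat.ble (pix t0 t1) (nat_lit 21))
    (allN (nat_lit 2) fun c0 => imp (alw C.md u la lb (Nat.add (Nat.mul (nat_lit 12) c0) t0))
      (allN (nat_lit 2) fun c1 =>
        imp (alw C.md u la lb (Nat.add (Nat.add (nat_lit 24) (Nat.mul (nat_lit 12) c1)) t1))
        (allN (nat_lit 3) fun mk => imp (okRole C.md u t0 c0 t1 c1 mk)
          (roleT C.P u NC MK t0 c0 t1 c1 mk))))))

def chkCase (C : Ct) (u la lb ka kb : ℕ) (D : CD) : Bool :=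
  both (Nat.ble D.r (nat_lit 40))
  (both (allN (nat_lit 88) fun x => decide (0 ≤ fcx C u la lb ka kb x ∧ fcx C u la lb ka kb x < 16777216))
  (frc (pack (nat_lit 24) (fun x => (fcx C u la lb ka kb x).toNat) (nat_lit 88)) fun CT =>
    frcT (tms CT D) fun tl =>
      frc (Nat.land (Nat.add cK (Nat.mul cMB (sumF tl))) cM1) fun c0 =>
        frc (pack (nat_lit 3584) (fun l => sel (alw C.md u la lb l) (ncol C.W D.K u tl c0 l) (nat_lit 0))
            (nat_lit 48)) fun NC =>
          frc (pack (nat_lit 64) (fun i => sel (rowOK C.md u la lb i) (nat_lit 9223372036854775808) (nat_lit 0))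
              (nat_lit 56)) fun MK => atoms C u la lb NC MK))

def cdAt (C : Ct) (j : ℕ) : CD := C.cs.getD j ⟨0, 0, 0, 0, 0⟩

def cas2 (C : Ct) (u j : ℕ) : Bool :=
  both (chkCase C u 2 2 1 2 (cdAt C j)) (chkCase C u 2 2 2 1 (cdAt C (j + 1)))

def cas6 (C : Ct) (u j : ℕ) : Bool :=
  both (chkCase C u 1 1 2 2 (cdAt C j)) (both (chkCase C u 1 0 2 2 (cdAt C (j + 1)))
  (both (chkCase C u 0 1 2 2 (cdAt C (j + 2))) (both (chkCase C u 0 0 1 1 (cdAt C (j + 3)))
  (both (chkCase C u 0 0 1 0 (cdAt C (j + 4))) (chkCase C u 0 0 0 1 (cdAt C (j + 5)))))))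

/-- polar form of the total bound -/
def blo (C : Ct) (kA kB tA tB : ℤ) : ℤ :=
  (C.den - tA) * (sI (qd C.X 0 0) * C.den + sI (qd C.X 0 1) * kB)
  + (2 * C.den - 2 * kA) * (sI (qd C.X 1 0) * C.den + sI (qd C.X 1 1) * kB + sI (qd C.X 1 2) * tB)
  + 2 * kA * (sI (qd C.X 2 0) * C.den + sI (qd C.X 2 1) * kB + sI (qd C.X 2 2) * tB)
  + tA * (sI (qd C.X 3 0) * C.den + sI (qd C.X 3 1) * kB)

def ccf (par : ℕ) : ℤ := if par = 0 then 6 else 3

def brn (C : Ct) (kA kB tA tB : ℤ) : Bool :=
  decide (0 < blo C kA kB tA tB + blo C kB kA tA tB + blo C kA kB tB tA + blo C kB kA tB tA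
    + 262144 * (ccf C.par * tA * tB - 3 * C.den * C.den))

def brn3 (C : Ct) (kA kB : ℤ) : Bool :=
  both (brn C kA kB C.b1 C.b1) (both (brn C kA kB C.b1 C.b2) (brn C kA kB C.b2 C.b2))

def chkObj (C : Ct) : Bool :=
  both (brn3 C C.a1 C.a1) (both (brn3 C C.a1 C.a2) (brn3 C C.a2 C.a2))

def chkA (C : Ct) : Bool :=
  both (Nat.beq C.md 0) (both (chkCells 0 C.W C.X) (both (chkRooks C)
    (both (cas2 C 0 0) (Nat.ble 8454144 (qd C.X 0 0)))))

def chkB0 (C : Ct) : Bool :=
  both (Nat.beq C.md 1) (both (chkCells 1 C.W C.X) (both (chkRooks C) (chkObj C)))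

def chkB (C : Ct) : Bool :=
  both (chkB0 C) (both (cas6 C 0 0) (both (cas6 C 1 6) (both (cas6 C 2 12) (cas2 C 3 18))))

end

end Pool.Agent.P.MP_41d1ec_co
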