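import Mathlib
import Pool.Agent.P.MP_41d1ec_co.Chk

/-! Specification of the basic checker operations and the packed sign test. -/

set_option autoImplicit false

namespace Pool.Agent.P.MP_41d1ec_co

open Finset

theorem frc_eq (n : ℕ) (k : ℕ → Bool) : frc n k = k n := Eq.trans rfl rfl

theorem sel_eq {α : Type} (b : Bool) (x y : α) : sel b x y = if b = true then x else y := by
  cases b <;> rfl

theorem imp_iff (a b : Bool) : imp a b = true ↔ (a = true → b = true) := by
  cases a <;> cases b <;> simp [imp]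

theorem both_iff (a b : Bool) : both a b = true ↔ (a = true ∧ b = true) := by
  cases a <;> cases b <;> simp [both]

theorem allN_succ (n : ℕ) (f : ℕ → Bool) : allN (n + 1) f = sel (f n) (allN n f) false := rfl

theorem allN_iff (n : ℕ) (f : ℕ → Bool) : allN n f = true ↔ ∀ i < n, f i = true := by
  induction n with
  | zero => simp [allN]
  | succ n ih =>
    rw [allN_succ, sel_eq]
    constructor
    · intro h i hi
      split_ifs at h with h1
      rcases Nat.lt_succ_iff_lt_or_eq.1 hi with h2 | rfl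
      · exact ih.1 h i h2
      · exact h1
    · intro h
      rw [if_pos (h n (Nat.lt_succ_self n))]
      exact ih.2 fun i hi => h i (Nat.lt_succ_of_lt hi)

theorem beq_iff (a b : ℕ) : Nat.beq a b = true ↔ a = b := Nat.beq_eq ▸ Iff.rfl

theorem ble_iff (a b : ℕ) : Nat.ble a b = true ↔ a ≤ b := Nat.ble_eq ▸ Iff.rfl

theorem land_mask (x k : ℕ) : Nat.land x (2 ^ k - 1) = x % 2 ^ k :=
  Nat.and_two_pow_sub_one_eq_mod x k

theorem dg_eq (T i : ℕ) : dg T i = (T >>> (24 * i)) % 2 ^ 24 :=
  land_mask (T >>> (24 * i)) 24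

theorem dg_lt (T i : ℕ) : dg T i < 16777216 := by
  rw [dg_eq]; exact Nat.mod_lt _ (by norm_num)

theorem pack_succ (w : ℕ) (f : ℕ → ℕ) (m : ℕ) :
    pack w f (m + 1) = pack w f m + f m * 2 ^ (w * m) := by
  have : pack w f (m + 1) = pack w f m + (f m) <<< (w * m) := rfl
  rw [this, Nat.shiftLeft_eq]

theorem pack_eq (w : ℕ) (f : ℕ → ℕ) (m : ℕ) :
    pack w f m = ∑ i ∈ range m, f i * 2 ^ (w * i) := by
  induction m with
  | zero => rfl
  | succ m ih => rw [pack_succ, sum_range_succ, ih]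

theorem pack_lt {w : ℕ} {f : ℕ → ℕ} {m : ℕ} (h : ∀ i < m, f i < 2 ^ w) :
    pack w f m < 2 ^ (w * m) := by
  induction m with
  | zero => simp [pack]
  | succ m ih =>
    rw [pack_succ]
    have h1 := ih fun i hi => h i (Nat.lt_succ_of_lt hi)
    have h2 := h m (Nat.lt_succ_self m)
    have h3 : 2 ^ (w * (m + 1)) = 2 ^ w * 2 ^ (w * m) := by rw [mul_add, pow_add]; ring
    rw [h3]
    nlinarith

theorem pack_fld {w : ℕ} {f : ℕ → ℕ} {m : ℕ} (h : ∀ i < m, f i < 2 ^ w) {j : ℕ} (hj : j < m) :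
    (pack w f m >>> (w * j)) % 2 ^ w = f j := by
  induction m with
  | zero => omega
  | succ m ih =>
    rw [pack_succ, Nat.shiftRight_eq_div_pow]
    rcases Nat.lt_succ_iff_lt_or_eq.1 hj with h2 | rfl
    · have := ih (fun i hi => h i (Nat.lt_succ_of_lt hi)) h2
      rw [Nat.shiftRight_eq_div_pow] at this
      obtain ⟨d, rfl⟩ := Nat.exists_eq_add_of_lt h2
      have e : f (j + d + 1) * 2 ^ (w * (j + d + 1))
          = 2 ^ (w * j) * (2 ^ w * (f (j + d + 1) * 2 ^ (w * d))) := by
        rw [show w * (j + d + 1) = w * j + w + w * d by ring, pow_add, pow_add]; ring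
      rw [e, Nat.add_mul_div_left _ _ (by positivity), Nat.add_mul_mod_self_left, this]
    · have h1 := pack_lt fun i hi => h i (Nat.lt_succ_of_lt hi)
      rw [Nat.add_mul_div_right _ _ (by positivity), Nat.div_eq_of_lt h1, zero_add,
        Nat.mod_eq_of_lt (h j hj)]

theorem pack_bit {f : ℕ → ℕ} (h : ∀ i < 56, f i < 2 ^ 64) {j : ℕ} (hj : j < 56) :
    (pack 64 f 56).testBit (64 * j + 63) = (f j).testBit 63 := by
  rw [← pack_fld h hj, Nat.testBit_mod_two_pow, Nat.testBit_shiftRight]
  simp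

/-- the modulus -/
@[irreducible] def bM : ℕ := 2 ^ 3584

theorem bM_eq : bM = 2 ^ (64 * 56) := by decide +kernel

theorem land_M (x : ℕ) : Nat.land x cM1 = x % bM := by
  have : cM1 = 2 ^ (64 * 56) - 1 := by decide +kernel
  rw [this, bM_eq]; exact land_mask x (64 * 56)

theorem cast_land (x : ℕ) : ((Nat.land x cM1 : ℕ) : ZMod bM) = x := by
  rw [land_M, ZMod.natCast_mod]

/-- packed vector modulo `bM` -/
def enc (a : ℕ → ℤ) : ZMod bM := ∑ i ∈ range 56, (a i : ZMod bM) * 2 ^ (64 * i)

theorem enc_congr {a b : ℕ → ℤ} (h : ∀ i < 56, a i = b i) : enc a = enc b :=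
  sum_congr rfl fun i hi => by rw [h i (mem_range.1 hi)]

theorem enc_add (a b : ℕ → ℤ) : enc a + enc b = enc fun i => a i + b i := by
  simp only [enc, ← sum_add_distrib]
  exact sum_congr rfl fun i _ => by push_cast; ring

theorem enc_mul (c : ℤ) (a : ℕ → ℤ) : (c : ZMod bM) * enc a = enc fun i => c * a i := by
  simp only [enc, mul_sum]
  exact sum_congr rfl fun i _ => by push_cast; ring

theorem enc_zero : enc (fun _ => 0) = 0 := by simp [enc]

theorem cast_pack (f : ℕ → ℕ) : ((pack 64 f 56 : ℕ) : ZMod bM) = enc fun i => f i := by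
  rw [pack_eq, enc]; push_cast; rfl

/-- indicator of the type lanes -/
def ind (i : ℕ) : ℤ := if i < 48 then 1 else 0

theorem cast_of_eq {c : ℕ} (x y : ℕ) (z t : ℤ) (m : ℕ)
    (h : (c : ℤ) = m * bM + z * pack 64 (fun _ => 1) 56
      + t * pack 64 (fun i => if i < 48 then 1 else 0) 56) (_ : x = y) :
    (c : ZMod bM) = enc fun i => z + t * ind i := by
  have h1 : ((c : ℤ) : ZMod bM) = _ := congrArg _ h
  push_cast at h1
  rw [h1, ZMod.natCast_self, mul_zero, zero_add, cast_pack, cast_pack, enc_mul, enc_mul, enc_add]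
  refine enc_congr fun i _ => ?_
  unfold ind
  split_ifs <;> simp

theorem cast_cFB : (cFB : ZMod bM) = enc fun i => -8388608 + 0 * ind i :=
  cast_of_eq 0 0 _ _ 1 (by decide +kernel) rfl

theorem cast_cK : (cK : ZMod bM) = enc fun i => -8796093022208 + 0 * ind i :=
  cast_of_eq 0 0 _ _ 1 (by decide +kernel) rfl

theorem cast_cH : (cH : ZMod bM) = enc fun i => 9223372036854775808 + 0 * ind i :=
  cast_of_eq 0 0 _ _ 0 (by decide +kernel) rfl

theorem cast_cR : (cR : ZMod bM) = enc fun i => 9223372036854775808 + 2336462209024 * ind i :=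
  cast_of_eq 0 0 _ _ 0 (by decide +kernel) rfl

theorem cast_cNU : (cNU : ZMod bM) = enc fun i => 0 + -262144 * ind i :=
  cast_of_eq 0 0 _ _ 1 (by decide +kernel) rfl

theorem cast_cA : (cA : ZMod bM) = enc fun i => 9223372036854775808 + -2199023255552 * ind i :=
  cast_of_eq 0 0 _ _ 1 (by decide +kernel) rfl

theorem cast_cU : (cU : ZMod bM) = enc fun i => 0 + 262144 * ind i :=
  cast_of_eq 0 0 _ _ 0 (by decide +kernel) rfl

theorem cast_cMB : (cMB : ZMod bM) = ((-8388608 : ℤ) : ZMod bM) := by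
  have h : (cMB : ℤ) = bM + -8388608 := by decide +kernel
  have h1 : ((cMB : ℤ) : ZMod bM) = _ := congrArg _ h
  rw [Int.cast_natCast, Int.cast_add, Int.cast_natCast, ZMod.natCast_self, zero_add] at h1
  exact h1

theorem cast_cM1 : (cM1 : ZMod bM) = ((-1 : ℤ) : ZMod bM) := by
  have h : (cM1 : ℤ) = bM + -1 := by decide +kernel
  have h1 : ((cM1 : ℤ) : ZMod bM) = _ := congrArg _ h
  rw [Int.cast_natCast, Int.cast_add, Int.cast_natCast, ZMod.natCast_self, zero_add] at h1
  exact h1

/-- soundness of the packed sign test -/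
theorem tst_sound {ok : ℕ → Bool} {Y : ℕ} {a : ℕ → ℤ}
    (hY : (Y : ZMod bM) = enc fun i => 9223372036854775808 + a i)
    (hb : ∀ i < 56, |a i| < 9223372036854775808)
    (h : tst (pack 64 (fun i => sel (ok i) 9223372036854775808 0) 56) Y = true)
    {i : ℕ} (hi : i < 56) (ho : ok i = true) : 0 ≤ a i := by
  set b : ℕ → ℕ := fun i => (9223372036854775808 + a i).toNat with hbd
  have hb1 : ∀ j < 56, (b j : ℤ) = 9223372036854775808 + a j := fun j hj => by
    have := abs_lt.1 (hb j hj)
    simp only [hbd]; omega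
  have hb2 : ∀ j < 56, b j < 2 ^ 64 := fun j hj => by
    have := abs_lt.1 (hb j hj)
    have := hb1 j hj
    omega
  have e1 : (Y : ZMod bM) = (pack 64 b 56 : ℕ) := by
    rw [hY, cast_pack]; exact enc_congr fun j hj => (hb1 j hj).symm
  have e2 : Y % bM = pack 64 b 56 := by
    rw [(ZMod.natCast_eq_natCast_iff' _ _ _).1 e1, Nat.mod_eq_of_lt (bM_eq ▸ pack_lt hb2)]
  have e3 : Y &&& _ = _ := (beq_iff _ _).1 h
  have m1 := pack_bit (f := fun i => sel (ok i) 9223372036854775808 0)
    (fun j _ => by rw [sel_eq]; split_ifs <;> norm_num) hi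
  have m2 : (sel (ok i) 9223372036854775808 0 : ℕ).testBit 63 = true := by
    rw [ho]; decide
  rw [m2, ← e3, Nat.testBit_and, Bool.and_eq_true] at m1
  have m3 := pack_bit hb2 hi
  rw [← e2, bM_eq, Nat.testBit_mod_two_pow, m1.1] at m3
  have m4 : (b i).testBit 63 = true := by
    rw [← m3]; simp; omega
  have := Nat.ge_two_pow_of_testBit m4
  have := hb1 i hi
  omega

end Pool.Agent.P.MP_41d1ec_co
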