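import Pool.Agent.P.MP_41d1ec_co.Defs

/-! Elementary facts on private cells and types of lines. -/

set_option autoImplicit false

namespace Pool.Agent.P.MP_41d1ec_co

open Finset Function Classical

variable {n : ℕ} {S : Finset (Cl n)}

lemma fin3_cases : ∀ p q r j : Fin 3, p ≠ q → p ≠ r → q ≠ r → j = p ∨ j = q ∨ j = r := by
  decide

lemma fin3_a : ∀ f : Fin 3, f + 1 ≠ f := by decide

lemma fin3_b : ∀ f : Fin 3, f + 2 ≠ f := by decide

lemma fin3_c : ∀ f : Fin 3, f + 1 ≠ f + 2 := by decide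

lemma nb_refl (c : Cl n) : Nb c c := ⟨0, 1, by decide, rfl, rfl⟩

lemma nb_cases {p q r : Fin 3} (hpq : p ≠ q) (hpr : p ≠ r) (hqr : q ≠ r) {c d : Cl n}
    (h : Nb c d) :
    (c p = d p ∧ c q = d q) ∨ (c p = d p ∧ c r = d r) ∨ (c q = d q ∧ c r = d r) := by
  obtain ⟨i, j, hij, hi, hj⟩ := h
  rcases fin3_cases p q r i hpq hpr hqr with rfl | rfl | rfl <;>
    rcases fin3_cases _ _ _ j hpq hpr hqr with rfl | rfl | rfl <;> simp_all

lemma lm_zero_iff {p q : Fin 3} {v w : Fin n} :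
    lm S p v q w = 0 ↔ ∀ u ∈ S, ¬ (u p = v ∧ u q = w) := by
  unfold lm
  rw [Finset.card_eq_zero, Finset.filter_eq_empty_iff]

lemma lm_ne_zero {p q : Fin 3} {v w : Fin n} {u : Cl n} (hu : u ∈ S) (h1 : u p = v)
    (h2 : u q = w) : lm S p v q w ≠ 0 := fun h => lm_zero_iff.1 h u hu ⟨h1, h2⟩

lemma two_le_lm {p q : Fin 3} {v w : Fin n} {u u' : Cl n} (hu : u ∈ S) (h1 : u p = v)
    (h2 : u q = w) (hu' : u' ∈ S) (h1' : u' p = v) (h2' : u' q = w) (hne : u ≠ u') :
    2 ≤ lm S p v q w := by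
  unfold lm
  exact Finset.one_lt_card.2 ⟨u, Finset.mem_filter.2 ⟨hu, h1, h2⟩, u',
    Finset.mem_filter.2 ⟨hu', h1', h2'⟩, hne⟩

lemma rko_spec {p q : Fin 3} {v w : Fin n} (h : lm S p v q w ≠ 0) :
    rko S p v q w ∈ S ∧ rko S p v q w p = v ∧ rko S p v q w q = w := by
  have h1 : ∃ u, u ∈ S ∧ u p = v ∧ u q = w := by
    by_contra h2
    exact h (lm_zero_iff.2 fun u hu h3 => h2 ⟨u, hu, h3⟩)
  exact @Classical.epsilon_spec _ (fun u => u ∈ S ∧ u p = v ∧ u q = w) h1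

lemma rko_eq {p q : Fin 3} {v w : Fin n} {u : Cl n} (hu : u ∈ S) (h1 : u p = v)
    (h2 : u q = w) (h : ¬ 2 ≤ lm S p v q w) : rko S p v q w = u := by
  by_contra hne
  obtain ⟨a, b, c⟩ := rko_spec (lm_ne_zero hu h1 h2)
  exact h (two_le_lm a b c hu h1 h2 hne)

lemma mkr_spec {p q : Fin 3} {v w : Fin n} (h : ∃ u, Mk S p v q w u) :
    Mk S p v q w (mkr S p v q w) :=
  @Classical.epsilon_spec _ (Mk S p v q w) h

lemma pn_eq {u v w : Cl n} (h : PN S u w) (hv : v ∈ S) {p q : Fin 3} (hpq : p ≠ q)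
    (h1 : v p = w p) (h2 : v q = w q) : v = u := by
  by_contra hne
  exact h.2 v hv hne ⟨p, q, hpq, h1, h2⟩

lemma not_two_le_lm {u w : Cl n} (h : PN S u w) {p q : Fin 3} (hpq : p ≠ q) :
    ¬ 2 ≤ lm S p (w p) q (w q) := by
  intro h2
  unfold lm at h2
  obtain ⟨a, ha, b, hb, hab⟩ := Finset.one_lt_card.1 h2
  rw [Finset.mem_filter] at ha hb
  exact hab ((pn_eq h ha.1 hpq ha.2.1 ha.2.2).trans (pn_eq h hb.1 hpq hb.2.1 hb.2.2).symm)

lemma sty_ge (p q : Fin 3) (u : Cl n) : 4 ≤ sty S p q u := by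
  unfold sty
  split_ifs <;> omega

lemma sty_lt (p q : Fin 3) (u : Cl n) : sty S p q u < 12 := by
  unfold sty
  split_ifs <;> omega

lemma sty_ne (p q : Fin 3) (u : Cl n) : sty S p q u ≠ 5 := by
  unfold sty
  split_ifs <;> omega

lemma lm_comm (p : Fin 3) (v : Fin n) (q : Fin 3) (w : Fin n) :
    lm S q w p v = lm S p v q w := by
  unfold lm
  congr 1
  ext u
  simp only [Finset.mem_filter]
  tauto

lemma mk_comm (p : Fin 3) (v : Fin n) (q : Fin 3) (w : Fin n) :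
    Mk S q w p v = Mk S p v q w := by
  funext u
  unfold Mk
  apply propext
  tauto

lemma mkr_comm (p : Fin 3) (v : Fin n) (q : Fin 3) (w : Fin n) :
    mkr S q w p v = mkr S p v q w := by
  unfold mkr
  rw [mk_comm]

lemma rko_comm (p : Fin 3) (v : Fin n) (q : Fin 3) (w : Fin n) :
    rko S q w p v = rko S p v q w := by
  unfold rko
  have : (fun u : Cl n => u ∈ S ∧ u q = w ∧ u p = v) = fun u => u ∈ S ∧ u p = v ∧ u q = w := by
    funext u
    apply propext
    tauto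
  rw [this]

lemma sty_ot {p q : Fin 3} (hpq : p ≠ q) (u : Cl n) : sty S q p u = ot (sty S p q u) := by
  unfold sty
  by_cases h0 : rk S u = 0
  · simp [h0, ot]
  by_cases h1 : rk S u = 1
  · simp [h1, ot]
  by_cases h2 : sd S u = p
  · simp [h0, h1, h2, hpq, ot]
  by_cases h3 : sd S u = q
  · simp [h0, h1, h3, hpq.symm, ot]
  by_cases h4 : rk S u = 2
  · rcases lt_or_gt_of_ne hpq with h5 | h5
    · by_cases h6 : Hi S p (u p) (sd S u) <;> simp [h2, h3, h4, h5, h5.not_gt, h6, ot]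
    · have h7 : ¬ p < q := h5.not_gt
      have h8 : q < p := h5
      by_cases h6 : Hi S q (u q) (sd S u) <;> simp [h2, h3, h4, h7, h8, h6, ot]
  · simp [h0, h1, h2, h3, h4, ot]

lemma ht_simple {p q : Fin 3} {v w : Fin n} {u : Cl n} (hu : u ∈ S) (h1 : u p = v)
    (h2 : u q = w) (h : ¬ 2 ≤ lm S p v q w) : ht S p v q w = sty S p q u := by
  unfold ht
  rw [if_neg (lm_ne_zero hu h1 h2), if_neg h, rko_eq hu h1 h2 h]

theorem ht_lt (p : Fin 3) (v : Fin n) (q : Fin 3) (w : Fin n) : ht S p v q w < 12 := by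
  have := sty_lt (S := S) p q (rko S p v q w)
  unfold ht
  split_ifs <;> omega

theorem ht_ot {p q : Fin 3} (hpq : p ≠ q) (v w : Fin n) :
    ht S q w p v = ot (ht S p v q w) := by
  unfold ht
  rw [lm_comm p v q w, mk_comm p v q w, mkr_comm p v q w, rko_comm p v q w]
  by_cases h0 : lm S p v q w = 0
  · rw [if_pos h0, if_pos h0]
    by_cases h1 : ∃ u, Mk S p v q w u
    · rw [if_pos h1, if_pos h1]
      rcases (mkr_spec h1).2.2.2.2 with h2 | h2
      · simp [h2, hpq, ot]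
      · simp [h2, hpq.symm, ot]
    · rw [if_neg h1, if_neg h1]
      have h2 : (∃ c : Cl n, c q = w ∧ c p = v ∧ Und S c) ↔
          ∃ c : Cl n, c p = v ∧ c q = w ∧ Und S c :=
        ⟨fun ⟨c, a, b, d⟩ => ⟨c, b, a, d⟩, fun ⟨c, a, b, d⟩ => ⟨c, b, a, d⟩⟩
      by_cases h3 : ∃ c : Cl n, c p = v ∧ c q = w ∧ Und S c
      · rw [if_pos h3, if_pos (h2.2 h3)]
        simp [ot]
      · rw [if_neg h3, if_neg fun h => h3 (h2.1 h)]
        simp [ot]
  · rw [if_neg h0, if_neg h0]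
    by_cases h1 : 2 ≤ lm S p v q w
    · rw [if_pos h1, if_pos h1]
      simp [ot]
    · rw [if_neg h1, if_neg h1]
      exact sty_ot hpq _

theorem ht_lt4 (p : Fin 3) (v : Fin n) (q : Fin 3) (w : Fin n) :
    ht S p v q w < 4 ↔ lm S p v q w = 0 := by
  have := sty_ge (S := S) p q (rko S p v q w)
  unfold ht
  split_ifs <;> omega

theorem ht_five (p : Fin 3) (v : Fin n) (q : Fin 3) (w : Fin n) :
    ht S p v q w = 5 ↔ 2 ≤ lm S p v q w := by
  have := sty_ne (S := S) p q (rko S p v q w)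
  unfold ht
  split_ifs <;> simp_all

theorem hd_eq (p : Fin 3) (v : Fin n) (q : Fin 3) :
    hd S p v q = (univ.filter fun w => 4 ≤ ht S p v q w).card := by
  unfold hd
  congr 1
  ext w
  simp only [Finset.mem_filter, Finset.mem_univ, true_and]
  rw [← not_lt, ht_lt4, lm_zero_iff]
  constructor
  · rintro ⟨u, hu, h⟩ h1
    exact h1 u hu h
  · intro h
    by_contra h1
    exact h fun u hu h2 => h1 ⟨u, hu, h2⟩

theorem kind_spec (u : Cl n) :
    (rk S u = 0 ∧ sd S u = 0 ∧ ∀ r f a b, ¬ Kind S u r f a b) ∨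
      Kind S u (rk S u) (sd S u) (ap S u) (bp S u) := by
  by_cases h : ∃ x : ℕ × Fin 3 × Fin n × Fin n, Kind S u x.1 x.2.1 x.2.2.1 x.2.2.2
  · right
    unfold rk sd ap bp info
    rw [dif_pos h]
    exact h.choose_spec
  · left
    unfold rk sd info
    rw [dif_neg h]
    exact ⟨rfl, rfl, fun r f a b hk => h ⟨(r, f, a, b), hk⟩⟩

lemma kind_one {u : Cl n} (h : rk S u = 1) : sd S u = 0 ∧ ∀ w, PN S u w ↔ w = u := by
  rcases kind_spec (S := S) u with h1 | h1 | h1 | h1 | h1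
  · omega
  · exact h1.2
  · omega
  · omega
  · omega

lemma kind_two {u : Cl n} (h : rk S u = 2) :
    ap S u ≠ u (sd S u) ∧ ∀ w, PN S u w ↔ w = apx S u := by
  rcases kind_spec (S := S) u with h1 | h1 | h1 | h1 | h1
  · omega
  · omega
  · exact h1.2
  · omega
  · omega

lemma kind_three {u : Cl n} (h : rk S u = 3) :
    (∀ w, PN S u w → ∀ j, j ≠ sd S u → w j = u j) ∧
      ∃ w₁ w₂, w₁ ≠ w₂ ∧ PN S u w₁ ∧ PN S u w₂ := by
  rcases kind_spec (S := S) u with h1 | h1 | h1 | h1 | h1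
  · omega
  · omega
  · omega
  · exact h1.2
  · omega

lemma kind_four {u : Cl n} (h : rk S u = 4) :
    ap S u ≠ u (sd S u + 1) ∧ bp S u ≠ u (sd S u + 2) ∧
      ∀ w, PN S u w ↔ w = cy S u ∨ w = cz S u := by
  rcases kind_spec (S := S) u with h1 | h1 | h1 | h1 | h1
  · omega
  · omega
  · omega
  · omega
  · exact h1.2

lemma rk_cases (u : Cl n) :
    (rk S u = 0 ∧ sd S u = 0) ∨ rk S u = 1 ∨ rk S u = 2 ∨ rk S u = 3 ∨ rk S u = 4 := by
  rcases kind_spec (S := S) u with h1 | h1 | h1 | h1 | h1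
  · exact Or.inl ⟨h1.1, h1.2.1⟩
  · exact Or.inr (Or.inl h1.1)
  · exact Or.inr (Or.inr (Or.inl h1.1))
  · exact Or.inr (Or.inr (Or.inr (Or.inl h1.1)))
  · exact Or.inr (Or.inr (Or.inr (Or.inr h1.1)))

lemma apx_sd (u : Cl n) : apx S u (sd S u) = ap S u := by
  simp [apx]

lemma apx_ne (u : Cl n) {j : Fin 3} (h : j ≠ sd S u) : apx S u j = u j := by
  simp [apx, h]

lemma cy_sd (u : Cl n) : cy S u (sd S u + 1) = ap S u := by
  simp [cy]

lemma cy_ne (u : Cl n) {j : Fin 3} (h : j ≠ sd S u + 1) : cy S u j = u j := by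
  simp [cy, h]

lemma cz_sd (u : Cl n) : cz S u (sd S u + 2) = bp S u := by
  simp [cz]

lemma cz_ne (u : Cl n) {j : Fin 3} (h : j ≠ sd S u + 2) : cz S u j = u j := by
  simp [cz, h]

/-- private cells of kind 2 rooks are not rooks and determine the rook -/
theorem apx_not_mem {u : Cl n} (hu : u ∈ S) (h : rk S u = 2) : apx S u ∉ S := by
  intro hm
  obtain ⟨h1, h2⟩ := kind_two h
  have h3 : apx S u ≠ u := fun e => h1 (by rw [← apx_sd, e])
  exact ((h2 _).2 rfl).2 _ hm h3 (nb_refl _)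

theorem apx_inj {u u' : Cl n} (hu : u ∈ S) (h : rk S u = 2) (hu' : u' ∈ S) (h' : rk S u' = 2)
    (e : apx S u = apx S u') : u = u' := by
  by_contra hne
  have h1 := ((kind_two h).2 _).2 rfl
  have h2 := ((kind_two h').2 _).2 rfl
  rw [← e] at h2
  exact h2.2 u hu hne h1.1

/-- a closed line that meets two empty lines in a cell -/
theorem closed_line (c : Cl n) {p q r : Fin 3} (hpq : p ≠ q) (hpr : p ≠ r) (hqr : q ≠ r)
    (h1 : hc S c p r < 4) (h2 : hc S c q r < 4) :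
    hc S c p q ≠ 0 ∧ hc S c p q ≠ 11 ∧
    (hc S c p q = 7 ∨ hc S c p q = 8 →
      ∃ u ∈ S, u p = c p ∧ u q = c q ∧ rk S u = 2 ∧ sd S u = r ∧ c = apx S u) ∧
    (hc S c p q = 10 → ∃ u ∈ S, u p = c p ∧ u q = c q ∧ rk S u = 4 ∧ sd S u = p ∧
      ((q = p + 2 ∧ c = cy S u) ∨ (q = p + 1 ∧ c = cz S u))) := by
  unfold hc at *
  rw [ht_lt4, lm_zero_iff] at h1 h2
  have hnb : ∀ v ∈ S, Nb v c → v p = c p ∧ v q = c q := by
    intro v hv h
    rcases nb_cases hpq hpr hqr h with h3 | h3 | h3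
    · exact h3
    · exact absurd h3 (h1 v hv)
    · exact absurd h3 (h2 v hv)
  by_cases h0 : lm S p (c p) q (c q) = 0
  · have hU : ∃ d : Cl n, d p = c p ∧ d q = c q ∧ Und S d :=
      ⟨c, rfl, rfl, fun v hv h => lm_zero_iff.1 h0 v hv (hnb v hv h)⟩
    have h3 : ht S p (c p) q (c q) ≠ 0 := by
      unfold ht
      rw [if_pos h0, if_pos hU]
      split_ifs <;> omega
    have h4 := (ht_lt4 p (c p) q (c q)).2 h0
    refine ⟨h3, by omega, fun h => by omega, fun h => by omega⟩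
  by_cases h5 : 2 ≤ lm S p (c p) q (c q)
  · have h4 := (ht_five p (c p) q (c q)).2 h5
    refine ⟨by omega, by omega, fun h => by omega, fun h => by omega⟩
  obtain ⟨hu, hup, huq⟩ := rko_spec h0
  set u := rko S p (c p) q (c q) with hudef
  have hpn : PN S u c := ⟨⟨p, q, hpq, hup, huq⟩, fun v hv hne h =>
    h5 (two_le_lm hv (hnb v hv h).1 (hnb v hv h).2 hu hup huq hne)⟩
  have hur : u r ≠ c r := fun e => h1 u hu ⟨hup, e⟩
  have hcu : c ≠ u := fun e => hur (by rw [e])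
  rw [ht_simple hu hup huq h5]
  have h4 := sty_ge (S := S) p q u
  refine ⟨by omega, fun h => ?_, fun h => ?_, fun h => ?_⟩
  · have h6 : rk S u = 1 := by
      unfold sty at h
      split_ifs at h <;> omega
    exact hcu (((kind_one h6).2 c).1 hpn)
  · have h6 : rk S u = 2 ∧ sd S u ≠ p ∧ sd S u ≠ q := by
      unfold sty at h
      split_ifs at h <;> omega
    refine ⟨u, hu, hup, huq, h6.1, ?_, ((kind_two h6.1).2 c).1 hpn⟩
    rcases fin3_cases p q r (sd S u) hpq hpr hqr with h7 | h7 | h7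
    · exact absurd h7 h6.2.1
    · exact absurd h7 h6.2.2
    · exact h7
  · have h6 : rk S u ≠ 0 ∧ rk S u ≠ 1 ∧ sd S u = p := by
      unfold sty at h
      split_ifs at h <;> omega
    rcases rk_cases (S := S) u with h7 | h7 | h7 | h7 | h7
    · exact absurd h7.1 h6.1
    · exact absurd h7 h6.2.1
    · exfalso
      obtain ⟨h8, h9⟩ := kind_two h7
      apply h8
      rw [← apx_sd, ← (h9 c).1 hpn, h6.2.2, hup]
    · exfalso
      exact hur ((kind_three h7).1 c hpn r (by rw [h6.2.2]; exact hpr.symm)).symm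
    · obtain ⟨h8, h9, h10⟩ := kind_four h7
      refine ⟨u, hu, hup, huq, h7, h6.2.2, ?_⟩
      have h11 := fin3_cases p (p + 1) (p + 2) q (fin3_a p).symm (fin3_b p).symm (fin3_c p)
      rcases (h10 c).1 hpn with h12 | h12
      · left
        refine ⟨?_, h12⟩
        rcases h11 with h11 | h11 | h11
        · exact absurd h11.symm hpq
        · exfalso
          apply h8
          rw [← cy_sd, ← h12, h6.2.2, ← h11, huq]
        · exact h11
      · right
        refine ⟨?_, h12⟩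
        rcases h11 with h11 | h11 | h11
        · exact absurd h11.symm hpq
        · exact h11
        · exfalso
          apply h9
          rw [← cz_sd, ← h12, h6.2.2, ← h11, huq]

lemma hc_cases {u : Cl n} (hu : u ∈ S) (p q : Fin 3) :
    hc S u p q = 5 ∨ hc S u p q = sty S p q u := by
  unfold hc
  by_cases h : 2 ≤ lm S p (u p) q (u q)
  · exact Or.inl ((ht_five _ _ _ _).2 h)
  · exact Or.inr (ht_simple hu rfl rfl h)

lemma hc_pn {u w : Cl n} (hu : u ∈ S) (h : PN S u w) {p q : Fin 3} (hpq : p ≠ q)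
    (h1 : w p = u p) (h2 : w q = u q) : hc S u p q = sty S p q u := by
  unfold hc
  have h3 := not_two_le_lm h hpq
  rw [h1, h2] at h3
  exact ht_simple hu rfl rfl h3

lemma hc_two {u v : Cl n} (hu : u ∈ S) (hv : v ∈ S) (hne : v ≠ u) {p q : Fin 3}
    (h1 : v p = u p) (h2 : v q = u q) : hc S u p q = 5 :=
  (ht_five _ _ _ _).2 (two_le_lm hv h1 h2 hu rfl rfl hne)

lemma exists_nb {u : Cl n} (h : ¬ PN S u u) : ∃ v ∈ S, v ≠ u ∧ Nb v u := by
  by_contra h1
  exact h ⟨nb_refl u, fun v hv hne h2 => h1 ⟨v, hv, hne, h2⟩⟩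

lemma sty_nine {u : Cl n} (h0 : rk S u ≠ 0) (h1 : rk S u ≠ 1) {p : Fin 3} (hp : p ≠ sd S u) :
    sty S p (sd S u) u = 9 := by
  unfold sty
  rw [if_neg h0, if_neg h1, if_neg hp.symm, if_pos rfl]

/-- the types of the lines through a rook; `f` is the special direction -/
theorem rook_types {u : Cl n} (hu : u ∈ S) :
    (rk S u = 0 ∧ sd S u = 0 ∧ ∀ p q, p ≠ q → hc S u p q = 4 ∨ hc S u p q = 5) ∨
    (rk S u = 1 ∧ sd S u = 0 ∧ ∀ p q, p ≠ q → hc S u p q = 11) ∨
    (rk S u = 2 ∧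
      (hc S u (sd S u + 1) (sd S u) = 5 ∨ hc S u (sd S u + 1) (sd S u) = 9) ∧
      (hc S u (sd S u + 2) (sd S u) = 5 ∨ hc S u (sd S u + 2) (sd S u) = 9) ∧
      (hc S u (sd S u + 1) (sd S u) = 5 ∨ hc S u (sd S u + 2) (sd S u) = 5) ∧
      (hc S u (sd S u + 1) (sd S u + 2) = 7 ∨ hc S u (sd S u + 1) (sd S u + 2) = 8) ∧
      ∀ p, p ≠ sd S u → (hc S (apx S u) p (sd S u) = 2 ∨
        (¬ Own S u p ∧ hc S (apx S u) p (sd S u) = 3))) ∨
    (rk S u = 3 ∧
      (hc S u (sd S u + 1) (sd S u) = 5 ∨ hc S u (sd S u + 1) (sd S u) = 9) ∧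
      (hc S u (sd S u + 2) (sd S u) = 5 ∨ hc S u (sd S u + 2) (sd S u) = 9) ∧
      hc S u (sd S u + 1) (sd S u + 2) = 6) ∨
    (rk S u = 4 ∧ hc S u (sd S u + 1) (sd S u) = 9 ∧ hc S u (sd S u + 2) (sd S u) = 9 ∧
      hc S u (sd S u + 1) (sd S u + 2) = 5) := by
  have ha := fin3_a (sd S u)
  have hb := fin3_b (sd S u)
  have hc' := fin3_c (sd S u)
  have h59 : rk S u ≠ 0 → rk S u ≠ 1 → ∀ p, p ≠ sd S u →
      hc S u p (sd S u) = 5 ∨ hc S u p (sd S u) = 9 := by
    intro h0 h1 p hp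
    rw [← sty_nine h0 h1 hp]
    exact hc_cases hu _ _
  rcases rk_cases (S := S) u with h | h | h | h | h
  · refine Or.inl ⟨h.1, h.2, fun p q _ => ?_⟩
    rcases hc_cases hu p q with h1 | h1
    · exact Or.inr h1
    · left
      rw [h1]
      unfold sty
      rw [if_pos h.1]
  · obtain ⟨h1, h2⟩ := kind_one h
    refine Or.inr (Or.inl ⟨h, h1, fun p q hpq => ?_⟩)
    rw [hc_pn hu ((h2 u).2 rfl) hpq rfl rfl]
    unfold sty
    rw [if_neg (by omega), if_pos h]
  · obtain ⟨h1, h2⟩ := kind_two h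
    have hpn := (h2 _).2 rfl
    refine Or.inr (Or.inr (Or.inl ⟨h, h59 (by omega) (by omega) _ ha,
      h59 (by omega) (by omega) _ hb, ?_, ?_, fun p hp => ?_⟩))
    · obtain ⟨v, hv, hne, hnb⟩ := exists_nb (S := S) (u := u) fun h3 =>
        h1 (by rw [← apx_sd, ← (h2 u).1 h3])
      rcases nb_cases hc' ha hb hnb with h3 | h3 | h3
      · exact absurd (pn_eq hpn hv hc' (by rw [apx_ne u ha, h3.1]) (by rw [apx_ne u hb, h3.2])) hne
      · exact Or.inl (hc_two hu hv hne h3.1 h3.2)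
      · exact Or.inr (hc_two hu hv hne h3.1 h3.2)
    · rw [hc_pn hu hpn hc' (apx_ne u ha) (apx_ne u hb)]
      unfold sty
      rw [if_neg (by omega), if_neg (by omega), if_neg ha.symm, if_neg hb.symm, if_pos h]
      split_ifs <;> omega
    · have h0 : lm S p (apx S u p) (sd S u) (apx S u (sd S u)) = 0 := by
        rw [lm_zero_iff]
        intro v hv h3
        have h4 := pn_eq hpn hv hp h3.1 h3.2
        apply h1
        rw [← apx_sd, ← h3.2, h4]
      have hm : ∃ x, Mk S p (apx S u p) (sd S u) (apx S u (sd S u)) x :=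
        ⟨u, hu, h, rfl, rfl, Or.inr rfl⟩
      unfold hc ht
      rw [if_pos h0, if_pos hm]
      by_cases h3 : sd S (mkr S p (apx S u p) (sd S u) (apx S u (sd S u))) = p
      · right
        rw [if_pos h3]
        refine ⟨fun ho => ?_, rfl⟩
        rw [apx_ne u hp, apx_sd, ho.2.2] at h3
        exact hp h3.symm
      · left
        rw [if_neg h3]
  · obtain ⟨h1, w₁, w₂, _, hw, _⟩ := kind_three h
    refine Or.inr (Or.inr (Or.inr (Or.inl ⟨h, h59 (by omega) (by omega) _ ha,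
      h59 (by omega) (by omega) _ hb, ?_⟩)))
    rw [hc_pn hu hw hc' (h1 _ hw _ ha) (h1 _ hw _ hb)]
    unfold sty
    rw [if_neg (by omega), if_neg (by omega), if_neg ha.symm, if_neg hb.symm, if_neg (by omega)]
  · obtain ⟨h1, h2, h3⟩ := kind_four h
    have hy := (h3 _).2 (Or.inl rfl)
    have hz := (h3 _).2 (Or.inr rfl)
    refine Or.inr (Or.inr (Or.inr (Or.inr ⟨h, ?_, ?_, ?_⟩)))
    · rw [hc_pn hu hz ha (cz_ne u hc') (cz_ne u hb.symm)]
      exact sty_nine (by omega) (by omega) ha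
    · rw [hc_pn hu hy hb (cy_ne u hc'.symm) (cy_ne u ha.symm)]
      exact sty_nine (by omega) (by omega) hb
    · obtain ⟨v, hv, hne, hnb⟩ := exists_nb (S := S) (u := u) fun h4 => by
        rcases (h3 u).1 h4 with h5 | h5
        · exact h1 (by rw [← cy_sd, ← h5])
        · exact h2 (by rw [← cz_sd, ← h5])
      rcases nb_cases hc' ha hb hnb with h4 | h4 | h4
      · exact hc_two hu hv hne h4.1 h4.2
      · exact absurd (pn_eq hz hv ha (by rw [cz_ne u hc', h4.1])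
          (by rw [cz_ne u hb.symm, h4.2])) hne
      · exact absurd (pn_eq hy hv hb (by rw [cy_ne u hc'.symm, h4.1])
          (by rw [cy_ne u ha.symm, h4.2])) hne

end Pool.Agent.P.MP_41d1ec_co
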