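import Pool.Agent.P.MP_41d1ec_co.Defs

set_option autoImplicit false

namespace Pool.Agent.P.MP_41d1ec_co

open Finset Function Classical

variable {n : ℕ} {S : Finset (Cl n)}

private theorem rule_third {p q r : Fin 3} (hpq : p ≠ q) (hpr : p ≠ r) (hqr : q ≠ r) (j : Fin 3) :
    j = p ∨ j = q ∨ j = r := by
  revert p q r j
  decide

private theorem rule_dir {u w : Cl n} (h : Nb u w) : ∃ f, ∀ j, j ≠ f → w j = u j := by
  obtain ⟨p, q, hpq, h1, h2⟩ := h
  have : ∃ f : Fin 3, ∀ j, j ≠ f → j = p ∨ j = q := by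
    clear h1 h2
    revert p q
    decide
  obtain ⟨f, hf⟩ := this
  refine ⟨f, fun j hj => ?_⟩
  rcases hf j hj with rfl | rfl
  · exact h1.symm
  · exact h2.symm

private theorem rule_upd {u w : Cl n} {f : Fin 3} (h : ∀ j, j ≠ f → w j = u j) :
    w = update u f (w f) := by
  funext j
  by_cases hj : j = f
  · subst hj; simp
  · rw [update_of_ne hj, h j hj]

private theorem rule_pn {u w v : Cl n} (h : PN S u w) (hv : v ∈ S) {p q : Fin 3} (hpq : p ≠ q)
    (h1 : v p = w p) (h2 : v q = w q) : v = u := by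
  by_contra hne
  exact h.2 v hv hne ⟨p, q, hpq, h1, h2⟩

private theorem rule_kind_spec {u : Cl n} (h : ∃ r f a b, Kind S u r f a b) :
    Kind S u (rk S u) (sd S u) (ap S u) (bp S u) := by
  obtain ⟨r, f, a, b, h⟩ := h
  have h' : ∃ x : ℕ × Fin 3 × Fin n × Fin n, Kind S u x.1 x.2.1 x.2.2.1 x.2.2.2 :=
    ⟨(r, f, a, b), h⟩
  have e : info S u = h'.choose := by
    unfold info
    rw [dif_pos h']
  unfold rk sd ap bp
  rw [e]
  exact h'.choose_spec

private theorem rule_kind_of_ne {u : Cl n} (h : rk S u ≠ 0) :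
    Kind S u (rk S u) (sd S u) (ap S u) (bp S u) := by
  apply rule_kind_spec
  by_contra hn
  apply h
  have h' : ¬ ∃ x : ℕ × Fin 3 × Fin n × Fin n, Kind S u x.1 x.2.1 x.2.2.1 x.2.2.2 := by
    rintro ⟨x, hx⟩
    exact hn ⟨_, _, _, _, hx⟩
  unfold rk info
  rw [dif_neg h']

private theorem rule_simple {u : Cl n} (hu : u ∈ S) {p q : Fin 3} {x y : Fin n} (h1 : u p = x)
    (h2 : u q = y) (h : ∀ v ∈ S, v p = x → v q = y → v = u) : ht S p x q y = sty S p q u := by
  have e : (S.filter fun v => v p = x ∧ v q = y) = {u} := by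
    ext v
    simp only [mem_filter, mem_singleton]
    exact ⟨fun hv => h v hv.1 hv.2.1 hv.2.2, fun hv => by rw [hv]; exact ⟨hu, h1, h2⟩⟩
  have e1 : lm S p x q y = 1 := by
    unfold lm
    rw [e, card_singleton]
  have e2 : rko S p x q y = u := by
    have := @Classical.epsilon_spec _ (fun v : Cl n => v ∈ S ∧ v p = x ∧ v q = y) ⟨u, hu, h1, h2⟩
    exact h _ this.1 this.2.1 this.2.2
  unfold ht
  rw [e1, if_neg (by omega), if_neg (by omega), e2]

private theorem rule_empty {p q : Fin 3} {x y : Fin n} (h : ∀ v ∈ S, v p = x → v q = y → False) :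
    lm S p x q y = 0 := by
  unfold lm
  rw [card_eq_zero, filter_eq_empty_iff]
  exact fun v hv hh => h v hv hh.1 hh.2

private theorem rule_lt4 {p q : Fin 3} {x y : Fin n} (h : lm S p x q y = 0) :
    ht S p x q y < 4 := by
  unfold ht
  rw [if_pos h]
  split_ifs <;> omega

private theorem rule_corner {u c : Cl n} {i j k : Fin 3} (hij : i ≠ j) (hik : i ≠ k) (hjk : j ≠ k)
    {a b : Fin n} (ha : a ≠ u i) (hb : b ≠ u j) (h1 : Nb c (update u i a))
    (h2 : Nb c (update u j b)) (hc : c ≠ u) : c i = a ∧ c j = b ∧ c k = u k := by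
  obtain ⟨f, hf⟩ := rule_dir h1
  obtain ⟨g, hg⟩ := rule_dir h2
  have f1 : i ≠ f → c i = a := fun h => by simpa using (hf i h).symm
  have f2 : j ≠ f → c j = u j := fun h => by simpa [update_of_ne hij.symm] using (hf j h).symm
  have f3 : k ≠ f → c k = u k := fun h => by simpa [update_of_ne hik.symm] using (hf k h).symm
  have g1 : i ≠ g → c i = u i := fun h => by simpa [update_of_ne hij] using (hg i h).symm
  have g2 : j ≠ g → c j = b := fun h => by simpa using (hg j h).symm
  by_cases hfi : i = f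
  · subst hfi
    by_cases hgj : j = g
    · subst hgj
      exfalso
      apply hc
      funext m
      rcases rule_third hij hik hjk m with rfl | rfl | rfl
      · exact g1 hij
      · exact f2 hij.symm
      · exact f3 hik.symm
    · exact absurd ((g2 hgj).symm.trans (f2 hij.symm)) hb
  · by_cases hgi : i = g
    · subst hgi
      by_cases hfj : j = f
      · subst hfj
        exact ⟨f1 hfi, g2 hij.symm, f3 hjk.symm⟩
      · exact absurd ((g2 hij.symm).symm.trans (f2 hfj)) hb
    · exact absurd ((f1 hfi).symm.trans (g1 hgi)) ha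

private theorem rule_four {u c : Cl n} {i j k : Fin 3} (hij : i ≠ j) (hik : i ≠ k) (hjk : j ≠ k)
    {a b : Fin n} (ha : a ≠ u i) (hb : b ≠ u j) (h1 : PN S u (update u i a))
    (h2 : PN S u (update u j b)) (hc : c ≠ u) (hall : ∀ w, PN S u w → Nb c w) (w : Cl n) :
    PN S u w ↔ w = update u i a ∨ w = update u j b := by
  refine ⟨fun hw => ?_, by rintro (rfl | rfl) <;> assumption⟩
  obtain ⟨c1, c2, -⟩ := rule_corner hij hik hjk ha hb (hall _ h1) (hall _ h2) hc
  obtain ⟨m, hm⟩ := rule_dir hw.1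
  obtain ⟨g, hg⟩ := rule_dir (hall w hw)
  rcases rule_third hij hik hjk m with rfl | rfl | rfl
  · left
    have e1 : j = g := by
      by_contra h
      exact hb (c2.symm.trans ((hg j h).symm.trans (hm j hij.symm)))
    subst e1
    rw [rule_upd hm, hg m hij, c1]
  · right
    have e1 : i = g := by
      by_contra h
      exact ha (c1.symm.trans ((hg i h).symm.trans (hm i hij)))
    subst e1
    rw [rule_upd hm, hg m hij.symm, c2]
  · exfalso
    by_cases e1 : i = g
    · subst e1
      exact hb (c2.symm.trans ((hg j hij.symm).symm.trans (hm j hjk)))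
    · exact ha (c1.symm.trans ((hg i e1).symm.trans (hm i hik)))

private theorem rule_has_kind {u c : Cl n} (hc : c ≠ u) (h1 : ∃ w, PN S u w)
    (hall : ∀ w, PN S u w → Nb c w) : ∃ r f a b, Kind S u r f a b := by
  obtain ⟨w₁, hw₁⟩ := h1
  by_cases hA : ∀ w, PN S u w → w = w₁
  · by_cases e : w₁ = u
    · subst e
      exact ⟨1, 0, w₁ 0, w₁ 0, Or.inl ⟨rfl, rfl, fun w => ⟨hA w, fun h => h ▸ hw₁⟩⟩⟩
    · obtain ⟨f, hf⟩ := rule_dir hw₁.1
      refine ⟨2, f, w₁ f, w₁ f, Or.inr (Or.inl ⟨rfl, fun h => e ?_, fun w => ?_⟩)⟩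
      · rw [rule_upd hf, h, update_eq_self]
      · rw [← rule_upd hf]
        exact ⟨hA w, fun h => h ▸ hw₁⟩
  · push Not at hA
    obtain ⟨w₂, hw₂, hne⟩ := hA
    by_cases hB : ∃ f, ∀ w, PN S u w → ∀ j, j ≠ f → w j = u j
    · obtain ⟨f, hf⟩ := hB
      exact ⟨3, f, u 0, u 0, Or.inr (Or.inr (Or.inl ⟨rfl, hf, w₂, w₁, hne, hw₂, hw₁⟩))⟩
    · push Not at hB
      obtain ⟨w, hw, i, -, hi⟩ := hB 0
      obtain ⟨w', hw', j, hji, hj⟩ := hB i
      obtain ⟨f, hf⟩ := rule_dir hw.1
      obtain ⟨g, hg⟩ := rule_dir hw'.1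
      have e1 : i = f := by
        by_contra h
        exact hi (hf i h)
      have e2 : j = g := by
        by_contra h
        exact hj (hg j h)
      subst e1 e2
      rw [rule_upd hf] at hw
      rw [rule_upd hg] at hw'
      have : ∃ k : Fin 3, i ≠ k ∧ j ≠ k ∧ ((i = k + 1 ∧ j = k + 2) ∨ (j = k + 1 ∧ i = k + 2)) := by
        clear hi hj hf hg hw hw'
        revert i j
        decide
      obtain ⟨k, hik, hjk, h | h⟩ := this
      · refine ⟨4, k, w i, w' j, Or.inr (Or.inr (Or.inr ⟨rfl, ?_, ?_, ?_⟩))⟩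
        · rw [← h.1]; exact hi
        · rw [← h.2]; exact hj
        · rw [← h.1, ← h.2]
          exact rule_four hji.symm hik hjk hi hj hw hw' hc hall
      · refine ⟨4, k, w' j, w i, Or.inr (Or.inr (Or.inr ⟨rfl, ?_, ?_, ?_⟩))⟩
        · rw [← h.1]; exact hj
        · rw [← h.2]; exact hi
        · rw [← h.1, ← h.2]
          exact rule_four hji hjk hik hj hi hw' hw hc hall

/-- a cell with a line of type 1 has a dominating line or is a corner -/
theorem rule1 (hS : MI S) (c : Cl n) :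
    R1 (hc S c) ∨ ∃ u ∈ S, rk S u = 4 ∧ c = cyz S u ∧
      hc S c (sd S u) (sd S u + 1) < 4 ∧ hc S c (sd S u) (sd S u + 2) < 4 := by
  by_cases h0 : ∃ p q, p ≠ q ∧ hc S c p q = 1
  swap
  · exact Or.inl fun h => absurd h h0
  obtain ⟨p, q, hpq, h1⟩ := h0
  have hl : lm S p (c p) q (c q) = 0 ∧ ∃ w : Cl n, w p = c p ∧ w q = c q ∧ Und S w := by
    unfold hc ht sty at h1
    split_ifs at h1 with a1 a2 a3 a4 <;> first | omega | exact ⟨a1, a4⟩
  obtain ⟨hl, w, w1, w2, w3⟩ := hl
  have hcS : c ∉ S := by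
    intro h
    unfold lm at hl
    rw [card_eq_zero, filter_eq_empty_iff] at hl
    exact hl h ⟨rfl, rfl⟩
  obtain ⟨u, hu, hall⟩ := hS.mx c hcS ⟨w, ⟨p, q, hpq, w1.symm, w2.symm⟩, w3⟩
  have hcu : c ≠ u := fun h => hcS (h ▸ hu)
  have n1 : ∀ f : Fin 3, f ≠ f + 1 ∧ f ≠ f + 2 ∧ f + 1 ≠ f + 2 := by decide
  rcases rule_kind_spec (rule_has_kind hcu (hS.irr u hu) hall) with
    ⟨k1, -, k2⟩ | ⟨k1, k2, k3⟩ | ⟨k1, k2, w₁, w₂, k3, k4, k5⟩ | ⟨k1, k2, k3, k4⟩
  · have hp := (k2 u).2 rfl
    obtain ⟨i, j, hij, e1, e2⟩ := hall u hp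
    refine Or.inl fun _ => ⟨i, j, hij, ?_⟩
    have : hc S c i j = 11 := by
      unfold hc
      rw [rule_simple hu e1.symm e2.symm
        (fun v hv a b => rule_pn hp hv hij (a.trans e1) (b.trans e2))]
      unfold sty
      rw [if_neg (by omega), if_pos k1]
    rw [this]
    simp [IsD]
  · have hp := (k3 _).2 rfl
    obtain ⟨i, j, hij, e1, e2⟩ := hall _ hp
    have hv : ∀ v ∈ S, v i = c i → v j = c j → v = u :=
      fun v hv a b => rule_pn hp hv hij (a.trans e1) (b.trans e2)
    refine Or.inl fun _ => ⟨i, j, hij, ?_⟩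
    by_cases hf : sd S u = i ∨ sd S u = j
    · have hl' : lm S i (c i) j (c j) = 0 := by
        refine rule_empty fun v hv' a b => ?_
        have := hv v hv' a b
        subst this
        rcases hf with hf | hf
        · rw [← hf, update_self] at e1
          rw [← hf] at a
          exact k2 (e1.symm.trans a.symm)
        · rw [← hf, update_self] at e2
          rw [← hf] at b
          exact k2 (e2.symm.trans b.symm)
      have hm : ∃ v, Mk S i (c i) j (c j) v := ⟨u, hu, k1, e1.symm, e2.symm, hf⟩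
      unfold hc ht
      rw [if_pos hl', if_pos hm]
      split_ifs <;> simp [IsD]
    · push Not at hf
      rw [update_of_ne hf.1.symm] at e1
      rw [update_of_ne hf.2.symm] at e2
      unfold hc
      rw [rule_simple hu e1.symm e2.symm hv]
      unfold sty
      rw [if_neg (by omega), if_neg (by omega), if_neg hf.1, if_neg hf.2, if_pos k1]
      split_ifs <;> simp [IsD]
  · obtain ⟨m1, m2, m3⟩ := n1 (sd S u)
    have hne : w₁ (sd S u) ≠ w₂ (sd S u) := by
      intro h
      apply k3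
      rw [rule_upd (k2 w₁ k4), rule_upd (k2 w₂ k5), h]
    have hcl : ∀ j, j ≠ sd S u → c j = u j := by
      obtain ⟨f, hf⟩ := rule_dir (hall _ k4)
      obtain ⟨g, hg⟩ := rule_dir (hall _ k5)
      intro j hj
      by_cases a : sd S u = f
      · exact (hf j (a ▸ hj)).symm.trans (k2 w₁ k4 j hj)
      · by_cases b : sd S u = g
        · exact (hg j (b ▸ hj)).symm.trans (k2 w₂ k5 j hj)
        · exact absurd ((hf _ a).trans (hg _ b).symm) hne
    refine Or.inl fun _ => ⟨sd S u + 1, sd S u + 2, m3, ?_⟩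
    have e1 := hcl _ m1.symm
    have e2 := hcl _ m2.symm
    unfold hc
    rw [rule_simple hu e1.symm e2.symm (fun v hv a b => rule_pn k4 hv m3
      (a.trans (e1.trans (k2 w₁ k4 _ m1.symm).symm))
      (b.trans (e2.trans (k2 w₁ k4 _ m2.symm).symm)))]
    unfold sty
    rw [if_neg (by omega), if_neg (by omega), if_neg m1, if_neg m2, if_neg (by omega)]
    simp [IsD]
  · obtain ⟨m1, m2, m3⟩ := n1 (sd S u)
    have p1 := (k4 _).2 (Or.inl rfl)
    have p2 := (k4 _).2 (Or.inr rfl)
    obtain ⟨c1, c2, c3⟩ := rule_corner m3 m1.symm m2.symm k2 k3 (hall _ p1) (hall _ p2) hcu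
    refine Or.inr ⟨u, hu, k1, ?_, rule_lt4 (rule_empty fun v hv a b => ?_),
      rule_lt4 (rule_empty fun v hv a b => ?_)⟩
    · funext m
      unfold cyz cy
      rcases rule_third m1 m2 m3 m with rfl | rfl | rfl
      · rw [update_of_ne m2, update_of_ne m1, c3]
      · rw [update_of_ne m3, update_self, c1]
      · rw [update_self, c2]
    · have := rule_pn p1 hv m1 (by rw [update_of_ne m1, a, c3]) (by rw [update_self, b, c1])
      subst this
      exact k2 (c1.symm.trans b.symm)
    · have := rule_pn p2 hv m2 (by rw [update_of_ne m2, a, c3]) (by rw [update_self, b, c2])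
      subst this
      exact k3 (c2.symm.trans b.symm)

/-- the high end of a line with one private cell -/
theorem high_end {p q r : Fin 3} (hpq : p ≠ q) (hpr : p ≠ r) (hqr : q ≠ r) (v w : Fin n)
    (h : ht S p v q w = 8) : Hi S p v r := by
  have h1 : lm S p v q w = 1 ∧ sty S p q (rko S p v q w) = 8 := by
    unfold ht at h
    split_ifs at h <;> first | omega | exact ⟨by omega, h⟩
  obtain ⟨h1, h2⟩ := h1
  unfold lm at h1
  obtain ⟨u, hu⟩ := card_eq_one.mp h1
  have h3 : ∀ x, x ∈ S ∧ x p = v ∧ x q = w ↔ x = u := by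
    intro x
    rw [← mem_singleton (a := u), ← hu, mem_filter]
  have h4 := (h3 u).2 rfl
  have e2 : rko S p v q w = u :=
    (h3 _).1 (@Classical.epsilon_spec _ (fun x : Cl n => x ∈ S ∧ x p = v ∧ x q = w) ⟨u, h4⟩)
  rw [e2] at h2
  have h5 : sd S u ≠ p ∧ sd S u ≠ q ∧ rk S u = 2 ∧
      (if p < q then Hi S p (u p) (sd S u) else ¬ Hi S q (u q) (sd S u)) := by
    unfold sty at h2
    by_cases a1 : rk S u = 0
    · rw [if_pos a1] at h2; omega
    by_cases a2 : rk S u = 1
    · rw [if_neg a1, if_pos a2] at h2; omega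
    by_cases a3 : sd S u = p
    · rw [if_neg a1, if_neg a2, if_pos a3] at h2; omega
    by_cases a4 : sd S u = q
    · rw [if_neg a1, if_neg a2, if_neg a3, if_pos a4] at h2; omega
    by_cases a5 : rk S u = 2
    swap
    · rw [if_neg a1, if_neg a2, if_neg a3, if_neg a4, if_neg a5] at h2; omega
    rw [if_neg a1, if_neg a2, if_neg a3, if_neg a4, if_pos a5] at h2
    refine ⟨a3, a4, a5, ?_⟩
    by_contra a6
    rw [if_neg a6] at h2
    omega
  obtain ⟨s1, s2, k1, h6⟩ := h5
  have hr : sd S u = r := by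
    rcases rule_third hpq hpr hqr (sd S u) with a | a | a
    · exact absurd a s1
    · exact absurd a s2
    · exact a
  rw [hr, h4.2.1, h4.2.2] at h6
  split_ifs at h6 with hlt
  · exact h6
  have hk := rule_kind_of_ne (S := S) (u := u) (by omega)
  rw [k1, hr] at hk
  have hk' : ∀ x, PN S u x ↔ x = update u r (ap S u) := by
    rcases hk with ⟨a, -⟩ | ⟨-, -, a⟩ | ⟨a, -⟩ | ⟨a, -⟩
    · omega
    · exact a
    · omega
    · omega
  have hsub : (univ : Finset (Fin n)).erase (ap S u) ⊆
      (univ.filter fun x : Fin n => ∃ y ∈ S, y p = v ∧ y r = x) ∪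
        (univ.filter fun x : Fin n => ∃ y ∈ S, y q = w ∧ y r = x) := by
    intro x hx
    have hx' : x ≠ ap S u := (mem_erase.mp hx).1
    have hn : ¬ PN S u (update u r x) := by
      rw [hk']
      intro e
      apply hx'
      simpa using congrFun e r
    have hnb : Nb u (update u r x) :=
      ⟨p, q, hpq, (update_of_ne hpr _ _).symm, (update_of_ne hqr _ _).symm⟩
    have : ∃ y ∈ S, y ≠ u ∧ Nb y (update u r x) := by
      by_contra a
      push Not at a
      exact hn ⟨hnb, a⟩
    obtain ⟨y, hy, hyu, hy'⟩ := this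
    obtain ⟨f, hf⟩ := rule_dir hy'
    have f1 : p ≠ f → y p = v := fun a => by
      rw [← hf p a, update_of_ne hpr, h4.2.1]
    have f2 : q ≠ f → y q = w := fun a => by
      rw [← hf q a, update_of_ne hqr, h4.2.2]
    have f3 : r ≠ f → y r = x := fun a => by
      rw [← hf r a, update_self]
    simp only [mem_union, mem_filter, mem_univ, true_and]
    rcases rule_third hpq hpr hqr f with rfl | rfl | rfl
    · exact Or.inr ⟨y, hy, f2 hpq.symm, f3 hpr.symm⟩
    · exact Or.inl ⟨y, hy, f1 hpq, f3 hqr.symm⟩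
    · exact absurd ((h3 y).1 ⟨hy, f1 hpr, f2 hqr⟩) hyu
  have hcard := (card_le_card hsub).trans (card_union_le _ _)
  rw [card_erase_of_mem (mem_univ _), card_univ, Fintype.card_fin] at hcard
  unfold Hi hd at h6 ⊢
  omega

end Pool.Agent.P.MP_41d1ec_co
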