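import Pool.Agent.P.MP_41d1ec_co.Basic
import Pool.Agent.P.MP_41d1ec_co.Rule
import Pool.Agent.P.MP_41d1ec_co.Base

/-! Vertex classes and soundness of the cell test. -/

set_option autoImplicit false
set_option synthInstance.maxSize 2000

namespace Pool.Agent.P.MP_41d1ec_co

open Finset Function

variable {n : ℕ} {S : Finset (Cl n)} {md : ℕ} {κ : Fin 3 → Fin n → ℕ}

def sa (p : Fin 3) : Fin 3 := if p = 0 then 1 else 0
def sb (p : Fin 3) : Fin 3 := if p = 2 then 1 else 2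

/-- admissible assignment of classes to the vertices -/
structure Cls (md : ℕ) (S : Finset (Cl n)) (κ : Fin 3 → Fin n → ℕ) : Prop where
  lt : ∀ p v, κ p v < 4
  dir : ∀ (p : Fin 3) v, kdir md p (κ p v) = true
  gz : ∀ p q v w, p ≠ q → κ p v = 1 → κ q w = 3 → ht S p v q w < 4
  gg : ∀ p q r v w, p ≠ q → p ≠ r → q ≠ r → κ p v = 1 → κ q w = 1 → ∃ z, κ r z = 3

theorem oth_eq : ∀ t < 12, oth t = ot t := by decide +kernel

theorem ot_lt4 (t : ℕ) : ot t < 4 ↔ t < 4 := by unfold ot; split_ifs <;> omega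

theorem hc_lt (c : Cl n) (p q : Fin 3) : hc S c p q < 12 := ht_lt _ _ _ _

theorem hc_ot (c : Cl n) {p q : Fin 3} (h : p ≠ q) : hc S c q p = ot (hc S c p q) := ht_ot h _ _

theorem hc_oth (c : Cl n) {p q : Fin 3} (h : p ≠ q) : oth (hc S c p q) = hc S c q p := by
  rw [oth_eq _ (hc_lt c p q), hc_ot c h]

theorem okL_tab : ∀ t < 12, ∀ k1 < 4, ∀ k2 < 4, (k1 = 1 → k2 = 3 → t < 4) →
    (k1 = 3 → k2 = 1 → t < 4) → (k1 = 1 → k2 = 1 → t ≠ 0 ∧ t ≠ 11) → okL t k1 k2 = true := by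
  decide +kernel

theorem third : ∀ p q : Fin 3, p ≠ q → ∃ r, p ≠ r ∧ q ≠ r := by decide

/-- the cell below a line between two vertices of class one -/
theorem gg_cell (hK : Cls md S κ) {p q r : Fin 3} (hpq : p ≠ q) (hpr : p ≠ r) (hqr : q ≠ r)
    {v w : Fin n} (h1 : κ p v = 1) (h2 : κ q w = 1) :
    ∃ c : Cl n, c p = v ∧ c q = w ∧ κ r (c r) = 3 ∧ hc S c p r < 4 ∧ hc S c q r < 4 := by
  obtain ⟨z, hz⟩ := hK.gg p q r v w hpq hpr hqr h1 h2
  have e1 : update (update (fun _ => z : Cl n) p v) q w p = v := by simp [hpq]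
  have e2 : update (update (fun _ => z : Cl n) p v) q w q = w := by simp
  have e3 : update (update (fun _ => z : Cl n) p v) q w r = z := by simp [hpr.symm, hqr.symm]
  refine ⟨update (update (fun _ => z) p v) q w, e1, e2, by rw [e3, hz], ?_, ?_⟩
  · unfold hc; rw [e1, e3]; exact hK.gz _ _ _ _ hpr h1 hz
  · unfold hc; rw [e2, e3]; exact hK.gz _ _ _ _ hqr h2 hz

theorem okL_ht (hK : Cls md S κ) {p q : Fin 3} (hpq : p ≠ q) (v w : Fin n) :
    okL (ht S p v q w) (κ p v) (κ q w) = true := by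
  refine okL_tab _ (ht_lt _ _ _ _) _ (hK.lt _ _) _ (hK.lt _ _) (hK.gz _ _ _ _ hpq) ?_ ?_
  · intro h1 h2
    rw [← ot_lt4, ← ht_ot hpq]
    exact hK.gz _ _ _ _ hpq.symm h2 h1
  · intro h1 h2
    obtain ⟨r, hpr, hqr⟩ := third p q hpq
    obtain ⟨c, rfl, rfl, -, a1, a2⟩ := gg_cell hK hpq hpr hqr h1 h2
    have := closed_line c hpq hpr hqr a1 a2
    exact ⟨this.1, this.2.1⟩

theorem okL_hc (hK : Cls md S κ) {p q : Fin 3} (hpq : p ≠ q) (c : Cl n) :
    okL (hc S c p q) (κ p (c p)) (κ q (c q)) = true := okL_ht hK hpq _ _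

/-- weight digit of a cell at its vertex in direction `p` -/
noncomputable def wv (S : Finset (Cl n)) (κ : Fin 3 → Fin n → ℕ) (W : ℕ) (c : Cl n) (p : Fin 3) : ℕ :=
  wd W (κ p (c p)) (hl (κ (sa p) (c (sa p))) (hc S c p (sa p)))
    (hl (κ (sb p) (c (sb p))) (hc S c p (sb p)))

noncomputable def cwN (S : Finset (Cl n)) (κ : Fin 3 → Fin n → ℕ) (W : ℕ) (c : Cl n) : ℕ :=
  wv S κ W c 0 + wv S κ W c 1 + wv S κ W c 2

def r1p (a b e : ℕ) : Prop := (a = 1 ∨ b = 1 ∨ e = 1) → (IsD a ∨ IsD b ∨ IsD e)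

instance (t : ℕ) : Decidable (IsD t) := by unfold IsD; infer_instance
instance (a b e : ℕ) : Decidable (r1p a b e) := by unfold r1p; infer_instance

theorem code_reg : ∀ a < 12, ∀ b < 12, ∀ e < 12, r1p a b e →
    (b < 4 → e < 4 → a ≠ 0 ∧ a < 7) → (a < 4 → e < 4 → b ≠ 0 ∧ b < 7) →
    (a < 4 → b < 4 → e ≠ 0 ∧ e < 7) → code a b e = 1 := by
  decide +kernel

theorem code_q : ∀ a < 4, ∀ b < 4,
    (r1p 9 a b → code 9 a b = 6) ∧ (r1p 10 a b → code 10 a b = 7) ∧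
    (r1p a 9 b → code a 9 b = 8) ∧ (r1p a 10 b → code a 10 b = 9) ∧
    (r1p a b 9 → code a b 9 = 10) ∧ (r1p a b 10 → code a b 10 = 11) := by
  decide +kernel

def nz3 (a b e : ℕ) : Prop := a < 4 → b < 4 → e < 4 → a ≠ 0 ∧ b ≠ 0 ∧ e ≠ 0
def cor (a b cd x : ℕ) : Prop := a < 4 → b < 4 → cd = 2 ∨ cd = x

instance (a b e : ℕ) : Decidable (nz3 a b e) := by unfold nz3; infer_instance
instance (a b e x : ℕ) : Decidable (cor a b e x) := by unfold cor; infer_instance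

theorem code_cor : ∀ a < 12, ∀ b < 12, ∀ e < 12, ¬ r1p a b e → nz3 a b e →
    cor a b (code a b e) 3 ∧ cor a e (code a b e) 4 ∧ cor b e (code a b e) 5 := by
  decide +kernel

theorem isD_ot (t : ℕ) : IsD (ot t) → IsD t := by unfold IsD ot; split_ifs <;> omega

theorem r1_of (c : Cl n) (h : R1 (hc S c)) : r1p (hc S c 1 0) (hc S c 2 0) (hc S c 1 2) := by
  intro h1
  have h2 : ∃ p q, p ≠ q ∧ hc S c p q = 1 := by
    rcases h1 with h1 | h1 | h1
    · exact ⟨1, 0, by decide, h1⟩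
    · exact ⟨2, 0, by decide, h1⟩
    · exact ⟨1, 2, by decide, h1⟩
  obtain ⟨p, q, hpq, h3⟩ := h h2
  have h4 : IsD (hc S c q p) := isD_ot _ (by rw [← hc_ot c hpq.symm]; exact h3)
  fin_cases p <;> fin_cases q
  all_goals first
    | exact absurd rfl hpq
    | exact Or.inl h3
    | exact Or.inl h4
    | exact Or.inr (Or.inl h3)
    | exact Or.inr (Or.inl h4)
    | exact Or.inr (Or.inr h3)
    | exact Or.inr (Or.inr h4)

theorem allK_iff (md : ℕ) (f : ℕ → ℕ → ℕ → Bool) (h : allK md f = true) {k0 k1 k2 : ℕ}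
    (h0 : k0 < 4) (h1 : k1 < 4) (h2 : k2 < 4) (d0 : kdir md 0 k0 = true)
    (d1 : kdir md 1 k1 = true) (d2 : kdir md 2 k2 = true) : f k0 k1 k2 = true := by
  unfold allK at h
  simp only [allN_iff, imp_iff] at h
  exact h k0 h0 d0 k1 h1 d1 k2 h2 d2

theorem cell_chk (hK : Cls md S κ) {W X : ℕ} (h : chkCells md W X = true) (c : Cl n) {cd : ℕ}
    (hcd : code (hc S c 1 0) (hc S c 2 0) (hc S c 1 2) = cd) (h0 : cd ≠ 0) :
    cbd X (κ 0 (c 0)) (κ 1 (c 1)) (κ 2 (c 2)) (cwN S κ W c) cd = true := by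
  have h1 := allK_iff _ _ h (hK.lt 0 (c 0)) (hK.lt 1 (c 1)) (hK.lt 2 (c 2)) (hK.dir 0 _)
    (hK.dir 1 _) (hK.dir 2 _)
  simp only [allN_iff, imp_iff] at h1
  have h2 := h1 _ (hc_lt c 1 0) (okL_hc hK (by decide) c) _ (hc_lt c 2 0)
    (okL_hc hK (by decide) c) _ (hc_lt c 1 2) (okL_hc hK (by decide) c)
  unfold cellOK at h2
  rw [frc_eq, hcd, sel_eq, if_neg (by rw [beq_iff]; exact h0), frc_eq, hc_oth c (by decide),
    hc_oth c (by decide), hc_oth c (by decide)] at h2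
  exact h2

theorem cell_bound (hS : MI S) (hK : Cls md S κ) {W X : ℕ} (h : chkCells md W X = true)
    (c : Cl n) (hc2 : ∀ u ∈ S, rk S u = 2 → c ≠ apx S u) :
    cwN S κ W c ≤ 25165824 ∨ ∃ u ∈ S, rk S u = 4 ∧
      ((c = cy S u ∧ cwN S κ W c
          ≤ 25165824 + k1d X (κ (sd S u) (u (sd S u))) (κ (sd S u + 2) (u (sd S u + 2)))) ∨
       (c = cz S u ∧ cwN S κ W c
          ≤ 25165824 + k1d X (κ (sd S u) (u (sd S u))) (κ (sd S u + 1) (u (sd S u + 1)))) ∨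
       (c = cyz S u ∧ cwN S κ W c ≤ 25165824 + kcd X (κ (sd S u) (u (sd S u))))) := by
  have A := fun cd => @cell_chk n S md κ hK W X h c cd
  have la := hc_lt (S := S) c 1 0
  have lb := hc_lt (S := S) c 2 0
  have le := hc_lt (S := S) c 1 2
  have oa := hc_ot (S := S) c (p := 1) (q := 0) (by decide)
  have ob := hc_ot (S := S) c (p := 2) (q := 0) (by decide)
  have oe := hc_ot (S := S) c (p := 1) (q := 2) (by decide)
  have ga : hc S c 0 1 < 4 ↔ hc S c 1 0 < 4 := by rw [oa, ot_lt4]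
  have gb : hc S c 0 2 < 4 ↔ hc S c 2 0 < 4 := by rw [ob, ot_lt4]
  have ge : hc S c 2 1 < 4 ↔ hc S c 1 2 < 4 := by rw [oe, ot_lt4]
  by_cases hr : r1p (hc S c 1 0) (hc S c 2 0) (hc S c 1 2)
  · have Q : ∀ p q r : Fin 3, p ≠ q → p ≠ r → q ≠ r → hc S c p r < 4 → hc S c q r < 4 →
        hc S c p q = 10 → cwN S κ W c ≤ 25165824 + k1d X (κ p (c p)) (κ q (c q)) := by
      intro p q r hpq hpr hqr h1 h2 h3
      have h4 : hc S c q p = 9 := by rw [hc_ot c hpq, h3]; rfl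
      rw [← Nat.add_eq, ← ble_iff]
      fin_cases p <;> fin_cases q <;> fin_cases r
      all_goals first
        | exact absurd rfl hpq
        | exact absurd rfl hpr
        | exact absurd rfl hqr
        | skip
      · exact A 6 (h4 ▸ (code_q _ (gb.1 h1) _ h2).1 (h4 ▸ hr)) (by decide)
      · exact A 8 (h4 ▸ (code_q _ (ga.1 h1) _ (ge.1 h2)).2.2.1 (h4 ▸ hr)) (by decide)
      · exact A 7 (h3 ▸ (code_q _ (gb.1 h2) _ h1).2.1 (h3 ▸ hr)) (by decide)
      · exact A 11 (h3 ▸ (code_q _ h1 _ h2).2.2.2.2.2 (h3 ▸ hr)) (by decide)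
      · exact A 9 (h3 ▸ (code_q _ (ga.1 h2) _ (ge.1 h1)).2.2.2.1 (h3 ▸ hr)) (by decide)
      · exact A 10 (h4 ▸ (code_q _ h2 _ h1).2.2.2.2.1 (h4 ▸ hr)) (by decide)
    by_cases hq : ∃ p q r : Fin 3, p ≠ q ∧ p ≠ r ∧ q ≠ r ∧ hc S c p r < 4 ∧ hc S c q r < 4 ∧
        hc S c p q = 10
    · obtain ⟨p, q, r, hpq, hpr, hqr, h1, h2, h3⟩ := hq
      have h4 := Q p q r hpq hpr hqr h1 h2 h3
      obtain ⟨u, hu, e1, e2, h5, rfl, h6⟩ := (closed_line c hpq hpr hqr h1 h2).2.2.2 h3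
      rw [← e1, ← e2] at h4
      rcases h6 with ⟨rfl, h6⟩ | ⟨rfl, h6⟩
      · exact Or.inr ⟨u, hu, h5, Or.inl ⟨h6, h4⟩⟩
      · exact Or.inr ⟨u, hu, h5, Or.inr (Or.inl ⟨h6, h4⟩)⟩
    · have B : ∀ p q r : Fin 3, p ≠ q → p ≠ r → q ≠ r → hc S c p r < 4 → hc S c q r < 4 →
          hc S c p q ≠ 0 ∧ hc S c p q < 7 := by
        intro p q r hpq hpr hqr h1 h2
        obtain ⟨b1, b2, b3, -⟩ := closed_line c hpq hpr hqr h1 h2
        have b4 : ¬ (hc S c p q = 7 ∨ hc S c p q = 8) := fun e => by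
          obtain ⟨u, hu, -, -, e1, -, e2⟩ := b3 e
          exact hc2 u hu e1 e2
        have b5 : hc S c p q ≠ 10 := fun e => hq ⟨p, q, r, hpq, hpr, hqr, h1, h2, e⟩
        have b6 : hc S c p q ≠ 9 := fun e =>
          hq ⟨q, p, r, hpq.symm, hqr, hpr, h2, h1, by rw [hc_ot c hpq, e]; rfl⟩
        have := hc_lt (S := S) c p q
        clear b3
        omega
      left
      rw [← ble_iff]
      refine A 1 (code_reg _ la _ lb _ le hr ?_ ?_ ?_) (by decide)
      · exact fun x y => B 1 0 2 (by decide) (by decide) (by decide) y (gb.2 x)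
      · exact fun x y => B 2 0 1 (by decide) (by decide) (by decide) (ge.2 y) (ga.2 x)
      · exact fun x y => B 1 2 0 (by decide) (by decide) (by decide) x y
  · rcases rule1 hS c with h1 | ⟨u, hu, h4, h5, h6, h7⟩
    · exact absurd (r1_of c h1) hr
    refine Or.inr ⟨u, hu, h4, Or.inr (Or.inr ⟨h5, ?_⟩)⟩
    have e : u (sd S u) = c (sd S u) := by
      rw [h5, cyz, update_of_ne (fin3_b _).symm, cy_ne u (fin3_a _).symm]
    rw [e]
    have T := code_cor _ la _ lb _ le hr fun x y z =>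
      ⟨(closed_line c (p := 1) (q := 0) (r := 2) (by decide) (by decide) (by decide) z
        (gb.2 y)).1,
       (closed_line c (p := 2) (q := 0) (r := 1) (by decide) (by decide) (by decide) (ge.2 z)
        (ga.2 x)).1,
       (closed_line c (p := 1) (q := 2) (r := 0) (by decide) (by decide) (by decide) x y).1⟩
    have A2 := fun x => (both_iff _ _).1 (A 2 x (by decide))
    rw [← Nat.add_eq, ← ble_iff]
    generalize sd S u = f at h6 h7 ⊢
    fin_cases f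
    · rcases T.1 (ga.1 h6) (gb.1 h7) with x | x
      · exact (A2 x).1
      · exact A 3 x (by decide)
    · rcases T.2.1 h7 h6 with x | x
      · exact ((both_iff _ _).1 (A2 x).2).1
      · exact A 4 x (by decide)
    · rcases T.2.2 h6 (ge.1 h7) with x | x
      · exact ((both_iff _ _).1 (A2 x).2).2
      · exact A 5 x (by decide)

end Pool.Agent.P.MP_41d1ec_co
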