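import Pool.Agent.P.MP_41d1ec_co.Form

/-! The lower bound from a checked certificate. -/

set_option autoImplicit false

namespace Pool.Agent.P.MP_41d1ec_co

open Finset Function Classical

variable {n : ℕ} {S : Finset (Cl n)} {C : Ct}

theorem side_of {k : ℕ} {p : Fin 3} {v : Fin n} (h : ∃ q, q ≠ p ∧ k ≤ hd S p v q) :
    k ≤ hd S p v (sa p) ∨ k ≤ hd S p v (sb p) := by
  obtain ⟨q, hq, h⟩ := h
  obtain ⟨s1, s2, s3⟩ := sab p
  rcases fin3_cases p (sa p) (sb p) q s1 s2 s3 with rfl | rfl | rfl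
  exacts [absurd rfl hq, Or.inl h, Or.inr h]

theorem certA (h : chkA C = true) (hS : MI S) (hR : Rng C n) (hn : 0 < n) {k : ℕ}
    (hk : ∀ p v, ∃ q, q ≠ p ∧ k ≤ hd S p v q) (ha : C.a1 * n ≤ C.den * k) :
    n ^ 2 ≤ 2 * S.card := by
  unfold chkA at h
  simp only [both_iff, beq_iff, ble_iff] at h
  obtain ⟨m, h1, h2, h3, h4⟩ := h
  have hK : Cls C.md S fun _ _ => 0 :=
    ⟨fun _ _ => by norm_num, fun p _ => by rw [m]; revert p; decide, fun _ _ _ _ _ e => by omega,
      fun _ _ _ _ _ _ _ _ e => by omega⟩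
  have c0 : ∀ q, cn (n := n) (fun _ _ => 0) q = 0 := fun q =>
    sum_eq_zero fun _ _ => show cb 0 = 0 from rfl
  have E : Env C S (fun _ _ => 0) 0 :=
    ⟨hK, by omega, hR, fun u hu => (rook_sound hK hR h2 hu).1, fun e => absurd m e,
      fun p => c0 _, fun p v => by rw [c0]; rfl⟩
  have K : ∀ x : ℕ, k ≤ x → Kf C n (0 : ℕ) 1 x := fun x hx => ⟨fun _ => by
    rw [if_pos m]
    exact_mod_cast ha.trans (Nat.mul_le_mul_left _ hx), fun e => by omega⟩
  have T := total (k := 0) hS hK hR hn (m ▸ h1) h2 fun p v =>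
    vi_two E h3 ((side_of (hk p v)).imp (K _) (K _))
  have b : beta C 0 n (0 : ℕ) = 2 * (sI (qd C.X 0 0) * n) := by
    unfold beta
    rw [if_pos (by rfl)]
    push_cast
    ring
  simp only [sum_const, card_univ, Fintype.card_fin, nsmul_eq_mul, b] at T
  have q : 65536 ≤ sI (qd C.X 0 0) := by unfold sI; omega
  zify
  push_cast at T
  nlinarith [mul_le_mul_of_nonneg_right q (sq_nonneg (n : ℤ))]

theorem bern {a b x faa fab fbb fxx : ℝ} (h1 : a ≤ x) (h2 : x ≤ b)
    (e : (b - a) ^ 2 * fxx = (b - x) ^ 2 * faa + 2 * (b - x) * (x - a) * fab + (x - a) ^ 2 * fbb)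
    (e0 : x = a → fxx = faa) (p1 : 0 < faa) (p2 : 0 < fab) (p3 : 0 < fbb) : 0 < fxx := by
  rcases h1.eq_or_lt with h | h
  · rw [e0 h.symm]; exact p1
  · have a1 : 0 < (x - a) ^ 2 * fbb := by have := sub_pos.2 h; positivity
    have a2 : 0 ≤ (b - x) ^ 2 * faa := by positivity
    have a3 : 0 ≤ 2 * (b - x) * (x - a) * fab := by
      have := sub_pos.2 h; have := sub_nonneg.2 h2; positivity
    exact pos_of_mul_pos_right (a := (b - a) ^ 2) (by linarith) (sq_nonneg _)

noncomputable def blr (q : ℕ → ℕ → ℝ) (d kA kB tA tB : ℝ) : ℝ :=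
  (d - tA) * (q 0 0 * d + q 0 1 * kB) + (2 * d - 2 * kA) * (q 1 0 * d + q 1 1 * kB + q 1 2 * tB)
  + 2 * kA * (q 2 0 * d + q 2 1 * kB + q 2 2 * tB) + tA * (q 3 0 * d + q 3 1 * kB)

noncomputable def phi (q : ℕ → ℕ → ℝ) (c d kA kB tA tB : ℝ) : ℝ :=
  blr q d kA kB tA tB + blr q d kB kA tA tB + blr q d kA kB tB tA + blr q d kB kA tB tA
    + 262144 * (c * tA * tB - 3 * d * d)

theorem brn_real {kA kB tA tB : ℕ} (h : brn C kA kB tA tB = true) :
    0 < phi (fun u a => (sI (qd C.X u a) : ℝ)) (ccf C.par) C.den kA kB tA tB := by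
  unfold brn at h
  have := (Int.cast_lt (R := ℝ)).2 (of_decide_eq_true h)
  unfold blo at this
  push_cast at this
  exact this

theorem obj_real (h : chkObj C = true) {x t : ℝ} (x1 : C.a1 ≤ x) (x2 : x ≤ C.a2)
    (t1 : C.b1 ≤ t) (t2 : t ≤ C.b2) :
    0 < phi (fun u a => (sI (qd C.X u a) : ℝ)) (ccf C.par) C.den x x t t := by
  have A : ∀ kA kB : ℕ, brn3 C kA kB = true →
      0 < phi (fun u a => (sI (qd C.X u a) : ℝ)) (ccf C.par) C.den kA kB t t := by
    intro kA kB h
    unfold brn3 at h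
    rw [both_iff, both_iff] at h
    exact bern t1 t2 (by unfold phi blr; ring) (fun e => by rw [e]) (brn_real h.1)
      (brn_real h.2.1) (brn_real h.2.2)
  unfold chkObj at h
  rw [both_iff, both_iff] at h
  exact bern x1 x2 (by unfold phi blr; ring) (fun e => by rw [e]) (A _ _ h.1) (A _ _ h.2.1)
    (A _ _ h.2.2)

theorem obj_sound (h : chkObj C = true) (hR : Rng C n) (hp : Par C n) (hn : 0 < n) {k s : ℕ}
    (k1 : C.a1 * n ≤ C.den * k) (k2 : C.den * k ≤ C.a2 * n)
    (T : 2 * (k * beta C 2 n k + ((n : ℤ) - k) * beta C 1 n k)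
      + (beta C 3 n k + ((n : ℤ) - 1) * beta C 0 n k) ≤ 786432 * s) : n ^ 2 ≤ 2 * s := by
  have hn' : (0 : ℝ) < n := by exact_mod_cast hn
  have hd : (0 : ℝ) < C.den := by exact_mod_cast hR.pos
  have P := obj_real h (x := C.den * k / n) (t := C.den / n)
    (by rw [le_div_iff₀ hn']; exact_mod_cast k1) (by rw [div_le_iff₀ hn']; exact_mod_cast k2)
    (by rw [le_div_iff₀ hn', mul_comm]; exact_mod_cast hR.lo)
    (by rw [div_le_iff₀ hn', mul_comm]; exact_mod_cast hR.hi)
  have e : phi (fun u a => (sI (qd C.X u a) : ℝ)) (ccf C.par) C.den (C.den * k / n)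
      (C.den * k / n) (C.den / n) (C.den / n) = (C.den / n) ^ 2 *
      ((2 * (2 * (k * beta C 2 n k + ((n : ℤ) - k) * beta C 1 n k)
      + (beta C 3 n k + ((n : ℤ) - 1) * beta C 0 n k)) + 262144 * (ccf C.par - 3 * n ^ 2) : ℤ) : ℝ) := by
    unfold beta phi blr
    rw [if_pos (show isZ 0 = true from rfl), if_pos (show isZ 3 = true from rfl),
      if_neg (show ¬ isZ 1 = true by decide), if_neg (show ¬ isZ 2 = true by decide)]
    push_cast
    field_simp
    ring
  rw [e] at P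
  have P2 := Int.cast_pos.1 (pos_of_mul_pos_right P (sq_nonneg _))
  have P3 : 3 * (n : ℤ) ^ 2 < 6 * s + ccf C.par := by linarith
  have P4 : ((n ^ 2 : ℕ) : ℤ) = (n : ℤ) ^ 2 := by push_cast; rfl
  rw [← P4] at P3
  unfold ccf at P3
  split_ifs at P3 with c
  · have : n ^ 2 % 2 = 0 := by rw [Nat.pow_mod, hp.1 c]
    omega
  · omega

theorem certB (h : chkB C = true) (hS : MI S) (hR : Rng C n) (hp : Par C n) {k : ℕ} (z : Fin n)
    (k1 : C.a1 * n ≤ C.den * k) (k2 : C.den * k ≤ C.a2 * n) (hkn : k ≤ n)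
    (hk : ∀ p v, ∃ q, q ≠ p ∧ k ≤ hd S p v q) (z0 : hd S 2 z 0 ≤ k) (z1 : hd S 2 z 1 ≤ k) :
    n ^ 2 ≤ 2 * S.card := by
  unfold chkB chkB0 at h
  simp only [both_iff, beq_iff] at h
  obtain ⟨⟨m, h1, h2, h3⟩, c0, c1, c2, c3⟩ := h
  have hH : ∀ p : Fin 3, ∃ H : Finset (Fin n), H.card = k ∧
      (p ≠ 2 → ∀ u ∈ S, u 2 = z → u p ∈ H) := by
    intro p
    by_cases e : p = 2
    · obtain ⟨H, -, a⟩ := exists_superset_card_eq (s := (∅ : Finset (Fin n))) (n := k)
        (by simp) (by simpa using hkn)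
      exact ⟨H, a, fun x => absurd e x⟩
    · have : hd S 2 z p ≤ k := by
        fin_cases p
        exacts [z0, z1, absurd rfl e]
      obtain ⟨H, a, b⟩ := exists_superset_card_eq this (by simpa using hkn)
      exact ⟨H, b, fun _ u hu x => a (mem_filter.2 ⟨mem_univ _, u, hu, x, rfl⟩)⟩
  choose H H1 H2 using hH
  obtain ⟨κ, hκ⟩ : ∃ κ : Fin 3 → Fin n → ℕ, ∀ p v,
      κ p v = if p = 2 then (if v = z then 3 else 0) else if v ∈ H p then 2 else 1 :=
    ⟨_, fun _ _ => rfl⟩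
  have e1 : ∀ p v, κ p v = 1 → p ≠ 2 ∧ v ∉ H p := by
    intro p v; rw [hκ]; split_ifs with a b c <;> simp [*]
  have e3 : ∀ p v, κ p v = 3 → p = 2 ∧ v = z := by
    intro p v; rw [hκ]; split_ifs with a b c <;> simp [*]
  have hK : Cls C.md S κ := by
    refine ⟨fun p v => by rw [hκ]; split_ifs <;> omega, fun p v => ?_, ?_, ?_⟩
    · rw [hκ, m]
      fin_cases p <;> split_ifs with a b <;> first | rfl | exact absurd a (by decide)
    · intro p q v w _ a b
      obtain ⟨rfl, rfl⟩ := e3 _ _ b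
      obtain ⟨a1, a2⟩ := e1 _ _ a
      rw [ht_lt4, lm_zero_iff]
      rintro u hu ⟨rfl, x⟩
      exact a2 (H2 p a1 u hu x)
    · intro p q r v w hpq hpr hqr a b
      refine ⟨z, ?_⟩
      rcases fin3_cases p q r 2 hpq hpr hqr with x | x | x
      · exact absurd x.symm (e1 _ _ a).1
      · exact absurd x.symm (e1 _ _ b).1
      · rw [hκ, if_pos x.symm, if_pos rfl]
  have sH : ∀ p, p ≠ 2 → ∀ g : ℕ → ℤ, ∑ v, g (κ p v) = k * g 2 + ((n : ℤ) - k) * g 1 := by
    intro p hp g
    simp only [hκ, if_neg hp, apply_ite g]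
    rw [sum_ite, sum_const, sum_const, filter_mem_eq_inter, univ_inter, H1, filter_notMem_eq_sdiff,
      card_univ_sdiff, H1, Fintype.card_fin, nsmul_eq_mul, nsmul_eq_mul, Nat.cast_sub hkn]
  have sZ : ∀ g : ℕ → ℤ, ∑ v, g (κ 2 v) = g 3 + ((n : ℤ) - 1) * g 0 := by
    intro g
    simp only [hκ, if_true, apply_ite g]
    rw [sum_ite, sum_const, sum_const, filter_eq', if_pos (mem_univ _), card_singleton, filter_ne',
      card_erase_of_mem (mem_univ _), card_univ, Fintype.card_fin, nsmul_eq_mul, nsmul_eq_mul,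
      Nat.cast_sub z.pos]
    simp
  have n1 : ∀ p, p ≠ 2 → cn κ p = k := by
    intro p hp
    have := sH p hp fun x => cb x
    rw [show cb 2 = 1 from rfl, show cb 1 = 0 from rfl] at this
    unfold cn
    zify
    simpa using this
  have n2 : cn κ 2 = 1 := by
    have := sZ fun x => cb x
    rw [show cb 3 = 1 from rfl, show cb 0 = 0 from rfl] at this
    unfold cn
    zify
    simpa using this
  have E : Env C S κ k := by
    refine ⟨hK, by omega, hR, fun u hu => (rook_sound hK hR h2 hu).1,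
      fun _ => ⟨by exact_mod_cast k1, by exact_mod_cast k2⟩,
      fun p => n1 _ (by revert p; decide), fun p v => ?_⟩
    rw [hκ]
    by_cases e : p = 2
    · subst e
      rw [if_pos rfl, if_pos (by split_ifs <;> rfl)]
      exact n1 _ (by decide)
    · rw [if_neg e, if_neg (by split_ifs <;> decide), sb, if_neg e, n2]
  have T := total (k := k) hS hK hR z.pos (m ▸ h1) h2 fun p v => by
    have hs := side_of (hk p v)
    have := hK.lt p v
    have x : κ p v = 0 ∨ κ p v = 1 ∨ κ p v = 2 ∨ κ p v = 3 := by omega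
    rcases x with x | x | x | x
    · exact vi_six E (by omega) hp (x ▸ c0) hs
    · exact vi_six E (by omega) hp (x ▸ c1) hs
    · exact vi_six E (by omega) hp (x ▸ c2) hs
    · have K : ∀ y : ℕ, k ≤ y → Kf C n k 1 y := fun y hy =>
        ⟨fun _ => by rw [if_neg (by omega)]; omega, fun e => by omega⟩
      exact vi_two E (x ▸ c3) (hs.imp (K _) (K _))
  rw [Fin.sum_univ_three, sH 0 (by decide) fun x => beta C x n k,
    sH 1 (by decide) fun x => beta C x n k, sZ fun x => beta C x n k] at T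
  exact obj_sound h3 hR hp z.pos k1 k2 (by linarith)

end Pool.Agent.P.MP_41d1ec_co
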