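import Pool.Agent.P.MP_41d1ec_co.Base

/-! Soundness of the column computation and of the atom tests. -/

set_option autoImplicit false

namespace Pool.Agent.P.MP_41d1ec_co

open Finset

def sF (t : Tm) (i : ℕ) : ℤ := (t.1 i : ℤ) - 8388608
def sG (t : Tm) (l : ℕ) : ℤ := (t.2 l : ℤ) - 8388608
def tsum (L : List Tm) (i l : ℕ) : ℤ := (L.map fun t => sF t i * sG t l).sum
noncomputable def Qz (W K u : ℕ) (L : List Tm) (i l : ℕ) : ℤ :=
  262144 * ((kd W K u l i : ℤ) - 33554432) + tsum L i l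

noncomputable def etl (L : List Tm) : List (ℕ × (ℕ → ℕ)) := L.map fun t => (encF t.1, t.2)

theorem frcT_eq (L : List Tm) (k : List (ℕ × (ℕ → ℕ)) → Bool) : frcT L k = k (etl L) := by
  induction L generalizing k with
  | nil => rfl
  | cons t L ih =>
    have : frcT (t :: L) k = frc (encF t.1) fun F => frcT L fun r => k ((F, t.2) :: r) := rfl
    rw [this, frc_eq, ih]; rfl

theorem cast_encF (F : ℕ → ℕ) : (encF F : ZMod bM) = enc fun i => (F i : ℤ) - 8388608 := by
  have : encF F = Nat.land (pack 64 F 56 + cFB) cM1 := rfl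
  rw [this, cast_land, Nat.cast_add, cast_pack, cast_cFB, enc_add]
  exact enc_congr fun i _ => by ring

theorem cast_dot (L : List Tm) (x : ℕ) :
    (dot (etl L) x : ZMod bM) + cMB * sumF (etl L) = enc fun i => tsum L i x := by
  induction L with
  | nil => simp [dot, sumF, etl, tsum, enc_zero]
  | cons t L ih =>
    have h1 : dot (etl (t :: L)) x = t.2 x * encF t.1 + dot (etl L) x := rfl
    have h2 : sumF (etl (t :: L)) = encF t.1 + sumF (etl L) := rfl
    have h3 : (fun i => tsum (t :: L) i x) = fun i => sG t x * sF t i + tsum L i x := by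
      funext i; simp [tsum, mul_comm]
    rw [h1, h2, h3, ← enc_add, ← ih, ← enc_mul]
    have h4 : enc (sF t) = (encF t.1 : ZMod bM) := (cast_encF t.1).symm
    rw [h4, cast_cMB, sG]
    push_cast
    ring

theorem cast_ncol (W K u : ℕ) (L : List Tm) (l : ℕ) :
    (ncol W K u (etl L) (Nat.land (Nat.add cK (Nat.mul cMB (sumF (etl L)))) cM1) l : ZMod bM)
      = enc fun i => -Qz W K u L i l := by
  have h1 : ∀ c0, ncol W K u (etl L) c0 l
      = Nat.land (cM1 * (262144 * pack 64 (kd W K u l) 56 + dot (etl L) l + c0)) cM1 :=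
    fun _ => rfl
  have h2 : Nat.add cK (Nat.mul cMB (sumF (etl L))) = cK + cMB * sumF (etl L) := rfl
  rw [h1, cast_land, Nat.cast_mul, Nat.cast_add, Nat.cast_add, cast_land, h2, Nat.cast_add,
    Nat.cast_mul cMB, Nat.cast_mul, cast_pack, cast_cM1, cast_cK]
  have h3 : ((262144 : ℕ) : ZMod bM) = ((262144 : ℤ) : ZMod bM) := by push_cast; rfl
  rw [h3, enc_mul, add_assoc, add_left_comm (dot (etl L) l : ZMod bM), cast_dot, enc_add, enc_add,
    enc_mul]
  exact enc_congr fun i _ => by unfold Qz; ring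

theorem ncol_lt (W K u : ℕ) (tl : List (ℕ × (ℕ → ℕ))) (c0 l : ℕ) :
    ncol W K u tl c0 l < bM := by
  unfold ncol
  rw [land_M]
  exact Nat.mod_lt _ (by rw [bM_eq]; positivity)

theorem bM_eq' : bM = 2 ^ 3584 := by decide +kernel

theorem gcol_pack {f : ℕ → ℕ} (h : ∀ i < 48, f i < bM) {l : ℕ} (hl : l < 48) :
    gcol (pack 3584 f 48) l = f l := by
  have : gcol (pack 3584 f 48) l = Nat.land (pack 3584 f 48 >>> (3584 * l)) cM1 := rfl
  rw [this, land_M, bM_eq']
  exact pack_fld (fun i hi => bM_eq' ▸ h i hi) hl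

def TmB (t : Tm) : Prop := (∀ i, t.1 i < 33554432) ∧ ∀ l, t.2 l < 16777216

theorem tsum_bd (L : List Tm) (h : ∀ t ∈ L, TmB t) (i l : ℕ) :
    |tsum L i l| ≤ L.length * 281474976710656 := by
  induction L with
  | nil => simp [tsum]
  | cons t L ih =>
    have h3 : tsum (t :: L) i l = sF t i * sG t l + tsum L i l := by simp [tsum]
    have h1 := ih fun s hs => h s (List.mem_cons_of_mem _ hs)
    obtain ⟨a1, a2⟩ := h t List.mem_cons_self
    have b1 : |sF t i| ≤ 33554432 := by
      have := a1 i; unfold sF; rw [abs_le]; omega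
    have b2 : |sG t l| ≤ 8388608 := by
      have := a2 l; unfold sG; rw [abs_le]; omega
    have b3 : |sF t i * sG t l| ≤ 33554432 * 8388608 := by
      rw [abs_mul]; exact mul_le_mul b1 b2 (abs_nonneg _) (by norm_num)
    rw [h3, List.length_cons]
    have := abs_add_le (sF t i * sG t l) (tsum L i l)
    push_cast
    omega

theorem kd_lt (W K u l i : ℕ) : kd W K u l i < 67108864 := by
  unfold kd
  simp only [sel_eq, Nat.add_eq, Nat.sub_eq]
  have := dg_lt K (tri l + i)
  split_ifs <;> omega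

theorem Qz_bd (W K u : ℕ) (L : List Tm) (h : ∀ t ∈ L, TmB t) (hl : L.length ≤ 64) (i l : ℕ) :
    |Qz W K u L i l| ≤ 36028797018963968 := by
  have h1 := tsum_bd L h i l
  have h2 := kd_lt W K u l i
  have h3 : (L.length : ℤ) ≤ 64 := by exact_mod_cast hl
  unfold Qz
  rw [abs_le] at *
  omega

/-- entry of a mark lane -/
def mq (Q : ℕ → ℕ → ℤ) (i b mk : ℕ) : ℤ := if mk = 0 then 0 else Q i (b + 12 * (mk - 1))

def okm (t : ℕ) (m : ℤ) : Prop := if t = 5 then m = 0 ∨ m = 1 else m = 2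

/-- what the atom tests establish -/
structure Good (C : Ct) (u la lb : ℕ) (Q : ℕ → ℕ → ℤ) : Prop where
  free : ∀ l < 48, l % 12 ≤ 1 → okN C.md u l = true → ∀ i < 56, rowOK C.md u la lb i = true →
    Q i l ≤ 0
  apex : ∀ x < C.md + 2, ∀ y < C.md + 2, ∀ i < 56, rowOK C.md u la lb i = true →
    2 * mq Q i 3 x + 2 * mq Q i 27 y ≤ 262144 * sI (td C.X u x y) * ind i
  role : ∀ t0 < 12, ∀ t1 < 12, ∀ c0 < 2, ∀ c1 < 2, ∀ mk < 3,
    alw C.md u la lb (12 * c0 + t0) = true → alw C.md u la lb (24 + 12 * c1 + t1) = true →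
    okRole C.md u t0 c0 t1 c1 mk = true → ∀ m0 m1 : ℤ, okm t0 m0 → okm t1 m1 →
    ∀ i < 56, rowOK C.md u la lb i = true →
    m0 * Q i (12 * c0 + t0) + m1 * Q i (24 + 12 * c1 + t1)
      + 2 * mq Q i (if isE t0 = true then 26 else 2) mk
      ≤ 262144 * (524288 - sI (pd C.P u t0 c0 t1 c1 mk)) * ind i

theorem mark_ok0 : ∀ md < 2, ∀ u < 4, ∀ c < md + 1,
    (okN md u (2 + 12 * c) && okN md u (3 + 12 * c) && okN md u (26 + 12 * c)
      && okN md u (27 + 12 * c)) = true := by
  decide +kernel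

theorem mark_ok (md : ℕ) (hmd : md < 2) (u : ℕ) (hu : u < 4) (x : ℕ) (hx : x < md + 2) (_h0 : x ≠ 0)
    (b : ℕ) (hb : b ∈ [2, 3, 26, 27]) :
    okN md u (b + 12 * (x - 1)) = true ∧ b + 12 * (x - 1) < 48 ∧ (b + 12 * (x - 1)) % 12 ≠ 8 := by
  have := mark_ok0 md hmd u hu (x - 1) (by omega)
  simp only [Bool.and_eq_true] at this
  simp only [List.mem_cons, List.not_mem_nil, or_false] at hb
  rcases hb with rfl | rfl | rfl | rfl
  · exact ⟨this.1.1.1, by omega, by omega⟩
  · exact ⟨this.1.1.2, by omega, by omega⟩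
  · exact ⟨this.1.2, by omega, by omega⟩
  · exact ⟨this.2, by omega, by omega⟩

theorem alw_of {md u la lb i : ℕ} (h : okN md u i = true) (h8 : i % 12 ≠ 8) :
    alw md u la lb i = true := by
  unfold alw
  rw [both_iff, imp_iff, beq_iff]
  exact ⟨h, fun e => absurd e h8⟩

theorem tst2_spec {MK t0 t1 Y x0 x1 : ℕ} (h : tst2 MK t0 t1 Y x0 x1 = true) {m0 m1 : ℤ}
    (h0 : okm t0 m0) (h1 : okm t1 m1) :
    ∃ Z : ℕ, tst MK Z = true ∧ (Z : ZMod bM) = Y + m0 * x0 + m1 * x1 := by
  have A : ∀ Y, tst1 MK t1 Y x1 = true →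
      ∃ Z : ℕ, tst MK Z = true ∧ (Z : ZMod bM) = Y + m1 * x1 := by
    intro Y h
    unfold tst1 at h
    unfold okm at h1
    simp only [sel_eq, beq_iff] at h
    split_ifs at h h1
    · rw [both_iff] at h
      rcases h1 with rfl | rfl
      · exact ⟨_, h.1, by simp⟩
      · exact ⟨_, h.2, by simp⟩
    · subst h1
      exact ⟨_, h, by simp only [Nat.add_eq]; push_cast; ring⟩
  unfold tst2 at h
  unfold okm at h0
  simp only [sel_eq, beq_iff] at h
  split_ifs at h h0
  · rw [both_iff] at h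
    rcases h0 with rfl | rfl
    · obtain ⟨Z, z1, z2⟩ := A _ h.1
      exact ⟨Z, z1, by rw [z2]; simp⟩
    · obtain ⟨Z, z1, z2⟩ := A _ h.2
      exact ⟨Z, z1, by rw [z2]; simp⟩
  · subst h0
    obtain ⟨Z, z1, z2⟩ := A _ h
    exact ⟨Z, z1, by rw [z2]; simp only [Nat.add_eq]; push_cast; ring⟩

theorem atoms_sound {C : Ct} {u la lb NC : ℕ} {Q : ℕ → ℕ → ℤ} (hmd : C.md < 2) (hu : u < 4)
    (hQ : ∀ i l, |Q i l| ≤ 36028797018963968)
    (hNC : ∀ l < 48, alw C.md u la lb l = true → (gcol NC l : ZMod bM) = enc fun i => -Q i l)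
    (h : atoms C u la lb NC
      (pack 64 (fun i => sel (rowOK C.md u la lb i) 9223372036854775808 0) 56) = true) :
    Good C u la lb Q := by
  have hm : ∀ x < C.md + 2, ∀ b ∈ [2, 3, 26, 27],
      (mcol NC b x : ZMod bM) = enc fun i => -2 * mq Q i b x := by
    intro x hx b hb
    unfold mcol mq
    simp only [sel_eq, beq_iff]
    split_ifs with h0
    · simp [enc_zero]
    · obtain ⟨a1, a2, a3⟩ := mark_ok _ hmd u hu x hx h0 b hb
      have := hNC _ a2 (alw_of a1 a3)
      simp only [Nat.add_eq, Nat.mul_eq, Nat.sub_eq]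
      rw [Nat.cast_mul, this, show ((2 : ℕ) : ZMod bM) = ((2 : ℤ) : ZMod bM) by push_cast; rfl,
        enc_mul]
      exact enc_congr fun i _ => by ring
  have hmq : ∀ i b x, |mq Q i b x| ≤ 36028797018963968 := by
    intro i b x; unfold mq; split_ifs
    · simp
    · exact hQ _ _
  have hind : ∀ i, ind i = 0 ∨ ind i = 1 := by
    intro i; unfold ind; split_ifs <;> simp
  unfold atoms at h
  simp only [both_iff, allN_iff, imp_iff, ble_iff, Nat.add_eq, Nat.mul_eq] at h
  obtain ⟨h1, h2, h3⟩ := h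
  refine ⟨?_, ?_, ?_⟩
  · intro l hl h12 hok i hi ho
    have t := h1 l hl ⟨h12, hok⟩
    have := tst_sound (a := fun i => -2 * Q i l) ?_ ?_ t hi ho
    · omega
    · rw [Nat.cast_add, Nat.cast_mul, hNC l hl (alw_of hok (by omega)), cast_cH,
        show ((2 : ℕ) : ZMod bM) = ((2 : ℤ) : ZMod bM) by push_cast; rfl, enc_mul, enc_add]
      exact enc_congr fun i _ => by ring
    · intro j _
      have := hQ j l
      rw [abs_le] at this; rw [abs_lt]; omega
  · intro x hx y hy i hi ho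
    have t := h2 x hx y hy
    have := tst_sound (a := fun i => 262144 * sI (td C.X u x y) * ind i
      - 2 * mq Q i 3 x - 2 * mq Q i 27 y) ?_ ?_ t hi ho
    · omega
    · rw [Nat.cast_add, Nat.cast_add, Nat.cast_add, Nat.cast_mul, hm x hx 3 (by simp),
        hm y hy 27 (by simp), cast_cA, cast_cU, ← Int.cast_natCast (td C.X u x y), enc_mul,
        enc_add, enc_add, enc_add]
      exact enc_congr fun i _ => by unfold sI; ring
    · intro j _
      have a1 := hmq j 3 x
      have a2 := hmq j 27 y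
      have a3 : td C.X u x y < 16777216 := dg_lt _ _
      rw [abs_le] at a1 a2; rw [abs_lt]; unfold sI
      rcases hind j with e | e <;> rw [e] <;> omega
  · intro t0 ht0 t1 ht1 c0 hc0 c1 hc1 mk hmk w0 w1 hr m0 m1 k0 k1 i hi ho
    have hr' := hr
    unfold okRole at hr'
    simp only [both_iff, ble_iff, sel_eq, beq_iff, Nat.add_eq] at hr'
    have hmk2 : mk < C.md + 2 := by
      have := hr'.2.2.2.1
      by_cases e : mk = 0
      · omega
      · rw [if_neg e, both_iff, ble_iff] at this; omega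
    have t := h3 t0 ht0 t1 ht1 hr'.1 c0 hc0 w0 c1 hc1 w1 mk hmk hr
    unfold roleT at t
    simp only [frc_eq, sel_eq (isE t0), Nat.add_eq, Nat.mul_eq] at t
    obtain ⟨Z, z1, z2⟩ := tst2_spec t k0 k1
    have := tst_sound (a := fun i => 262144 * (524288 - sI (pd C.P u t0 c0 t1 c1 mk)) * ind i
      - m0 * Q i (12 * c0 + t0) - m1 * Q i (24 + 12 * c1 + t1)
      - 2 * mq Q i (if isE t0 = true then 26 else 2) mk) ?_ ?_ z1 hi ho
    · omega
    · rw [z2, Nat.cast_add, Nat.cast_add, Nat.cast_mul,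
        hm mk hmk2 _ (by split_ifs <;> simp), hNC _ (by omega) w0, hNC _ (by omega) w1, cast_cR,
        cast_cNU, ← Int.cast_natCast (pd C.P u t0 c0 t1 c1 mk), enc_mul, enc_mul, enc_mul,
        enc_add, enc_add, enc_add, enc_add]
      exact enc_congr fun i _ => by unfold sI; ring
    · intro j _
      have a1 := hmq j (if isE t0 = true then 26 else 2) mk
      have a2 := hQ j (12 * c0 + t0)
      have a4 := hQ j (24 + 12 * c1 + t1)
      have a3 : pd C.P u t0 c0 t1 c1 mk < 16777216 := dg_lt _ _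
      have b0 : m0 = 0 ∨ m0 = 1 ∨ m0 = 2 := by
        unfold okm at k0; split_ifs at k0 <;> omega
      have b1 : m1 = 0 ∨ m1 = 1 ∨ m1 = 2 := by
        unfold okm at k1; split_ifs at k1 <;> omega
      rw [abs_le] at a1 a2 a4; rw [abs_lt]; unfold sI
      rcases hind j with e | e <;> rw [e] <;> rcases b0 with rfl | rfl | rfl <;>
        rcases b1 with rfl | rfl | rfl <;> omega

end Pool.Agent.P.MP_41d1ec_co
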