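import Pool.Agent.P.MP_41d1ec_co.Cert

/-! Regions of parameters covered by certificates. -/

set_option autoImplicit false

namespace Pool.Agent.P.MP_41d1ec_co

/-- the bound for the parameters `n`, `k` -/
def Core (n k : ℕ) : Prop :=
  ∀ (S : Finset (Cl n)) (z : Fin n), MI S → (∀ p v, ∃ q, q ≠ p ∧ k ≤ hd S p v q) →
    hd S 2 z 0 ≤ k → hd S 2 z 1 ≤ k → n ^ 2 ≤ 2 * S.card

structure Hd where
  par : ℕ
  den : ℕ
  a1 : ℕ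
  a2 : ℕ
  b1 : ℕ
  b2 : ℕ

def inR (x : Hd) (n k : ℕ) : Prop :=
  0 < x.den ∧ n * x.b1 ≤ x.den ∧ x.den ≤ n * x.b2 ∧ (x.par = 0 → n % 2 = 0) ∧
    (x.par = 1 → n % 2 = 1) ∧ x.a1 * n ≤ x.den * k ∧ x.den * k ≤ x.a2 * n

instance (x : Hd) (n k : ℕ) : Decidable (inR x n k) := by unfold inR; infer_instance

def Cov (x : Hd) : Prop := ∀ n k, k ≤ n → inR x n k → Core n k

theorem cov_of (C : Ct) (h : chkB C = true) : Cov ⟨C.par, C.den, C.a1, C.a2, C.b1, C.b2⟩ :=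
  fun _ _ hk r _ z hS h1 h2 h3 => certB h hS ⟨r.1, r.2.1, r.2.2.1⟩ ⟨r.2.2.2.1, r.2.2.2.2.1⟩ z
    r.2.2.2.2.2.1 r.2.2.2.2.2.2 hk h1 h2 h3

theorem core_A (C : Ct) (h : chkA C = true) (h0 : 0 < C.den) (h1 : C.b1 = 0)
    (h2 : C.den ≤ 7 * C.b2) (h3 : 7 * C.a1 ≤ 3 * C.den) {n k : ℕ} (hk : 2 * k < n)
    (hk' : 3 * n ≤ 7 * k) : Core n k := by
  intro S z hS a _ _
  have hn : 7 ≤ n := by omega
  refine certA h hS ⟨h0, by rw [h1]; omega, h2.trans (Nat.mul_le_mul_right _ hn)⟩ z.pos a ?_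
  nlinarith [Nat.mul_le_mul_right n h3, Nat.mul_le_mul_left C.den hk']

end Pool.Agent.P.MP_41d1ec_co
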