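import Mathlib

/-! Combinatorial model: maximal irredundant sets of the three-dimensional rook graph,
kinds of rooks and types of lines.

A line is given by two coordinates `(p, v)`, `(q, w)` with `p ≠ q`.  Types of a line seen from
its end `(p, v)`: 0 closed empty, 1 empty through an undominated cell, 2 / 3 marked (owner end /
apex end), 4 simple, 5 multiple, 6 simple carrying all private cells, 7 / 8 simple with one
private cell (low / high end), 9 / 10 closed simple (far end / free end), 11 line of a rook that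
is its own only private cell. -/

set_option autoImplicit false

namespace Pool.Agent.P.MP_41d1ec_co

open Finset Function

noncomputable section

open Classical

abbrev Cl (n : ℕ) := Fin 3 → Fin n

variable {n : ℕ}

/-- equal or adjacent cells -/
def Nb (c d : Cl n) : Prop := ∃ p q : Fin 3, p ≠ q ∧ c p = d p ∧ c q = d q

/-- `w` is a private neighbour of `u` -/
def PN (S : Finset (Cl n)) (u w : Cl n) : Prop := Nb u w ∧ ∀ v ∈ S, v ≠ u → ¬ Nb v w

/-- undominated cell -/
def Und (S : Finset (Cl n)) (c : Cl n) : Prop := ∀ v ∈ S, ¬ Nb v c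

/-- the two consequences of maximal irredundance that are used -/
structure MI (S : Finset (Cl n)) : Prop where
  irr : ∀ u ∈ S, ∃ w, PN S u w
  mx : ∀ c, c ∉ S → (∃ w, Nb c w ∧ Und S w) → ∃ u ∈ S, ∀ w, PN S u w → Nb c w

/-- number of occupied lines from `(p, v)` towards direction `q` -/
def hd (S : Finset (Cl n)) (p : Fin 3) (v : Fin n) (q : Fin 3) : ℕ :=
  (univ.filter fun w : Fin n => ∃ u ∈ S, u p = v ∧ u q = w).card

/-- number of rooks on a line -/
def lm (S : Finset (Cl n)) (p : Fin 3) (v : Fin n) (q : Fin 3) (w : Fin n) : ℕ :=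
  (S.filter fun u => u p = v ∧ u q = w).card

/-- special kinds of rooks -/
def Kind (S : Finset (Cl n)) (u : Cl n) (r : ℕ) (f : Fin 3) (a b : Fin n) : Prop :=
  (r = 1 ∧ f = 0 ∧ ∀ w, PN S u w ↔ w = u) ∨
  (r = 2 ∧ a ≠ u f ∧ ∀ w, PN S u w ↔ w = update u f a) ∨
  (r = 3 ∧ (∀ w, PN S u w → ∀ j, j ≠ f → w j = u j) ∧
    ∃ w₁ w₂, w₁ ≠ w₂ ∧ PN S u w₁ ∧ PN S u w₂) ∨
  (r = 4 ∧ a ≠ u (f + 1) ∧ b ≠ u (f + 2) ∧
    ∀ w, PN S u w ↔ w = update u (f + 1) a ∨ w = update u (f + 2) b)

def info (S : Finset (Cl n)) (u : Cl n) : ℕ × Fin 3 × Fin n × Fin n :=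
  if h : ∃ x : ℕ × Fin 3 × Fin n × Fin n, Kind S u x.1 x.2.1 x.2.2.1 x.2.2.2 then h.choose
  else (0, 0, u 0, u 0)

/-- kind of a rook (0 if not special) -/
def rk (S : Finset (Cl n)) (u : Cl n) : ℕ := (info S u).1
/-- special direction -/
def sd (S : Finset (Cl n)) (u : Cl n) : Fin 3 := (info S u).2.1
def ap (S : Finset (Cl n)) (u : Cl n) : Fin n := (info S u).2.2.1
def bp (S : Finset (Cl n)) (u : Cl n) : Fin n := (info S u).2.2.2

/-- the private cell of a rook of kind 2 -/
def apx (S : Finset (Cl n)) (u : Cl n) : Cl n := update u (sd S u) (ap S u)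
/-- the private cells and the corner of a rook of kind 4 -/
def cy (S : Finset (Cl n)) (u : Cl n) : Cl n := update u (sd S u + 1) (ap S u)
def cz (S : Finset (Cl n)) (u : Cl n) : Cl n := update u (sd S u + 2) (bp S u)
def cyz (S : Finset (Cl n)) (u : Cl n) : Cl n := update (cy S u) (sd S u + 2) (bp S u)

/-- `u` marks the line -/
def Mk (S : Finset (Cl n)) (p : Fin 3) (v : Fin n) (q : Fin 3) (w : Fin n) (u : Cl n) : Prop :=
  u ∈ S ∧ rk S u = 2 ∧ apx S u p = v ∧ apx S u q = w ∧ (sd S u = p ∨ sd S u = q)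

/-- chosen marker of a line -/
def mkr (S : Finset (Cl n)) (p : Fin 3) (v : Fin n) (q : Fin 3) (w : Fin n) : Cl n :=
  @Classical.epsilon _ ⟨fun _ => v⟩ (Mk S p v q w)

/-- a rook on a line -/
def rko (S : Finset (Cl n)) (p : Fin 3) (v : Fin n) (q : Fin 3) (w : Fin n) : Cl n :=
  @Classical.epsilon _ ⟨fun _ => v⟩ fun u => u ∈ S ∧ u p = v ∧ u q = w

/-- high degree -/
def Hi (S : Finset (Cl n)) (p : Fin 3) (v : Fin n) (r : Fin 3) : Prop := n ≤ 2 * hd S p v r + 1

/-- type of a simple line carrying the rook `u` -/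
def sty (S : Finset (Cl n)) (p q : Fin 3) (u : Cl n) : ℕ :=
  if rk S u = 0 then 4 else if rk S u = 1 then 11
  else if sd S u = p then 10 else if sd S u = q then 9
  else if rk S u = 2 then
    (if (if p < q then Hi S p (u p) (sd S u) else ¬ Hi S q (u q) (sd S u)) then 8 else 7)
  else 6

/-- type of the line `(p, v), (q, w)` seen from `(p, v)` -/
def ht (S : Finset (Cl n)) (p : Fin 3) (v : Fin n) (q : Fin 3) (w : Fin n) : ℕ :=
  if lm S p v q w = 0 then
    (if ∃ u, Mk S p v q w u then (if sd S (mkr S p v q w) = p then 3 else 2)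
      else if ∃ c : Cl n, c p = v ∧ c q = w ∧ Und S c then 1 else 0)
  else if 2 ≤ lm S p v q w then 5 else sty S p q (rko S p v q w)

/-- types of the lines through a cell -/
def hc (S : Finset (Cl n)) (c : Cl n) (p q : Fin 3) : ℕ := ht S p (c p) q (c q)

/-- the same line seen from the other end -/
def ot (t : ℕ) : ℕ :=
  if t = 2 then 3 else if t = 3 then 2 else if t = 7 then 8 else if t = 8 then 7
  else if t = 9 then 10 else if t = 10 then 9 else t

def IsD (t : ℕ) : Prop := t = 2 ∨ t = 3 ∨ t = 6 ∨ t = 7 ∨ t = 8 ∨ t = 11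

/-- a line of type 1 forces a line of a dominating type -/
def R1 (h : Fin 3 → Fin 3 → ℕ) : Prop :=
  (∃ p q, p ≠ q ∧ h p q = 1) → ∃ p q, p ≠ q ∧ IsD (h p q)

/-- closed lines do not meet two empty lines -/
def R2 (h : Fin 3 → Fin 3 → ℕ) : Prop :=
  ∀ p q r, p ≠ q → p ≠ r → q ≠ r → h p r < 4 → h q r < 4 → h p q ≠ 0 ∧ h p q < 7

/-- three empty lines are not closed -/
def R3 (h : Fin 3 → Fin 3 → ℕ) : Prop :=
  ∀ p q r, p ≠ q → p ≠ r → q ≠ r → h p r < 4 → h q r < 4 → h p q ≠ 0

/-- `u` is the chosen marker of its line from the owner `(p, u p)` to its apex -/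
def Own (S : Finset (Cl n)) (u : Cl n) (p : Fin 3) : Prop :=
  rk S u = 2 ∧ sd S u ≠ p ∧ mkr S p (u p) (sd S u) (ap S u) = u

end

end Pool.Agent.P.MP_41d1ec_co
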