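import Pool.Agent.P.MP_41d1ec_co.Vtx

/-! Signs of the linear forms, the case cover at a vertex and the sum over all vertices. -/

set_option autoImplicit false

namespace Pool.Agent.P.MP_41d1ec_co

open Finset Function Classical

section forms

variable {Ω : Type} [Fintype Ω] {j : Ω → ℕ} {n : ℕ} {k ha hb : ℤ} {C : Ct} {u la lb ka kb : ℕ}

theorem form_eq (H : Sums j (isZ u) n k ha hb) :
    ∀ i < 2, ∑ ω, fc C u la lb ka kb i (j ω) = 0 := by
  intro i hi
  interval_cases i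
  · exact H.sg _
  · exact H.sc _

noncomputable def beta (C : Ct) (u : ℕ) (n k : ℤ) : ℤ :=
  2 * (sI (qd C.X u 0) * n + sI (qd C.X u 1) * k + if isZ u then 0 else sI (qd C.X u 2))

theorem form_ten (H : Sums j (isZ u) n k ha hb) :
    ∑ ω, fc C u la lb ka kb 10 (j ω) = beta C u n k := by
  change ∑ ω, (sI (qd C.X u 0) + sI (qd C.X u 1) * kap (isZ u) (j ω)
    + sI (qd C.X u 2) * twf (isZ u) (j ω)) = _
  rw [sum_add_distrib, sum_add_distrib, ← mul_sum, ← mul_sum, H.kp, H.tw, sum_const, card_univ,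
    nsmul_eq_mul, H.card, beta]
  split_ifs <;> ring

noncomputable def Lev (C : Ct) (n : ℤ) (l : ℕ) (h : ℤ) : Prop :=
  (l = 1 → n ≤ 2 * h + phf C.par) ∧ (l = 0 → 2 * h + plf C.par ≤ n)

def Kf (C : Ct) (n k : ℤ) (l : ℕ) (h : ℤ) : Prop :=
  (l = 1 → if C.md = 0 then C.a1 * n ≤ C.den * h else k ≤ h) ∧ (l = 0 → h + 1 ≤ k)

theorem lev_ge {z : Bool} (H : Sums j z n k ha hb) (hR : Rng C n) {q l : ℕ} {h : ℤ}
    (hq : ∑ ω, hhf q (j ω) = h) (hl : Lev C n l h) : 0 ≤ ∑ ω, lev C z q l (j ω) := by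
  have h0 : (0 : ℤ) < C.den := by exact_mod_cast hR.pos
  have h3 : (n : ℤ) * C.b1 ≤ C.den := by exact_mod_cast hR.lo
  have h4 : (C.den : ℤ) ≤ n * C.b2 := by exact_mod_cast hR.hi
  have p1 : 0 ≤ phf C.par := by unfold phf; split_ifs <;> norm_num
  have p2 : 0 ≤ plf C.par := by unfold plf; split_ifs <;> norm_num
  have ht := H.tw
  unfold lev
  by_cases l1 : l = 1
  · have := hl.1 l1
    cases z <;> simp only [if_pos l1, Bool.false_eq_true, if_false, if_true, sum_add_distrib,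
      sum_sub_distrib, ← mul_sum, hq, sum_const, card_univ, nsmul_eq_mul, H.card] at ht ⊢
    · rw [ht]; nlinarith
    · nlinarith [mul_le_mul_of_nonneg_left h4 p1]
  · by_cases l0 : l = 0
    · have := hl.2 l0
      cases z <;> simp only [if_neg l1, if_pos l0, Bool.false_eq_true, if_false, if_true,
        sum_sub_distrib, ← mul_sum, hq, sum_const, card_univ, nsmul_eq_mul, H.card] at ht ⊢
      · rw [ht]; nlinarith
      · nlinarith [mul_le_mul_of_nonneg_left h3 p2]
    · simp [l1, l0]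

theorem kfm_ge {z : Bool} (H : Sums j z n k ha hb) (hR : Rng C n) {q l : ℕ} {h : ℤ}
    (hq : ∑ ω, hhf q (j ω) = h) (hl : Kf C n k l h) : 0 ≤ ∑ ω, kfm C z q l (j ω) := by
  have h0 : (0 : ℤ) < C.den := by exact_mod_cast hR.pos
  have h3 : (n : ℤ) * C.b1 ≤ C.den := by exact_mod_cast hR.lo
  have ht := H.tw
  unfold kfm
  by_cases l1 : l = 1
  · have := hl.1 l1
    by_cases m : C.md = 0
    · simp only [if_pos l1, if_pos m, sum_sub_distrib, ← mul_sum, hq, sum_const, card_univ,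
        nsmul_eq_mul, H.card] at this ⊢
      nlinarith
    · simp only [if_pos l1, if_neg m, sum_sub_distrib, ← mul_sum, hq, H.kp] at this ⊢
      nlinarith
  · by_cases l0 : l = 0
    · have := hl.2 l0
      cases z <;> simp only [if_neg l1, if_pos l0, Bool.false_eq_true, if_false, if_true,
        sum_sub_distrib, ← mul_sum, hq, sum_const, card_univ, nsmul_eq_mul, H.card, H.kp] at ht ⊢
      · rw [ht]; nlinarith
      · nlinarith
    · simp [l1, l0]

theorem form_ge (H : Sums j (isZ u) n k ha hb) (hR : Rng C n)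
    (hk : C.md ≠ 0 → C.a1 * n ≤ C.den * k ∧ C.den * k ≤ C.a2 * n)
    (l0 : Lev C n la ha) (l1 : Lev C n lb hb) (k0 : Kf C n k ka ha) (k1 : Kf C n k kb hb) :
    ∀ i < 8, 0 ≤ ∑ ω, fc C u la lb ka kb (i + 2) (j ω) := by
  have h3 : (n : ℤ) * C.b1 ≤ C.den := by exact_mod_cast hR.lo
  have h4 : (C.den : ℤ) ≤ n * C.b2 := by exact_mod_cast hR.hi
  have ht := H.tw
  intro i hi
  interval_cases i
  · change 0 ≤ ∑ ω, if C.md = 0 then 0 else C.den * kap (isZ u) (j ω) - C.a1
    by_cases m : C.md = 0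
    · simp [m]
    · simp only [if_neg m, sum_sub_distrib, ← mul_sum, H.kp, sum_const, card_univ, nsmul_eq_mul,
        H.card]
      linarith [(hk m).1]
  · change 0 ≤ ∑ ω, if C.md = 0 then 0 else C.a2 - C.den * kap (isZ u) (j ω)
    by_cases m : C.md = 0
    · simp [m]
    · simp only [if_neg m, sum_sub_distrib, ← mul_sum, H.kp, sum_const, card_univ, nsmul_eq_mul,
        H.card]
      linarith [(hk m).2]
  · change 0 ≤ ∑ ω, if isZ u then 0 else C.den * twf (isZ u) (j ω) - C.b1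
    by_cases m : isZ u = true
    · simp [m]
    · simp only [if_neg m, sum_sub_distrib, ← mul_sum, ht, sum_const, card_univ, nsmul_eq_mul,
        H.card]
      linarith
  · change 0 ≤ ∑ ω, if isZ u then 0 else C.b2 - C.den * twf (isZ u) (j ω)
    by_cases m : isZ u = true
    · simp [m]
    · simp only [if_neg m, sum_sub_distrib, ← mul_sum, ht, sum_const, card_univ, nsmul_eq_mul,
        H.card]
      linarith
  · exact lev_ge H hR H.h0 l0
  · exact lev_ge H hR H.h1 l1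
  · exact kfm_ge H hR H.h0 k0
  · exact kfm_ge H hR H.h1 k1

end forms

variable {n : ℕ} {S : Finset (Cl n)} {κ : Fin 3 → Fin n → ℕ} {C : Ct}

/-- the conclusion at a vertex -/
def VI (C : Ct) (S : Finset (Cl n)) (κ : Fin 3 → Fin n → ℕ) (k : ℕ) (p : Fin 3) (v : Fin n) :
    Prop :=
  2 * n * beta C (κ p v) n k ≤ n * Lin C S κ p v
    + ∑ w, ∑ w', sI (wd C.W (κ p v) (hl (κ (sa p) w) (ht S p v (sa p) w))
        (hl (κ (sb p) w') (ht S p v (sb p) w')))

/-- hypotheses shared by all vertices -/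
structure Env (C : Ct) (S : Finset (Cl n)) (κ : Fin 3 → Fin n → ℕ) (k : ℕ) : Prop where
  cls : Cls C.md S κ
  md : C.md < 2
  rng : Rng C n
  role : ∀ u ∈ S, ∀ p, okR C.md S κ u p (mkv S κ u p) = true
  kap : C.md ≠ 0 → (C.a1 : ℤ) * n ≤ C.den * k ∧ (C.den : ℤ) * k ≤ C.a2 * n
  ca : ∀ p, cn κ (sa p) = k
  cb : ∀ p v, cn κ (sb p) = if isZ (κ p v) then k else 1

theorem vi_case {k : ℕ} (E : Env C S κ k) {p : Fin 3} {v : Fin n} {la lb ka kb : ℕ} {D : CD}
    (h : chkCase C (κ p v) la lb ka kb D = true)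
    (ha : Hi S p v (sa p) → 1 ≤ la) (hb : Hi S p v (sb p) → 1 ≤ lb)
    (l0 : Lev C n la (hd S p v (sa p))) (l1 : Lev C n lb (hd S p v (sb p)))
    (k0 : Kf C n k ka (hd S p v (sa p))) (k1 : Kf C n k kb (hd S p v (sb p))) :
    VI C S κ k p v := by
  have H := lane_sums E.cls p v (isZ (κ p v)) k (E.ca p) (E.cb p v)
  have := vtx E.cls E.md h ha hb E.role (form_eq H) (form_ge H E.rng E.kap l0 l1 k0 k1)
  rwa [form_ten H] at this

theorem lev_two (n h : ℤ) : Lev C n 2 h := ⟨fun e => by omega, fun e => by omega⟩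

theorem kf_two (n k h : ℤ) : Kf C n k 2 h := ⟨fun e => by omega, fun e => by omega⟩

theorem vi_two {k : ℕ} (E : Env C S κ k) {p : Fin 3} {v : Fin n} {i : ℕ}
    (h : cas2 C (κ p v) i = true)
    (hk : Kf C n k 1 (hd S p v (sa p)) ∨ Kf C n k 1 (hd S p v (sb p))) : VI C S κ k p v := by
  unfold cas2 at h
  rw [both_iff] at h
  rcases hk with hk | hk
  · exact vi_case E h.1 (fun _ => by omega) (fun _ => by omega) (lev_two _ _) (lev_two _ _) hk
      (kf_two _ _ _)
  · exact vi_case E h.2 (fun _ => by omega) (fun _ => by omega) (lev_two _ _) (lev_two _ _)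
      (kf_two _ _ _) hk

def Par (C : Ct) (n : ℕ) : Prop := (C.par = 0 → n % 2 = 0) ∧ (C.par = 1 → n % 2 = 1)

theorem lev_hi (hp : Par C n) {h : ℕ} (hh : n ≤ 2 * h + 1) : Lev C n 1 h := by
  refine ⟨fun _ => ?_, fun e => by omega⟩
  unfold phf
  split_ifs with e
  · have := hp.1 e; omega
  · omega

theorem lev_lo (hp : Par C n) {h : ℕ} (hh : ¬ n ≤ 2 * h + 1) : Lev C n 0 h := by
  refine ⟨fun e => by omega, fun _ => ?_⟩
  unfold plf
  split_ifs with e
  · have := hp.2 e; omega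
  · omega

theorem vi_six {k : ℕ} (E : Env C S κ k) (hm : C.md ≠ 0) (hp : Par C n) {p : Fin 3} {v : Fin n}
    {i : ℕ} (h : cas6 C (κ p v) i = true)
    (hk : k ≤ hd S p v (sa p) ∨ k ≤ hd S p v (sb p)) : VI C S κ k p v := by
  unfold cas6 at h
  simp only [both_iff] at h
  obtain ⟨c1, c2, c3, c4, c5, c6⟩ := h
  have K1 : ∀ {x : ℕ}, k ≤ x → Kf C n k 1 x := fun hx =>
    ⟨fun _ => by rw [if_neg hm]; omega, fun e => by omega⟩
  have K0 : ∀ {x : ℕ}, ¬ k ≤ x → Kf C n k 0 x := fun hx => ⟨fun e => by omega, fun _ => by omega⟩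
  by_cases a : Hi S p v (sa p) <;> by_cases b : Hi S p v (sb p)
  · exact vi_case E c1 (fun _ => le_rfl) (fun _ => le_rfl) (lev_hi hp a) (lev_hi hp b)
      (kf_two _ _ _) (kf_two _ _ _)
  · exact vi_case E c2 (fun _ => le_rfl) (fun e => absurd e b) (lev_hi hp a) (lev_lo hp b)
      (kf_two _ _ _) (kf_two _ _ _)
  · exact vi_case E c3 (fun e => absurd e a) (fun _ => le_rfl) (lev_lo hp a) (lev_hi hp b)
      (kf_two _ _ _) (kf_two _ _ _)
  · by_cases x : k ≤ hd S p v (sa p) <;> by_cases y : k ≤ hd S p v (sb p)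
    · exact vi_case E c4 (fun e => absurd e a) (fun e => absurd e b) (lev_lo hp a) (lev_lo hp b)
        (K1 x) (K1 y)
    · exact vi_case E c5 (fun e => absurd e a) (fun e => absurd e b) (lev_lo hp a) (lev_lo hp b)
        (K1 x) (K0 y)
    · exact vi_case E c6 (fun e => absurd e a) (fun e => absurd e b) (lev_lo hp a) (lev_lo hp b)
        (K0 x) (K1 y)
    · exact absurd hk (by omega)

theorem sum_cells (p : Fin 3) (g : Fin n → Fin n → Fin n → ℤ) :
    ∑ v, ∑ w, ∑ w', g v w w' = ∑ c : Cl n, g (c p) (c (sa p)) (c (sb p)) := by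
  obtain ⟨s1, s2, s3⟩ := sab p
  have hb : Bijective fun c : Cl n => (c p, c (sa p), c (sb p)) := by
    rw [Fintype.bijective_iff_injective_and_card]
    refine ⟨fun c d e => funext fun j => ?_, by simp; ring⟩
    simp only [Prod.mk.injEq] at e
    rcases fin3_cases p (sa p) (sb p) j s1 s2 s3 with rfl | rfl | rfl
    exacts [e.1, e.2.1, e.2.2]
  rw [Fintype.sum_bijective _ hb _ (fun x => g x.1 x.2.1 x.2.2) fun _ => rfl]
  simp only [Fintype.sum_prod_type]

/-- sum of the vertex inequalities -/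
theorem total {k : ℕ} (hS : MI S) (hK : Cls C.md S κ) (hR : Rng C n) (hn : 0 < n)
    (h1 : chkCells C.md C.W C.X = true) (h2 : chkRooks C = true) (hV : ∀ p v, VI C S κ k p v) :
    ∑ p, ∑ v, beta C (κ p v) n k ≤ 786432 * S.card := by
  have a1 : ∑ p, ∑ v, 2 * (n : ℤ) * beta C (κ p v) n k ≤ _ :=
    sum_le_sum fun p _ => sum_le_sum fun v _ => hV p v
  have a2 : ∀ p, ∑ v, ∑ w, ∑ w', sI (wd C.W (κ p v) (hl (κ (sa p) w) (ht S p v (sa p) w))
      (hl (κ (sb p) w') (ht S p v (sb p) w'))) = ∑ c : Cl n, sI (wv S κ C.W c p) :=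
    fun p => sum_cells p _
  have a3 : ∑ p, ∑ c : Cl n, sI (wv S κ C.W c p) = ∑ c, ((cwN S κ C.W c : ℤ) - 25165824) := by
    rw [sum_comm]
    exact sum_congr rfl fun c _ => by rw [sum_sI, Fin.sum_univ_three]; rfl
  have a4 : ∑ p, ∑ v, Lin C S κ p v = 1572864 * S.card - ∑ u ∈ S, Pz C S κ u := by
    have b1 : ∀ p, ∑ v, ∑ u ∈ S with u p = v, (524288 - sI (prc C.P S κ u p (mkv S κ u p)))
        = ∑ u ∈ S, (524288 - sI (prc C.P S κ u p (mkv S κ u p))) :=
      fun p => sum_fiberwise S (fun u => u p) _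
    have b2 : ∑ p, ∑ v, ∑ u ∈ S with rk S u = 2 ∧ sd S u = p ∧ ap S u = v, sI (tau C.X S κ u)
        = ∑ u ∈ S, if rk S u = 2 then sI (tau C.X S κ u) else 0 := by
      simp only [sum_filter]
      rw [sum_congr rfl fun p _ => sum_comm, sum_comm]
      refine sum_congr rfl fun u _ => ?_
      by_cases e : rk S u = 2
      · simp only [e, true_and, if_true, ite_and, sum_ite_irrel, sum_ite_eq, mem_univ,
          sum_const_zero]
      · simp [e]
    simp only [Lin, sum_add_distrib, b1, b2]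
    simp only [Pz, sum_sub_distrib, sum_const, card_univ, Fintype.card_fin, nsmul_eq_mul]
    rw [sum_comm]
    push_cast
    ring
  have a5 := cells_le hS hK h1
  have a6 : ∑ u ∈ S, att C S κ u ≤ ∑ u ∈ S, n * Pz C S κ u :=
    sum_le_sum fun u hu => (rook_sound hK hR h2 hu).2
  simp only [sum_add_distrib, ← mul_sum, a2, a3, a4] at a1 a6
  have hn' : (0 : ℤ) < n := by exact_mod_cast hn
  refine le_of_mul_le_mul_left ?_ hn'
  linarith

end Pool.Agent.P.MP_41d1ec_co
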