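import Pool.Agent.P.MP_41d1ec_co.Cov
import Pool.Agent.P.MP_41d1ec_co.Dat0
import Pool.Agent.P.MP_41d1ec_co.Dat1
import Pool.Agent.P.MP_41d1ec_co.Dat2
import Pool.Agent.P.MP_41d1ec_co.Dat3
import Pool.Agent.P.MP_41d1ec_co.Dat4
import Pool.Agent.P.MP_41d1ec_co.Dat5
import Pool.Agent.P.MP_41d1ec_co.Dat6
import Pool.Agent.P.MP_41d1ec_co.Dat7
import Pool.Agent.P.MP_41d1ec_co.Dat8
import Pool.Agent.P.MP_41d1ec_co.Dat9
import Pool.Agent.P.MP_41d1ec_co.Dat10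
import Pool.Agent.P.MP_41d1ec_co.Dat11
import Pool.Agent.P.MP_41d1ec_co.Dat12
import Pool.Agent.P.MP_41d1ec_co.Dat13
import Pool.Agent.P.MP_41d1ec_co.Dat14
import Pool.Agent.P.MP_41d1ec_co.Dat15

/-! The certificates cover all parameters. -/

set_option autoImplicit false

namespace Pool.Agent.P.MP_41d1ec_co

def regs : List Hd :=
  [⟨1, 262080, 0, 52416, 17472, 20160⟩,
   ⟨1, 262132, 60492, 60492, 20164, 20164⟩,
   ⟨1, 262140, 69904, 69904, 17476, 17476⟩,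
   ⟨1, 262132, 80656, 80656, 20164, 20164⟩,
   ⟨1, 262140, 87380, 87380, 17476, 17476⟩,
   ⟨1, 262080, 100800, 104832, 17472, 20160⟩,
   ⟨1, 262140, 0, 61680, 15420, 15420⟩,
   ⟨1, 262140, 77100, 92520, 15420, 15420⟩,
   ⟨1, 262140, 107940, 107940, 15420, 15420⟩,
   ⟨0, 262128, 0, 65532, 16383, 21844⟩,
   ⟨0, 262080, 74880, 109200, 16380, 21840⟩,
   ⟨1, 262143, 0, 55188, 13797, 13797⟩,
   ⟨1, 262143, 68985, 68985, 13797, 13797⟩,
   ⟨1, 262143, 82782, 82782, 13797, 13797⟩,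
   ⟨1, 262143, 96579, 96579, 13797, 13797⟩,
   ⟨1, 262143, 110376, 110376, 13797, 13797⟩,
   ⟨1, 262143, 0, 87381, 87381, 262143⟩,
   ⟨0, 262144, 0, 65536, 65536, 131072⟩,
   ⟨1, 262115, 0, 104846, 37445, 52423⟩,
   ⟨0, 262140, 0, 104856, 26214, 43690⟩,
   ⟨1, 262053, 0, 29117, 23823, 29117⟩,
   ⟨1, 262053, 47646, 58234, 23823, 29117⟩,
   ⟨1, 262141, 71493, 71493, 23831, 23831⟩,
   ⟨1, 262143, 87381, 87381, 29127, 29127⟩,
   ⟨1, 262141, 95324, 95324, 23831, 23831⟩,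
   ⟨0, 261756, 0, 65439, 11898, 14542⟩,
   ⟨0, 261360, 71280, 91476, 11880, 14520⟩,
   ⟨0, 261954, 95256, 107163, 11907, 14553⟩,
   ⟨1, 261786, 0, 56910, 11382, 12466⟩,
   ⟨1, 261786, 62330, 68292, 11382, 12466⟩,
   ⟨1, 261786, 74796, 79674, 11382, 12466⟩,
   ⟨1, 261786, 87262, 91056, 11382, 12466⟩,
   ⟨1, 261786, 99728, 102438, 11382, 12466⟩,
   ⟨2, 261696, 0, 65424, 9024, 10904⟩,
   ⟨2, 137025, 35525, 39150, 4725, 5481⟩,
   ⟨2, 253344, 73892, 87696, 8736, 10556⟩,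
   ⟨2, 253344, 90480, 107184, 8736, 10556⟩,
   ⟨2, 262080, 0, 67392, 6720, 8736⟩,
   ⟨2, 253890, 65520, 73710, 6510, 8463⟩,
   ⟨2, 245310, 72150, 92820, 6290, 8177⟩,
   ⟨2, 218790, 83655, 92820, 5610, 7293⟩]

theorem regs_cov : ∀ x ∈ regs, Cov x := by
  simp only [regs, List.forall_mem_cons, List.not_mem_nil, IsEmpty.forall_iff, implies_true,
    and_true]
  exact ⟨cov_of c0 c0_ok,
    cov_of c1 c1_ok,
    cov_of c2 c2_ok,
    cov_of c3 c3_ok,
    cov_of c4 c4_ok,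
    cov_of c5 c5_ok,
    cov_of c6 c6_ok,
    cov_of c7 c7_ok,
    cov_of c8 c8_ok,
    cov_of c9 c9_ok,
    cov_of c10 c10_ok,
    cov_of c11 c11_ok,
    cov_of c12 c12_ok,
    cov_of c13 c13_ok,
    cov_of c14 c14_ok,
    cov_of c15 c15_ok,
    cov_of c16 c16_ok,
    cov_of c17 c17_ok,
    cov_of c22 c22_ok,
    cov_of c23 c23_ok,
    cov_of c24 c24_ok,
    cov_of c25 c25_ok,
    cov_of c26 c26_ok,
    cov_of c27 c27_ok,
    cov_of c28 c28_ok,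
    cov_of c29 c29_ok,
    cov_of c30 c30_ok,
    cov_of c31 c31_ok,
    cov_of c32 c32_ok,
    cov_of c33 c33_ok,
    cov_of c34 c34_ok,
    cov_of c35 c35_ok,
    cov_of c36 c36_ok,
    cov_of c37 c37_ok,
    cov_of c38 c38_ok,
    cov_of c39 c39_ok,
    cov_of c40 c40_ok,
    cov_of c41 c41_ok,
    cov_of c42 c42_ok,
    cov_of c43 c43_ok,
    cov_of c44 c44_ok⟩

theorem regs_all : ∀ n < 40, ∀ k < n, 7 * k < 3 * n → ∃ x ∈ regs, inR x n k := by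
  decide +kernel

theorem core_all {n k : ℕ} (h : 2 * k < n) : Core n k := by
  rcases le_or_gt (3 * n) (7 * k) with h1 | h1
  · exact core_A crtA crtA_ok (by decide) rfl (by decide) (by decide) h h1
  rcases lt_or_ge n 40 with h2 | h2
  · obtain ⟨x, hx, r⟩ := regs_all n h2 k (by omega) h1
    exact regs_cov x hx n k (by omega) r
  have g0 : Cov ⟨2, 262120, 0, 72083, 0, 6553⟩ := cov_of c18 c18_ok
  have g1 : Cov ⟨2, 262000, 72050, 74670, 0, 6550⟩ := cov_of c19 c19_ok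
  have g2 : Cov ⟨2, 262000, 74670, 96940, 0, 6550⟩ := cov_of c20 c20_ok
  have g3 : Cov ⟨2, 261800, 96866, 112200, 0, 6545⟩ := cov_of c21 c21_ok
  by_cases e0 : 262120 * k ≤ 72083 * n
  · exact g0 n k (by omega) (by unfold inR; simp only; omega)
  by_cases e1 : 262000 * k ≤ 74670 * n
  · exact g1 n k (by omega) (by unfold inR; simp only; omega)
  by_cases e2 : 262000 * k ≤ 96940 * n
  · exact g2 n k (by omega) (by unfold inR; simp only; omega)
  exact g3 n k (by omega) (by unfold inR; simp only; omega)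

end Pool.Agent.P.MP_41d1ec_co
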