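import Pool.Agent.P.MP_41d1ec_co.Defs

set_option autoImplicit false

namespace Pool.Agent.P.MP_41d1ec_co

open Finset Function

private theorem nb_iff' {n : ℕ} (v w : Cl n) :
    Nb v w ↔ (v 0 = w 0 ∧ v 1 = w 1) ∨ (v 0 = w 0 ∧ v 2 = w 2) ∨ (v 1 = w 1 ∧ v 2 = w 2) := by
  constructor
  · rintro ⟨p, q, hpq, hp, hq⟩
    fin_cases p <;> fin_cases q <;> simp_all
  · rintro (⟨h1, h2⟩ | ⟨h1, h2⟩ | ⟨h1, h2⟩)
    · exact ⟨0, 1, by decide, h1, h2⟩
    · exact ⟨0, 2, by decide, h1, h2⟩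
    · exact ⟨1, 2, by decide, h1, h2⟩

private theorem ham_iff {n : ℕ} (v w : Cl n) : (w = v ∨ hammingDist v w = 1) ↔ Nb v w := by
  have hd : hammingDist v w = (if v 0 ≠ w 0 then 1 else 0) + (if v 1 ≠ w 1 then 1 else 0) +
      (if v 2 ≠ w 2 then 1 else 0) := by
    unfold hammingDist
    rw [Finset.card_filter, Fin.sum_univ_three]
  have he : w = v ↔ v 0 = w 0 ∧ v 1 = w 1 ∧ v 2 = w 2 := by
    constructor
    · rintro rfl
      exact ⟨rfl, rfl, rfl⟩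
    · rintro ⟨h0, h1, h2⟩
      funext i
      fin_cases i
      · exact h0.symm
      · exact h1.symm
      · exact h2.symm
  rw [nb_iff', hd, he]
  by_cases h0 : v 0 = w 0 <;> by_cases h1 : v 1 = w 1 <;> by_cases h2 : v 2 = w 2 <;>
    simp [h0, h1, h2]

private theorem mi_of_max {n : ℕ} (S : Finset (Cl n))
    (h1 : ∀ v ∈ S, ∃ w : Cl n, Nb v w ∧ ∀ u ∈ S, u ≠ v → ¬ Nb u w)
    (h2 : ∀ T : Finset (Cl n), S ⊆ T →
      (∀ v ∈ T, ∃ w : Cl n, Nb v w ∧ ∀ u ∈ T, u ≠ v → ¬ Nb u w) → T = S) : MI S := by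
  refine ⟨fun u hu => h1 u hu, ?_⟩
  rintro c hc ⟨w, hcw, hw⟩
  by_contra hcon
  push Not at hcon
  have hT := h2 (insert c S) (Finset.subset_insert c S) (by
    intro v hv
    rcases Finset.mem_insert.1 hv with rfl | hv
    · refine ⟨w, hcw, fun u hu hne => ?_⟩
      rcases Finset.mem_insert.1 hu with rfl | hu
      · exact absurd rfl hne
      · exact hw u hu
    · obtain ⟨w', hw1, hw2⟩ := hcon v hv
      refine ⟨w', hw1.1, fun u hu hne => ?_⟩
      rcases Finset.mem_insert.1 hu with rfl | hu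
      · exact hw2
      · exact hw1.2 u hu hne)
  exact hc (hT ▸ Finset.mem_insert_self c S)

/-- transport along a permutation of the coordinates -/
private def pm {n : ℕ} (σ : Equiv.Perm (Fin 3)) : Cl n ≃ Cl n where
  toFun c := c ∘ σ
  invFun c := c ∘ σ.symm
  left_inv c := by funext i; simp
  right_inv c := by funext i; simp

private theorem nb_pm {n : ℕ} (σ : Equiv.Perm (Fin 3)) (c d : Cl n) :
    Nb (pm σ c) (pm σ d) ↔ Nb c d := by
  constructor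
  · rintro ⟨p, q, hpq, hp, hq⟩
    exact ⟨σ p, σ q, fun h => hpq (σ.injective h), hp, hq⟩
  · rintro ⟨p, q, hpq, hp, hq⟩
    refine ⟨σ.symm p, σ.symm q, fun h => hpq (σ.symm.injective h), ?_, ?_⟩
    · simpa [pm] using hp
    · simpa [pm] using hq

private theorem mem_pm {n : ℕ} (σ : Equiv.Perm (Fin 3)) (S : Finset (Cl n)) (c : Cl n) :
    pm σ c ∈ S.map (pm σ).toEmbedding ↔ c ∈ S := by
  simp

private theorem pn_pm {n : ℕ} (σ : Equiv.Perm (Fin 3)) (S : Finset (Cl n)) (u w : Cl n) :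
    PN (S.map (pm σ).toEmbedding) (pm σ u) (pm σ w) ↔ PN S u w := by
  unfold PN
  rw [nb_pm]
  refine and_congr Iff.rfl ⟨fun h v hv hne => ?_, fun h v hv hne => ?_⟩
  · rw [← nb_pm σ]
    exact h _ ((mem_pm σ S v).2 hv) (fun e => hne ((pm σ).injective e))
  · obtain ⟨v, rfl⟩ := (pm σ).surjective v
    rw [nb_pm]
    exact h v ((mem_pm σ S v).1 hv) (fun e => hne (by rw [e]))

private theorem und_pm {n : ℕ} (σ : Equiv.Perm (Fin 3)) (S : Finset (Cl n)) (w : Cl n) :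
    Und (S.map (pm σ).toEmbedding) (pm σ w) ↔ Und S w := by
  unfold Und
  refine ⟨fun h v hv => ?_, fun h v hv => ?_⟩
  · rw [← nb_pm σ]
    exact h _ ((mem_pm σ S v).2 hv)
  · obtain ⟨v, rfl⟩ := (pm σ).surjective v
    rw [nb_pm]
    exact h v ((mem_pm σ S v).1 hv)

private theorem mi_pm {n : ℕ} (σ : Equiv.Perm (Fin 3)) (S : Finset (Cl n)) (h : MI S) :
    MI (S.map (pm σ).toEmbedding) := by
  constructor
  · intro u hu
    obtain ⟨u, rfl⟩ := (pm σ).surjective u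
    obtain ⟨w, hw⟩ := h.irr u ((mem_pm σ S u).1 hu)
    exact ⟨pm σ w, (pn_pm σ S u w).2 hw⟩
  · rintro c hc ⟨w, hcw, hw⟩
    obtain ⟨c, rfl⟩ := (pm σ).surjective c
    obtain ⟨w, rfl⟩ := (pm σ).surjective w
    obtain ⟨u, hu, hu2⟩ := h.mx c (fun e => hc ((mem_pm σ S c).2 e))
      ⟨w, (nb_pm σ c w).1 hcw, (und_pm σ S w).1 hw⟩
    refine ⟨pm σ u, (mem_pm σ S u).2 hu, fun w' hw' => ?_⟩
    obtain ⟨w', rfl⟩ := (pm σ).surjective w'
    exact (nb_pm σ c w').2 (hu2 w' ((pn_pm σ S u w').1 hw'))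

private theorem hd_pm {n : ℕ} (σ : Equiv.Perm (Fin 3)) (S : Finset (Cl n)) (p : Fin 3)
    (v : Fin n) (q : Fin 3) :
    hd (S.map (pm σ).toEmbedding) p v q = hd S (σ p) v (σ q) := by
  unfold hd
  congr 1
  ext w
  simp only [Finset.mem_filter, Finset.mem_univ, true_and]
  constructor
  · rintro ⟨u, hu, h1, h2⟩
    obtain ⟨u, rfl⟩ := (pm σ).surjective u
    exact ⟨u, (mem_pm σ S u).1 hu, h1, h2⟩
  · rintro ⟨u, hu, h1, h2⟩
    exact ⟨pm σ u, (mem_pm σ S u).2 hu, h1, h2⟩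

private theorem hd_le {n : ℕ} (S : Finset (Cl n)) (p : Fin 3) (v : Fin n) (q : Fin 3) :
    hd S p v q ≤ (S.filter fun u => u p = v).card := by
  unfold hd
  refine le_trans (Finset.card_le_card ?_) (Finset.card_image_le (f := fun u : Cl n => u q))
  intro w hw
  simp only [Finset.mem_filter, Finset.mem_univ, true_and] at hw
  obtain ⟨u, hu, h1, h2⟩ := hw
  exact Finset.mem_image.2 ⟨u, Finset.mem_filter.2 ⟨hu, h1⟩, h2⟩

private theorem bound
    (core : ∀ (n : ℕ) (S : Finset (Cl n)) (k : ℕ) (z : Fin n), MI S → 2 * k < n →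
      (∀ p v, ∃ q, q ≠ p ∧ k ≤ hd S p v q) → hd S 2 z 0 ≤ k → hd S 2 z 1 ≤ k →
      n ^ 2 ≤ 2 * S.card) {n : ℕ} (S : Finset (Cl n)) (h : MI S) : n ^ 2 ≤ 2 * S.card := by
  rcases Nat.eq_zero_or_pos n with rfl | hn
  · simp
  have : Nonempty (Fin n) := ⟨⟨0, hn⟩⟩
  obtain ⟨⟨p0, z⟩, hmin⟩ := Finite.exists_min (fun x : Fin 3 × Fin n =>
    max (hd S x.1 x.2 (x.1 + 1)) (hd S x.1 x.2 (x.1 + 2)))
  set k := max (hd S p0 z (p0 + 1)) (hd S p0 z (p0 + 2)) with hk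
  have hlow : ∀ p v, ∃ q, q ≠ p ∧ k ≤ hd S p v q := by
    intro p v
    have h1 : p + 1 ≠ p := by revert p; decide
    have h2 : p + 2 ≠ p := by revert p; decide
    rcases le_max_iff.1 (hmin (p, v)) with h3 | h3
    · exact ⟨p + 1, h1, h3⟩
    · exact ⟨p + 2, h2, h3⟩
  have hup : ∀ q, q ≠ p0 → hd S p0 z q ≤ k := by
    intro q hq
    have : q = p0 + 1 ∨ q = p0 + 2 := by
      clear hk hlow hmin
      clear k
      revert p0 q
      decide
    rcases this with rfl | rfl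
    · exact le_max_left _ _
    · exact le_max_right _ _
  by_cases hkn : 2 * k < n
  · have hc := core n (S.map (pm (Equiv.swap 2 p0)).toEmbedding) k z (mi_pm _ S h) hkn ?_ ?_ ?_
    · simpa using hc
    · intro p v
      obtain ⟨q, hq, hq2⟩ := hlow (Equiv.swap 2 p0 p) v
      refine ⟨(Equiv.swap 2 p0).symm q, fun e => hq ?_, ?_⟩
      · rw [← e]; simp
      · rw [hd_pm]
        simpa using hq2
    · rw [hd_pm, Equiv.swap_apply_left]
      refine hup _ fun e => ?_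
      have : Equiv.swap 2 p0 0 = Equiv.swap 2 p0 2 := by rw [e, Equiv.swap_apply_left]
      exact absurd ((Equiv.swap 2 p0).injective this) (by decide)
    · rw [hd_pm, Equiv.swap_apply_left]
      refine hup _ fun e => ?_
      have : Equiv.swap 2 p0 1 = Equiv.swap 2 p0 2 := by rw [e, Equiv.swap_apply_left]
      exact absurd ((Equiv.swap 2 p0).injective this) (by decide)
  · have hsum : S.card = ∑ v : Fin n, (S.filter fun u => u 2 = v).card :=
      Finset.card_eq_sum_card_fiberwise (f := fun u : Cl n => u 2) (fun u _ => Finset.mem_univ _)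
    have hle : ∑ _v : Fin n, k ≤ ∑ v : Fin n, (S.filter fun u => u 2 = v).card := by
      refine Finset.sum_le_sum fun v _ => ?_
      obtain ⟨q, -, hq⟩ := hlow 2 v
      exact hq.trans (hd_le S 2 v q)
    rw [← hsum] at hle
    simp only [Finset.sum_const, Finset.card_univ, Fintype.card_fin, smul_eq_mul] at hle
    have : n ≤ 2 * k := not_lt.1 hkn
    nlinarith

private theorem latin {n m : ℕ} (e : Fin m → Fin n) :
    ∃ D : Finset (Cl n), D.card ≤ m ^ 2 ∧ ∀ w : Cl n,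
      ((w 0 ∈ Set.range e ∧ w 1 ∈ Set.range e) ∨ (w 0 ∈ Set.range e ∧ w 2 ∈ Set.range e) ∨
        (w 1 ∈ Set.range e ∧ w 2 ∈ Set.range e)) → ∃ v ∈ D, Nb v w := by
  rcases Nat.eq_zero_or_pos m with rfl | hm
  · refine ⟨∅, by simp, fun w hw => ?_⟩
    rcases hw with ⟨⟨x, -⟩, -⟩ | ⟨⟨x, -⟩, -⟩ | ⟨⟨x, -⟩, -⟩ <;> exact x.elim0
  have : NeZero m := ⟨hm.ne'⟩
  refine ⟨Finset.univ.image fun x : Fin m × Fin m => ![e x.1, e x.2, e (x.1 + x.2)], ?_, ?_⟩
  · refine Finset.card_image_le.trans ?_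
    simp [sq]
  · intro w hw
    rcases hw with ⟨⟨x, hx⟩, ⟨y, hy⟩⟩ | ⟨⟨x, hx⟩, ⟨y, hy⟩⟩ | ⟨⟨x, hx⟩, ⟨y, hy⟩⟩
    · refine ⟨_, Finset.mem_image.2 ⟨(x, y), Finset.mem_univ _, rfl⟩, ?_⟩
      rw [nb_iff']
      left
      simp [hx, hy]
    · refine ⟨_, Finset.mem_image.2 ⟨(x, y - x), Finset.mem_univ _, rfl⟩, ?_⟩
      rw [nb_iff']
      right; left
      simp [hx, hy]
    · refine ⟨_, Finset.mem_image.2 ⟨(y - x, x), Finset.mem_univ _, rfl⟩, ?_⟩
      rw [nb_iff']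
      right; right
      simp [hx, hy]

private theorem dom_small (n : ℕ) :
    ∃ D : Finset (Cl n), 2 * D.card ≤ n ^ 2 + 1 ∧ ∀ w : Cl n, ∃ v ∈ D, Nb v w := by
  obtain ⟨D1, c1, h1⟩ := latin (n := n) (m := n / 2) (fun i => ⟨i, by omega⟩)
  obtain ⟨D2, c2, h2⟩ := latin (n := n) (m := n - n / 2) (fun i => ⟨n / 2 + i, by omega⟩)
  refine ⟨D1 ∪ D2, ?_, fun w => ?_⟩
  · have hc := Finset.card_union_le D1 D2
    have : 2 * ((n / 2) ^ 2 + (n - n / 2) ^ 2) ≤ n ^ 2 + 1 := by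
      rcases Nat.even_or_odd' n with ⟨a, rfl | rfl⟩
      · have e1 : 2 * a / 2 = a := by omega
        have e2 : 2 * a - a = a := by omega
        rw [e1, e2]; nlinarith
      · have e1 : (2 * a + 1) / 2 = a := by omega
        have e2 : 2 * a + 1 - a = a + 1 := by omega
        rw [e1, e2]; nlinarith
    omega
  · have hr : ∀ x : Fin n,
        x ∈ Set.range (fun i : Fin (n / 2) => (⟨i, by omega⟩ : Fin n)) ∨
        x ∈ Set.range (fun i : Fin (n - n / 2) => (⟨n / 2 + i, by omega⟩ : Fin n)) := by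
      intro x
      by_cases hx : (x : ℕ) < n / 2
      · exact Or.inl ⟨⟨x, hx⟩, rfl⟩
      · refine Or.inr ⟨⟨x - n / 2, by omega⟩, Fin.ext ?_⟩
        simp only
        omega
    have key : (∃ v ∈ D1, Nb v w) ∨ (∃ v ∈ D2, Nb v w) := by
      rcases hr (w 0) with a0 | a0 <;> rcases hr (w 1) with a1 | a1 <;>
        rcases hr (w 2) with a2 | a2
      · exact Or.inl (h1 w (Or.inl ⟨a0, a1⟩))
      · exact Or.inl (h1 w (Or.inl ⟨a0, a1⟩))
      · exact Or.inl (h1 w (Or.inr (Or.inl ⟨a0, a2⟩)))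
      · exact Or.inr (h2 w (Or.inr (Or.inr ⟨a1, a2⟩)))
      · exact Or.inl (h1 w (Or.inr (Or.inr ⟨a1, a2⟩)))
      · exact Or.inr (h2 w (Or.inr (Or.inl ⟨a0, a2⟩)))
      · exact Or.inr (h2 w (Or.inl ⟨a0, a1⟩))
      · exact Or.inr (h2 w (Or.inl ⟨a0, a1⟩))
    rcases key with ⟨v, hv, hvw⟩ | ⟨v, hv, hvw⟩
    · exact ⟨v, Finset.mem_union_left _ hv, hvw⟩
    · exact ⟨v, Finset.mem_union_right _ hv, hvw⟩

/-- Reduction of the frozen statement to the core bound. -/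
theorem outer
    (core : ∀ (n : ℕ) (S : Finset (Cl n)) (k : ℕ) (z : Fin n), MI S → 2 * k < n →
      (∀ p v, ∃ q, q ≠ p ∧ k ≤ hd S p v q) → hd S 2 z 0 ≤ k → hd S 2 z 1 ≤ k →
      n ^ 2 ≤ 2 * S.card) :
    ∀ (n : ℕ) (G : SimpleGraph (Fin 3 → Fin n)),
      (∀ x y : Fin 3 → Fin n, G.Adj x y ↔ hammingDist x y = 1) →
      sInf {k : ℕ | ∃ S : Finset (Fin 3 → Fin n),
          (∀ v ∈ S, ∃ w : Fin 3 → Fin n, (w = v ∨ G.Adj v w) ∧
              ∀ u ∈ S, u ≠ v → ¬ (w = u ∨ G.Adj u w)) ∧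
          (∀ T : Finset (Fin 3 → Fin n), S ⊆ T →
              (∀ v ∈ T, ∃ w : Fin 3 → Fin n, (w = v ∨ G.Adj v w) ∧
                  ∀ u ∈ T, u ≠ v → ¬ (w = u ∨ G.Adj u w)) → T = S) ∧
          S.card = k}
      = sInf {k : ℕ | ∃ S : Finset (Fin 3 → Fin n),
          (∀ w : Fin 3 → Fin n, ∃ v ∈ S, w = v ∨ G.Adj v w) ∧ S.card = k} := by
  intro n G hG
  have hN : ∀ v w : Fin 3 → Fin n, (w = v ∨ G.Adj v w) ↔ Nb v w := fun v w => by
    rw [hG, ham_iff]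
  simp only [hN]
  set A := {k : ℕ | ∃ S : Finset (Fin 3 → Fin n),
          (∀ v ∈ S, ∃ w : Fin 3 → Fin n, Nb v w ∧ ∀ u ∈ S, u ≠ v → ¬ Nb u w) ∧
          (∀ T : Finset (Fin 3 → Fin n), S ⊆ T →
              (∀ v ∈ T, ∃ w : Fin 3 → Fin n, Nb v w ∧ ∀ u ∈ T, u ≠ v → ¬ Nb u w) → T = S) ∧
          S.card = k} with hA
  set B := {k : ℕ | ∃ S : Finset (Fin 3 → Fin n),
          (∀ w : Fin 3 → Fin n, ∃ v ∈ S, Nb v w) ∧ S.card = k} with hB
  obtain ⟨D0, hD0c, hD0⟩ := dom_small n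
  have hD0B : D0.card ∈ B := ⟨D0, hD0, rfl⟩
  obtain ⟨D, hD, hDc⟩ : sInf B ∈ B := Nat.sInf_mem ⟨_, hD0B⟩
  have hDA : D.card ∈ A := by
    refine ⟨D, ?_, ?_, rfl⟩
    · intro v hv
      by_contra hcon
      push Not at hcon
      have hE : (D.erase v).card ∈ B := by
        refine ⟨D.erase v, fun w => ?_, rfl⟩
        obtain ⟨u, hu, huw⟩ := hD w
        by_cases huv : u = v
        · subst huv
          obtain ⟨u', hu', hne, hu'w⟩ := hcon w huw
          exact ⟨u', Finset.mem_erase.2 ⟨hne, hu'⟩, hu'w⟩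
        · exact ⟨u, Finset.mem_erase.2 ⟨huv, hu⟩, huw⟩
      have h1 := Nat.sInf_le hE
      have h2 := Finset.card_erase_lt_of_mem hv
      omega
    · intro T hDT hT
      refine Finset.Subset.antisymm (fun v hv => ?_) hDT
      by_contra hvD
      obtain ⟨w, -, hw⟩ := hT v hv
      obtain ⟨u, hu, huw⟩ := hD w
      exact hw u (hDT hu) (fun e => hvD (e ▸ hu)) huw
  obtain ⟨S, hS1, hS2, hSc⟩ : sInf A ∈ A := Nat.sInf_mem ⟨_, hDA⟩
  have h1 := Nat.sInf_le hDA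
  have h2 := Nat.sInf_le hD0B
  have h3 := bound core S (mi_of_max S hS1 hS2)
  omega

end Pool.Agent.P.MP_41d1ec_co
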