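import Pool.Agent.P.MP_41d1ec_co.Cell

/-! Soundness of the rook test and the sum over all cells. -/

set_option autoImplicit false

namespace Pool.Agent.P.MP_41d1ec_co

open Finset Function Classical

variable {n : ℕ} {S : Finset (Cl n)} {κ : Fin 3 → Fin n → ℕ} {C : Ct}

/-- mark code of a rook at its vertex in direction `p` -/
noncomputable def mkv (S : Finset (Cl n)) (κ : Fin 3 → Fin n → ℕ) (u : Cl n) (p : Fin 3) : ℕ :=
  if Own S u p then 1 + cb (κ (sd S u) (ap S u)) else 0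

/-- mark code of a rook at its apex -/
noncomputable def apc (S : Finset (Cl n)) (κ : Fin 3 → Fin n → ℕ) (u : Cl n) (q : Fin 3) : ℕ :=
  if Own S u q then 1 + cb (κ q (u q)) else 0

noncomputable def okR (md : ℕ) (S : Finset (Cl n)) (κ : Fin 3 → Fin n → ℕ) (u : Cl n) (p : Fin 3)
    (m : ℕ) : Bool :=
  okRole md (κ p (u p)) (hc S u p (sa p)) (cb (κ (sa p) (u (sa p)))) (hc S u p (sb p))
    (cb (κ (sb p) (u (sb p)))) m

noncomputable def prc (P : ℕ) (S : Finset (Cl n)) (κ : Fin 3 → Fin n → ℕ) (u : Cl n) (p : Fin 3)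
    (m : ℕ) : ℕ :=
  pd P (κ p (u p)) (hc S u p (sa p)) (cb (κ (sa p) (u (sa p)))) (hc S u p (sb p))
    (cb (κ (sb p) (u (sb p)))) m

noncomputable def tau (X : ℕ) (S : Finset (Cl n)) (κ : Fin 3 → Fin n → ℕ) (u : Cl n) : ℕ :=
  td X (κ (sd S u) (ap S u)) (apc S κ u (sa (sd S u))) (apc S κ u (sb (sd S u)))

theorem cwd_eq (W : ℕ) (d : Cl n) (f : Fin 3) :
    cwd W f (κ f (d f)) (κ (f + 1) (d (f + 1))) (κ (f + 2) (d (f + 2))) (hc S d (f + 1) f)
      (hc S d (f + 2) f) (hc S d (f + 1) (f + 2)) = cwN S κ W d := by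
  unfold cwd
  rw [hc_oth d (fin3_a f), hc_oth d (fin3_b f), hc_oth d (fin3_c f)]
  fin_cases f
  · rfl
  · change wv S κ W d 1 + wv S κ W d 2 + wv S κ W d 0 = _
    unfold cwN; ring
  · change wv S κ W d 2 + wv S κ W d 0 + wv S κ W d 1 = _
    unfold cwN; ring

theorem roles_eq (md : ℕ) (d : Cl n) (f : Fin 3) (m : Fin 3 → ℕ) (hm : m f = 0)
    (h : roles3 md f (κ f (d f)) (κ (f + 1) (d (f + 1))) (κ (f + 2) (d (f + 2))) (hc S d (f + 1) f)
      (hc S d (f + 2) f) (hc S d (f + 1) (f + 2)) (m (f + 1)) (m (f + 2)) = true) (p : Fin 3) :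
    okR md S κ d p (m p) = true := by
  unfold roles3 at h
  rw [hc_oth d (fin3_a f), hc_oth d (fin3_b f), hc_oth d (fin3_c f), both_iff, both_iff] at h
  obtain ⟨h0, h1, h2⟩ := h
  have h3 : okR md S κ d f (m f) = true := by
    rw [hm]; fin_cases f <;> exact h0
  have h4 : okR md S κ d (f + 1) (m (f + 1)) = true := by
    fin_cases f <;> exact h1
  have h5 : okR md S κ d (f + 2) (m (f + 2)) = true := by
    fin_cases f <;> exact h2
  rcases fin3_cases f (f + 1) (f + 2) p (fin3_a f).symm (fin3_b f).symm (fin3_c f) with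
    rfl | rfl | rfl
  exacts [h3, h4, h5]

theorem price_eq (P : ℕ) (d : Cl n) (f : Fin 3) (m : Fin 3 → ℕ) (hm : m f = 0) :
    price3 P f (κ f (d f)) (κ (f + 1) (d (f + 1))) (κ (f + 2) (d (f + 2))) (hc S d (f + 1) f)
      (hc S d (f + 2) f) (hc S d (f + 1) (f + 2)) (m (f + 1)) (m (f + 2))
      = ∑ p, prc P S κ d p (m p) := by
  unfold price3
  rw [hc_oth d (fin3_a f), hc_oth d (fin3_b f), hc_oth d (fin3_c f), Fin.sum_univ_three]
  fin_cases f
  · change prc P S κ d 0 0 + prc P S κ d 1 (m 1) + prc P S κ d 2 (m 2) = _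
    rw [show m 0 = 0 from hm]
  · change prc P S κ d 1 0 + prc P S κ d 2 (m 2) + prc P S κ d 0 (m 0) = _
    rw [show m 1 = 0 from hm]; ring
  · change prc P S κ d 2 0 + prc P S κ d 0 (m 0) + prc P S κ d 1 (m 1) = _
    rw [show m 2 = 0 from hm]; ring

/-- the range of `1 / n` -/
structure Rng (C : Ct) (n : ℕ) : Prop where
  pos : 0 < C.den
  lo : n * C.b1 ≤ C.den
  hi : C.den ≤ n * C.b2

theorem rk2_sound (hR : Rng C n) {p p0 w w0 : ℕ} (h : rk2 C p p0 w w0 = true) :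
    (w : ℤ) - w0 ≤ n * ((p : ℤ) - p0) := by
  unfold rk2 at h
  simp only [frc_eq, both_iff, ble_iff, Nat.add_eq, Nat.mul_eq] at h
  obtain ⟨h1, h2⟩ := h
  have h0 : (0 : ℤ) < C.den := by exact_mod_cast hR.pos
  have h3 : (n : ℤ) * C.b1 ≤ C.den := by exact_mod_cast hR.lo
  have h4 : (C.den : ℤ) ≤ n * C.b2 := by exact_mod_cast hR.hi
  zify at h1 h2
  have hn : (0 : ℤ) ≤ n := by positivity
  refine le_of_mul_le_mul_left ?_ h0
  rcases le_total ((w : ℤ) - w0) 0 with h5 | h5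
  · nlinarith [mul_le_mul_of_nonneg_left h1 hn, mul_le_mul_of_nonpos_right h3 h5]
  · nlinarith [mul_le_mul_of_nonneg_left h2 hn, mul_le_mul_of_nonneg_right h4 h5]

noncomputable def ext4 (X : ℕ) (S : Finset (Cl n)) (κ : Fin 3 → Fin n → ℕ) (u : Cl n) : ℕ :=
  k1d X (κ (sd S u) (u (sd S u))) (κ (sd S u + 1) (u (sd S u + 1)))
    + k1d X (κ (sd S u) (u (sd S u))) (κ (sd S u + 2) (u (sd S u + 2)))
    + kcd X (κ (sd S u) (u (sd S u)))

/-- weight attributed to a rook -/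
noncomputable def att (C : Ct) (S : Finset (Cl n)) (κ : Fin 3 → Fin n → ℕ) (u : Cl n) : ℤ :=
  ((cwN S κ C.W u : ℤ) - 25165824)
    + (if rk S u = 2 then (cwN S κ C.W (apx S u) : ℤ) - 25165824 else 0)
    + (if rk S u = 4 then (ext4 C.X S κ u : ℤ) else 0)

/-- price of a rook -/
noncomputable def Pz (C : Ct) (S : Finset (Cl n)) (κ : Fin 3 → Fin n → ℕ) (u : Cl n) : ℤ :=
  ∑ p, sI (prc C.P S κ u p (mkv S κ u p)) - if rk S u = 2 then sI (tau C.X S κ u) else 0

theorem sum_sI (g : Fin 3 → ℕ) : ∑ p, sI (g p) = ((∑ p, g p : ℕ) : ℤ) - 25165824 := by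
  simp only [Fin.sum_univ_three, sI]; push_cast; ring

theorem rook1_sound (hK : Cls C.md S κ) (hR : Rng C n) (u : Cl n) (f : Fin 3) (x : ℕ)
    (h2 : rk S u ≠ 2) {a c e : ℕ} (ha : hc S u (f + 1) f = a) (hc' : hc S u (f + 2) f = c)
    (he : hc S u (f + 1) (f + 2) = e)
    (h : rook1 C f (κ f (u f)) (κ (f + 1) (u (f + 1))) (κ (f + 2) (u (f + 2))) a c e x = true) :
    (∀ p, okR C.md S κ u p (mkv S κ u p) = true) ∧
      (cwN S κ C.W u : ℤ) - 25165824 + x ≤ n * Pz C S κ u := by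
  subst ha hc' he
  have hm : ∀ p, mkv S κ u p = 0 := fun p => if_neg fun o => h2 o.1
  unfold rook1 at h
  rw [imp_iff, both_iff, both_iff, both_iff] at h
  obtain ⟨h3, h4⟩ := h ⟨okL_hc hK (fin3_a f) u, okL_hc hK (fin3_b f) u, okL_hc hK (fin3_c f) u⟩
  refine ⟨fun p => ?_, ?_⟩
  · rw [hm]; exact roles_eq C.md u f (fun _ => 0) rfl h3 p
  · have h5 := rk2_sound hR h4
    rw [cwd_eq, price_eq C.P u f (fun _ => 0) rfl, Nat.add_eq, Nat.cast_add] at h5
    unfold Pz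
    rw [if_neg h2, sum_sI]
    simp only [hm]
    have e : ((25165824 : ℕ) : ℤ) = 25165824 := rfl
    rw [e] at h5
    linarith

theorem okL_78 : ∀ k1 < 4, ∀ k2 < 4, okL 8 k1 k2 = okL 7 k1 k2 := by decide +kernel

theorem same_rook {u u' : Cl n} (hu : u ∈ S) (hu' : u' ∈ S) {p q : Fin 3} (h1 : u' p = u p)
    (h2 : u' q = u q) (h5 : hc S u p q ≠ 5) : u' = u := by
  by_contra hne
  exact h5 (hc_two hu hu' hne h1 h2)

/-- a closed simple line between two vertices of class one carries a rook of kind four -/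
theorem gg_nine (hK : Cls C.md S κ) {u : Cl n} (hu : u ∈ S) {p q : Fin 3} (hpq : p ≠ q)
    (h9 : hc S u q p = 9) (h1 : κ p (u p) = 1) (h2 : κ q (u q) = 1) : rk S u = 4 := by
  obtain ⟨r, hpr, hqr⟩ := third p q hpq
  obtain ⟨c, e1, e2, -, a1, a2⟩ := gg_cell hK hpq hpr hqr h1 h2
  have h10 : hc S u p q = 10 := by rw [hc_ot u hpq.symm, h9]; rfl
  have h11 : hc S c p q = 10 := by rw [← h10]; unfold hc; rw [e1, e2]
  obtain ⟨u', hu', b1, b2, b3, -⟩ := (closed_line c hpq hpr hqr a1 a2).2.2.2 h11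
  rw [← same_rook hu hu' (b1.trans e1) (b2.trans e2) (by omega)]
  exact b3

theorem gg_apex (hK : Cls C.md S κ) {u : Cl n} (hu : u ∈ S) {p q : Fin 3} (hpq : p ≠ q)
    (h7 : hc S u p q = 7 ∨ hc S u p q = 8) (h1 : κ p (u p) = 1) (h2 : κ q (u q) = 1) :
    κ (sd S u) (ap S u) = 3 := by
  obtain ⟨r, hpr, hqr⟩ := third p q hpq
  obtain ⟨c, e1, e2, e3, a1, a2⟩ := gg_cell hK hpq hpr hqr h1 h2
  have h11 : hc S c p q = hc S u p q := by unfold hc; rw [e1, e2]
  obtain ⟨u', hu', b1, b2, -, b4, b5⟩ := (closed_line c hpq hpr hqr a1 a2).2.2.1 (h11 ▸ h7)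
  rw [← same_rook hu hu' (b1.trans e1) (b2.trans e2) (by omega), ← apx_sd, ← b5, b4]
  exact e3

theorem pq_ex {t : ℕ} (h : t = 5 ∨ t = 9) : ∃ i, i < 2 ∧ t = pq i ∧ (i = 1 ↔ t = 9) := by
  rcases h with rfl | rfl
  · exact ⟨0, by decide, rfl, by decide⟩
  · exact ⟨1, by decide, rfl, by decide⟩

theorem gg_iff (a b : ℕ) : gg a b = true ↔ a = 1 ∧ b = 1 := by
  unfold gg; rw [both_iff, beq_iff, beq_iff]

theorem skip_of {i j a b c : ℕ} {X Y : Bool}
    (h : sel (sel (both (Nat.beq i 1) (gg a b)) true (both (Nat.beq j 1) (gg a c))) true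
      (both X Y) = true) (h1 : ¬ (i = 1 ∧ a = 1 ∧ b = 1)) (h2 : ¬ (j = 1 ∧ a = 1 ∧ c = 1)) :
    X = true ∧ Y = true := by
  simp only [sel_eq, both_iff, beq_iff, gg_iff, if_neg h1, if_neg h2] at h
  exact h

theorem mark_ex {o : Prop} {t : ℕ} (h : t = 2 ∨ (¬ o ∧ t = 3)) :
    ∃ x, x < 3 ∧ t = mty x ∧ ∀ k, mkc x k = if o then 1 + cb k else 0 := by
  by_cases ho : o
  · refine ⟨0, by decide, ?_, fun k => by rw [if_pos ho]; rfl⟩
    rcases h with h | h
    · exact h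
    · exact absurd ho h.1
  · rcases h with h | h
    · exact ⟨1, by decide, h, fun k => by rw [if_neg ho]; rfl⟩
    · exact ⟨2, by decide, h.2, fun k => by rw [if_neg ho]; rfl⟩

theorem tsw_eq (X k : ℕ) (f : Fin 3) (m : Fin 3 → ℕ) :
    tsw X (Nat.beq f 1) k (m (f + 1)) (m (f + 2)) = td X k (m (sa f)) (m (sb f)) := by
  fin_cases f <;> rfl

theorem rook_sound (hK : Cls C.md S κ) (hR : Rng C n) (h : chkRooks C = true) {u : Cl n}
    (hu : u ∈ S) :
    (∀ p, okR C.md S κ u p (mkv S κ u p) = true) ∧ att C S κ u ≤ n * Pz C S κ u := by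
  have h1 := allK_iff _ _ h (hK.lt 0 (u 0)) (hK.lt 1 (u 1)) (hK.lt 2 (u 2)) (hK.dir 0 _)
    (hK.dir 1 _) (hK.dir 2 _)
  rw [both_iff, both_iff, both_iff, both_iff] at h1
  obtain ⟨r0, r1, f0, f1, f2⟩ := h1
  have hF : ∀ f : Fin 3,
      rookF C f (κ f (u f)) (κ (f + 1) (u (f + 1))) (κ (f + 2) (u (f + 2))) = true := by
    intro f; fin_cases f
    exacts [f0, f1, f2]
  have hF' := hF (sd S u)
  unfold rookF at hF'
  rw [both_iff] at hF'
  obtain ⟨g4, g3⟩ := hF'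
  simp only [allN_iff] at r0 g3
  have G := fun (h4 : rk S u ≠ 4) i (hi : i < 2) j (hj : j < 2)
      (e1 : i = 1 ↔ hc S u (sd S u + 1) (sd S u) = 9)
      (e2 : j = 1 ↔ hc S u (sd S u + 2) (sd S u) = 9) => skip_of (g3 i hi j hj)
    (fun c => h4 (gg_nine hK hu (fin3_a _).symm (e1.1 c.1) c.2.1 c.2.2))
    (fun c => h4 (gg_nine hK hu (fin3_b _).symm (e2.1 c.1) c.2.1 c.2.2))
  unfold att
  rcases rook_types hu with ⟨k, -, t⟩ | ⟨k, -, t⟩ | ⟨k, ta, tc, tp, te, tm⟩ | ⟨k, ta, tc, te⟩ |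
    ⟨k, ta, tc, te⟩
  · have B : ∀ p q, p ≠ q → ∃ i, i < 2 ∧ hc S u p q = Nat.add 4 i := by
      intro p q hpq
      rcases t p q hpq with e | e
      · exact ⟨0, by decide, e⟩
      · exact ⟨1, by decide, e⟩
    obtain ⟨a, a1, a2⟩ := B _ _ (fin3_a 0)
    obtain ⟨c, c1, c2⟩ := B _ _ (fin3_b 0)
    obtain ⟨e, e1, e2⟩ := B _ _ (fin3_c 0)
    have := rook1_sound hK hR u 0 0 (by omega) a2 c2 e2 (r0 a a1 c c1 e e1)
    rw [if_neg (by omega), if_neg (by omega)]
    exact ⟨this.1, by simpa using this.2⟩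
  · have := rook1_sound hK hR u 0 0 (by omega) (t _ _ (fin3_a 0)) (t _ _ (fin3_b 0))
      (t _ _ (fin3_c 0)) r1
    rw [if_neg (by omega), if_neg (by omega)]
    exact ⟨this.1, by simpa using this.2⟩
  · obtain ⟨i, i1, i2, i3⟩ := pq_ex ta
    obtain ⟨j, j1, j2, j3⟩ := pq_ex tc
    obtain ⟨x, x1, x2, x3⟩ := mark_ex (tm _ (fin3_a _))
    obtain ⟨y, y1, y2, y3⟩ := mark_ex (tm _ (fin3_b _))
    obtain ⟨e, e1, e2⟩ : ∃ e, e < 2 ∧ hc S u (sd S u + 1) (sd S u + 2) = Nat.add 7 e := by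
      rcases te with e | e
      · exact ⟨0, by decide, e⟩
      · exact ⟨1, by decide, e⟩
    have g := (G (by omega) i i1 j j1 i3 j3).2
    simp only [imp_iff, both_iff, allN_iff, ble_iff, beq_iff, gg_iff, Nat.add_eq] at g
    have l7 : okL 7 (κ (sd S u + 1) (u (sd S u + 1))) (κ (sd S u + 2) (u (sd S u + 2))) = true := by
      have := okL_hc hK (fin3_c (sd S u)) u
      rcases te with e | e
      · rwa [e] at this
      · rwa [e, okL_78 _ (hK.lt _ _) _ (hK.lt _ _)] at this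
    have g2 := g ⟨by omega, i2 ▸ okL_hc hK (fin3_a _) u, j2 ▸ okL_hc hK (fin3_b _) u, l7⟩ e e1
      _ (hK.lt (sd S u) (ap S u)) ⟨hK.dir _ _, fun c => gg_apex hK hu (fin3_c _) te c.1 c.2⟩
      x x1 y y1
    have m0 : mkv S κ u (sd S u) = 0 := if_neg fun o => o.2.1 rfl
    have hl : hc S (apx S u) (sd S u + 1) (sd S u + 2) = hc S u (sd S u + 1) (sd S u + 2) := by
      unfold hc; rw [apx_ne u (fin3_a _), apx_ne u (fin3_b _)]
    have cw := cwd_eq (S := S) (κ := κ) C.W (apx S u) (sd S u)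
    rw [apx_sd, apx_ne u (fin3_a _), apx_ne u (fin3_b _), hl, x2, y2] at cw
    unfold rook2 at g2
    rw [show 7 + e = _ from e2.symm, cw, ← i2, ← j2, x3, x3, y3, y3, both_iff] at g2
    refine ⟨roles_eq C.md u _ (mkv S κ u) m0 g2.1, ?_⟩
    have h5 := rk2_sound hR g2.2
    have t1 := tsw_eq C.X (κ (sd S u) (ap S u)) (sd S u) (apc S κ u)
    have p1 := price_eq (S := S) (κ := κ) C.P u (sd S u) (mkv S κ u) m0
    erw [t1, p1] at h5
    rw [cwd_eq, Nat.add_eq, Nat.add_eq, Nat.cast_add, Nat.cast_add] at h5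
    unfold Pz tau
    rw [if_pos k, if_pos k, if_neg (by omega), sum_sI, sI]
    have e3 : ((50331648 : ℕ) : ℤ) = 50331648 := rfl
    have e4 : ((16777216 : ℕ) : ℤ) = 16777216 := rfl
    rw [e3, e4] at h5
    linarith
  · obtain ⟨i, i1, i2, i3⟩ := pq_ex ta
    obtain ⟨j, j1, j2, j3⟩ := pq_ex tc
    have := rook1_sound hK hR u _ 0 (by omega) i2 j2 te (G (by omega) i i1 j j1 i3 j3).1
    rw [if_neg (by omega), if_neg (by omega)]
    exact ⟨this.1, by simpa using this.2⟩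
  · have := rook1_sound hK hR u _ _ (by omega) ta tc te g4
    rw [if_neg (by omega), if_pos k, add_zero]
    exact this

/-- the weights of all cells are covered by the rooks -/
theorem cells_le (hS : MI S) (hK : Cls C.md S κ) (h : chkCells C.md C.W C.X = true) :
    ∑ c, ((cwN S κ C.W c : ℤ) - 25165824) ≤ ∑ u ∈ S, att C S κ u := by
  set w : Cl n → ℤ := fun c => (cwN S κ C.W c : ℤ) - 25165824 with hw
  set A : Cl n → ℕ := fun u =>
    k1d C.X (κ (sd S u) (u (sd S u))) (κ (sd S u + 2) (u (sd S u + 2))) with hA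
  set B : Cl n → ℕ := fun u =>
    k1d C.X (κ (sd S u) (u (sd S u))) (κ (sd S u + 1) (u (sd S u + 1))) with hB
  set D : Cl n → ℕ := fun u => kcd C.X (κ (sd S u) (u (sd S u))) with hD
  set T : Cl n → Cl n → ℤ := fun c u => if rk S u = 4 then
    ((if c = cy S u then (A u : ℤ) else 0) + (if c = cz S u then (B u : ℤ) else 0)
      + if c = cyz S u then (D u : ℤ) else 0) else 0 with hT
  have T0 : ∀ c u, 0 ≤ T c u := by
    intro c u; simp only [hT]; split_ifs <;> positivity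
  have e : ∑ u ∈ S, att C S κ u = ∑ c, ∑ u ∈ S, ((if c = u then w c else 0)
      + (if rk S u = 2 ∧ c = apx S u then w c else 0) + T c u) := by
    rw [sum_comm]
    refine sum_congr rfl fun u _ => ?_
    rw [sum_add_distrib, sum_add_distrib, sum_ite_eq' univ u, if_pos (mem_univ _)]
    unfold att
    congr 1
    · congr 1
      by_cases k : rk S u = 2 <;> simp [k, hw]
    · by_cases k : rk S u = 4
      · simp only [hT, if_pos k, sum_add_distrib, sum_ite_eq', if_pos (mem_univ _), ext4]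
        push_cast; ring
      · simp [hT, k]
  rw [e]
  refine sum_le_sum fun c _ => ?_
  rw [sum_add_distrib, sum_add_distrib, sum_ite_eq]
  have T1 : 0 ≤ ∑ u ∈ S, T c u := sum_nonneg fun u _ => T0 c u
  by_cases h2 : ∃ u ∈ S, rk S u = 2 ∧ c = apx S u
  · obtain ⟨u, hu, k, rfl⟩ := h2
    rw [if_neg (apx_not_mem hu k), sum_eq_single u, if_pos ⟨k, rfl⟩]
    · linarith
    · intro u' hu' hne
      exact if_neg fun o => hne (apx_inj hu k hu' o.1 o.2).symm
    · exact fun o => absurd hu o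
  · rw [sum_eq_zero fun u hu => if_neg fun o => h2 ⟨u, hu, o⟩]
    split_ifs with h3
    · linarith
    rcases cell_bound hS hK h c (fun u hu k o => h2 ⟨u, hu, k, o⟩) with h4 | ⟨u, hu, k, h4⟩
    · have : w c ≤ 0 := by simp only [hw]; omega
      linarith
    · have h5 : T c u ≤ ∑ u ∈ S, T c u := single_le_sum (fun u _ => T0 c u) hu
      have h6 : w c ≤ T c u := by
        simp only [hT, hw, if_pos k]
        have a1 : (0 : ℤ) ≤ if c = cy S u then (A u : ℤ) else 0 := by split_ifs <;> positivity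
        have a2 : (0 : ℤ) ≤ if c = cz S u then (B u : ℤ) else 0 := by split_ifs <;> positivity
        have a3 : (0 : ℤ) ≤ if c = cyz S u then (D u : ℤ) else 0 := by split_ifs <;> positivity
        rcases h4 with ⟨o, h4⟩ | ⟨o, h4⟩ | ⟨o, h4⟩
        · rw [if_pos o]; change _ ≤ _ + A u at h4; omega
        · rw [if_pos o]; change _ ≤ _ + B u at h4; omega
        · rw [if_pos o]; change _ ≤ _ + D u at h4; omega
      linarith

end Pool.Agent.P.MP_41d1ec_co
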