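import Pool.Agent.P.MP_41d1ec_co.Defs

set_option autoImplicit false

namespace Pool.Agent.P.MP_41d1ec_co

open Finset Function Classical

variable {n : ℕ} {S : Finset (Cl n)}

private theorem kind2 {u : Cl n} (h : rk S u = 2) :
    ap S u ≠ u (sd S u) ∧ ∀ w, PN S u w ↔ w = apx S u := by
  by_cases hx : ∃ x : ℕ × Fin 3 × Fin n × Fin n, Kind S u x.1 x.2.1 x.2.2.1 x.2.2.2
  · have hk : Kind S u (rk S u) (sd S u) (ap S u) (bp S u) := by
      unfold rk sd ap bp info
      rw [dif_pos hx]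
      exact hx.choose_spec
    rw [h] at hk
    rcases hk with hk | hk | hk | hk
    · exact absurd hk.1 (by norm_num)
    · exact hk.2
    · exact absurd hk.1 (by norm_num)
    · exact absurd hk.1 (by norm_num)
  · unfold rk info at h
    rw [dif_neg hx] at h
    exact absurd h (by norm_num)

private theorem lm_of_mk {p q : Fin 3} (hpq : p ≠ q) {v w : Fin n} {u : Cl n}
    (h : Mk S p v q w u) : lm S p v q w = 0 := by
  obtain ⟨-, h2, h3, h4, h5⟩ := h
  obtain ⟨k1, k2⟩ := kind2 h2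
  unfold lm
  rw [card_eq_zero, filter_eq_empty_iff]
  rintro z hz ⟨z1, z2⟩
  have hpn : PN S u (apx S u) := (k2 _).2 rfl
  have hzu : z = u := by
    by_contra hne
    exact hpn.2 z hz hne ⟨p, q, hpq, by rw [z1, h3], by rw [z2, h4]⟩
  subst hzu
  apply k1
  rcases h5 with h5 | h5
  · rw [h5, z1, ← h3, apx, h5, update_self]
  · rw [h5, z2, ← h4, apx, h5, update_self]

private theorem mk_symm (p q : Fin 3) (v w : Fin n) : Mk S p v q w = Mk S q w p v := by
  funext u
  apply propext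
  unfold Mk
  tauto

private theorem mkr_symm (p q : Fin 3) (v w : Fin n) : mkr S p v q w = mkr S q w p v := by
  unfold mkr
  rw [mk_symm]

private theorem mkr_spec {p q : Fin 3} {v w : Fin n} (h : ∃ u, Mk S p v q w u) :
    Mk S p v q w (mkr S p v q w) := by
  unfold mkr
  exact @Classical.epsilon_spec _ (Mk S p v q w) h

private theorem sty_ge (p q : Fin 3) (u : Cl n) : 4 ≤ sty S p q u := by
  unfold sty
  split_ifs <;> norm_num

private theorem ht_ge (p q : Fin 3) (v w : Fin n) : 4 ≤ ht S p v q w ↔ lm S p v q w ≠ 0 := by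
  unfold ht
  have := sty_ge (S := S) p q (rko S p v q w)
  split_ifs <;> omega

private theorem ht_two (p q : Fin 3) (v w : Fin n) : ht S p v q w = 2 ↔
    lm S p v q w = 0 ∧ (∃ u, Mk S p v q w u) ∧ sd S (mkr S p v q w) ≠ p := by
  unfold ht
  have := sty_ge (S := S) p q (rko S p v q w)
  split_ifs with h1 h2 h3 h4 h5 <;> simp [*] <;> omega

private theorem ht_three (p q : Fin 3) (v w : Fin n) : ht S p v q w = 3 ↔
    lm S p v q w = 0 ∧ (∃ u, Mk S p v q w u) ∧ sd S (mkr S p v q w) = p := by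
  unfold ht
  have := sty_ge (S := S) p q (rko S p v q w)
  split_ifs with h1 h2 h3 h4 h5 <;> simp [*] <;> omega

private theorem sum_four (p q : Fin 3) (v : Fin n) (φ : Fin n → ℕ → ℝ) :
    ∑ u ∈ S with u p = v, φ (u q) (hc S u p q) / (lm S p v q (u q) : ℝ) =
      ∑ w with 4 ≤ ht S p v q w, φ w (ht S p v q w) := by
  rw [← sum_fiberwise (s := S.filter fun u => u p = v) (g := fun u => u q), sum_filter]
  refine sum_congr rfl fun w _ => ?_
  have h1 : ∑ u ∈ (S.filter fun u => u p = v) with u q = w,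
      φ (u q) (hc S u p q) / (lm S p v q (u q) : ℝ) =
      ∑ u ∈ (S.filter fun u => u p = v) with u q = w,
      φ w (ht S p v q w) / (lm S p v q w : ℝ) := by
    refine sum_congr rfl fun u hu => ?_
    rw [mem_filter, mem_filter] at hu
    rw [hc, hu.1.2, hu.2]
  rw [h1, sum_const, filter_filter, nsmul_eq_mul]
  change (lm S p v q w : ℝ) * _ = _
  by_cases h : lm S p v q w = 0
  · rw [if_neg (by rw [ht_ge]; simpa using h), h]; simp
  · rw [if_pos ((ht_ge p q v w).2 h)]
    have : (lm S p v q w : ℝ) ≠ 0 := by exact_mod_cast h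
    field_simp

private theorem sum_two {p q : Fin 3} (hpq : p ≠ q) (v : Fin n) (φ : Fin n → ℕ → ℝ) :
    ∑ u ∈ S with u p = v, (if Own S u p ∧ sd S u = q then φ (ap S u) 2 else 0) =
      ∑ w with ht S p v q w = 2, φ w (ht S p v q w) := by
  rw [← sum_filter]
  refine sum_bij (fun u _ => ap S u) ?_ ?_ ?_ ?_
  · intro u hu
    simp only [mem_filter, mem_univ, true_and] at hu ⊢
    obtain ⟨⟨h1, h2⟩, ⟨h3, h4, h5⟩, h6⟩ := hu
    rw [h2, h6] at h5
    have hm : Mk S p v q (ap S u) u :=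
      ⟨h1, h3, by rw [apx, update_of_ne (Ne.symm h4), h2], by rw [apx, h6, update_self], Or.inr h6⟩
    exact (ht_two p q v _).2 ⟨lm_of_mk hpq hm, ⟨u, hm⟩, by rw [h5]; exact h4⟩
  · intro u hu u' hu' e
    simp only [mem_filter] at hu hu'
    obtain ⟨⟨-, h2⟩, ⟨-, -, h5⟩, h6⟩ := hu
    obtain ⟨⟨-, h2'⟩, ⟨-, -, h5'⟩, h6'⟩ := hu'
    rw [h2, h6] at h5
    rw [h2', h6', ← e] at h5'
    rw [← h5, h5']
  · intro w hw
    simp only [mem_filter, mem_univ, true_and] at hw
    obtain ⟨-, h2, h3⟩ := (ht_two p q v w).1 hw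
    obtain ⟨m1, m2, m3, m4, m5⟩ := mkr_spec h2
    have m6 : sd S (mkr S p v q w) = q := m5.resolve_left h3
    rw [apx, update_of_ne (Ne.symm h3)] at m3
    rw [apx, m6, update_self] at m4
    refine ⟨mkr S p v q w, ?_, m4⟩
    simp only [mem_filter]
    exact ⟨⟨m1, m3⟩, ⟨m2, h3, by rw [m3, m6, m4]⟩, m6⟩
  · intro u hu
    simp only [mem_filter, mem_univ, true_and] at hu
    obtain ⟨⟨h1, h2⟩, ⟨h3, h4, h5⟩, h6⟩ := hu
    rw [h2, h6] at h5
    have hm : Mk S p v q (ap S u) u :=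
      ⟨h1, h3, by rw [apx, update_of_ne (Ne.symm h4), h2], by rw [apx, h6, update_self], Or.inr h6⟩
    rw [(ht_two p q v _).2 ⟨lm_of_mk hpq hm, ⟨u, hm⟩, by rw [h5]; exact h4⟩]

private theorem sum_three {p q : Fin 3} (hpq : p ≠ q) (v : Fin n) (φ : Fin n → ℕ → ℝ) :
    ∑ u ∈ S with rk S u = 2 ∧ sd S u = p ∧ ap S u = v, (if Own S u q then φ (u q) 3 else 0) =
      ∑ w with ht S p v q w = 3, φ w (ht S p v q w) := by
  rw [← sum_filter]
  have key : ∀ u ∈ (S.filter fun u => rk S u = 2 ∧ sd S u = p ∧ ap S u = v).filter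
      (fun u => Own S u q), ht S p v q (u q) = 3 := by
    intro u hu
    simp only [mem_filter] at hu
    obtain ⟨⟨h1, h2, h3, h4⟩, -, h5, h6⟩ := hu
    rw [h3, h4, ← mkr_symm] at h6
    have hm : Mk S p v q (u q) u :=
      ⟨h1, h2, by rw [apx, h3, update_self, h4], by rw [apx, update_of_ne (Ne.symm h5)], Or.inl h3⟩
    exact (ht_three p q v _).2 ⟨lm_of_mk hpq hm, ⟨u, hm⟩, by rw [h6]; exact h3⟩
  refine sum_bij (fun u _ => u q) ?_ ?_ ?_ ?_
  · intro u hu
    simp only [mem_filter, mem_univ, true_and]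
    exact key u hu
  · intro u hu u' hu' e
    simp only [mem_filter] at hu hu'
    obtain ⟨⟨-, -, h3, h4⟩, -, -, h6⟩ := hu
    obtain ⟨⟨-, -, h3', h4'⟩, -, -, h6'⟩ := hu'
    rw [h3, h4] at h6
    rw [h3', h4', ← e] at h6'
    rw [← h6, h6']
  · intro w hw
    simp only [mem_filter, mem_univ, true_and] at hw
    obtain ⟨-, h2, h3⟩ := (ht_three p q v w).1 hw
    obtain ⟨m1, m2, m3, m4, -⟩ := mkr_spec h2
    have m6 : sd S (mkr S p v q w) ≠ q := by rw [h3]; exact hpq
    rw [apx, h3, update_self] at m3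
    rw [apx, update_of_ne (Ne.symm m6)] at m4
    refine ⟨mkr S p v q w, ?_, m4⟩
    simp only [mem_filter]
    exact ⟨⟨m1, m2, h3, m3⟩, m2, m6, by rw [m3, h3, m4, mkr_symm]⟩
  · intro u hu
    rw [key u hu]

/-- decomposition of the lines at a vertex into atoms -/
theorem slots {p q : Fin 3} (hpq : p ≠ q) (v : Fin n) (φ : Fin n → ℕ → ℝ) :
    ∑ w, φ w (ht S p v q w) =
      ∑ w with ht S p v q w ≤ 1, φ w (ht S p v q w)
      + ∑ u ∈ S with u p = v, (φ (u q) (hc S u p q) / (lm S p v q (u q) : ℝ)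
          + if Own S u p ∧ sd S u = q then φ (ap S u) 2 else 0)
      + ∑ u ∈ S with rk S u = 2 ∧ sd S u = p ∧ ap S u = v,
          (if Own S u q then φ (u q) 3 else 0) := by
  rw [sum_add_distrib, sum_four, sum_two hpq, sum_three hpq, sum_filter, sum_filter, sum_filter,
    sum_filter, ← sum_add_distrib, ← sum_add_distrib, ← sum_add_distrib]
  refine sum_congr rfl fun w _ => ?_
  split_ifs <;> first | omega | simp

end Pool.Agent.P.MP_41d1ec_co
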