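import Pool.Agent.P.MP_41d1ec_co.Col

/-! The vertex inequality from one checked case. -/

set_option autoImplicit false

namespace Pool.Agent.P.MP_41d1ec_co

open Finset

theorem tsum_mapA (m : ℕ) (f : ℕ → Tm) (t : List Tm) (i l : ℕ) :
    tsum (mapA m f t) i l = ∑ k ∈ range m, sF (f k) i * sG (f k) l + tsum t i l := by
  induction m with
  | zero => simp [mapA]
  | succ m ih =>
    have : mapA (m + 1) f t = f m :: mapA m f t := rfl
    have h3 : tsum (f m :: mapA m f t) i l = sF (f m) i * sG (f m) l + tsum (mapA m f t) i l := by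
      simp [tsum]
    rw [this, h3, ih, sum_range_succ]; ring

theorem len_mapA (m : ℕ) (f : ℕ → Tm) (t : List Tm) : (mapA m f t).length = m + t.length := by
  induction m with
  | zero => simp [mapA]
  | succ m ih =>
    have : mapA (m + 1) f t = f m :: mapA m f t := rfl
    rw [this, List.length_cons, ih]; ring

theorem all_mapA {P : Tm → Prop} (m : ℕ) {f : ℕ → Tm} {t : List Tm} (hf : ∀ k, P (f k))
    (ht : ∀ x ∈ t, P x) : ∀ x ∈ mapA m f t, P x := by
  induction m with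
  | zero => exact ht
  | succ m ih =>
    have : mapA (m + 1) f t = f m :: mapA m f t := rfl
    rw [this]
    intro x hx
    rcases List.mem_cons.1 hx with rfl | hx
    · exact hf m
    · exact ih x hx

theorem tms_eq (CT : ℕ) (D : CD) : tms CT D
    = mapA 10 (tm1 CT D.G) (mapA 8 (tm2 CT D.E) (tm3 CT :: mapA D.r (tm4 D.V) [])) := rfl

theorem dg_lt' (T i : ℕ) : dg T i < 33554432 := (dg_lt T i).trans (by norm_num)

theorem tms_bd (CT : ℕ) (D : CD) : ∀ t ∈ tms CT D, TmB t := by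
  refine all_mapA _ (fun k => ⟨fun i => ?_, fun l => dg_lt _ _⟩)
    (all_mapA _ (fun k => ⟨fun i => ?_, fun l => dg_lt _ _⟩) ?_)
  · simp only [tm1, sel_eq]; split_ifs
    · norm_num
    · norm_num
    · exact dg_lt' _ _
  · simp only [tm2, sel_eq, Nat.add_eq]; split_ifs
    · have := dg_lt D.E (Nat.mul 8 k + Nat.sub i 48); omega
    · norm_num
  · intro x hx
    rcases List.mem_cons.1 hx with rfl | hx
    · refine ⟨fun i => ?_, fun l => by simp [tm3]⟩
      simp only [tm3, sel_eq]; split_ifs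
      · norm_num
      · exact dg_lt' _ _
    · refine all_mapA (P := TmB) _ (fun k => ⟨fun i => ?_, fun l => dg_lt _ _⟩) (by simp) x hx
      simp only [tm4, sel_eq]; split_ifs
      · norm_num
      · exact dg_lt' _ _

theorem cl8_lt : ∀ i < 48, cl8 i < 8 := by decide +kernel

/-- symmetrised weight of a pair of lanes -/
noncomputable def Ws (W u i l : ℕ) : ℤ :=
  if i < 24 ∧ 24 ≤ l then sI (wd W u i (l - 24))
  else if l < 24 ∧ 24 ≤ i then sI (wd W u l (i - 24)) else 0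

theorem kd_anti (W K u : ℕ) {i l : ℕ} (hi : i < 48) (hl : l < 48) :
    ((kd W K u l i : ℤ) - 33554432) + ((kd W K u i l : ℤ) - 33554432) = -Ws W u i l := by
  unfold kd Ws sI
  simp only [sel_eq, both_iff, ble_iff, beq_iff, Nat.add_eq, Nat.sub_eq]
  have a1 := dg_lt K (tri l + i)
  have a2 := dg_lt K (tri i + l)
  have a3 : wd W u l (i - 24) < 16777216 := dg_lt _ _
  have a4 : wd W u i (l - 24) < 16777216 := dg_lt _ _
  split_ifs <;> omega

theorem kd_big (W K u l : ℕ) {i : ℕ} (hi : 48 ≤ i) : kd W K u l i = 33554432 := by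
  unfold kd
  simp only [sel_eq, ble_iff, if_pos hi]

/-- the table of form coefficients -/
noncomputable def ctab (C : Ct) (u la lb ka kb : ℕ) : ℕ :=
  pack 24 (fun x => (fcx C u la lb ka kb x).toNat) 88

theorem case_good {C : Ct} {u la lb ka kb : ℕ} {D : CD}
    (h : chkCase C u la lb ka kb D = true) (hmd : C.md < 2) (hu : u < 4) :
    ∃ CT : ℕ, (∀ k < 11, ∀ j < 8, (dg CT (8 * k + j) : ℤ) - 8388608 = fc C u la lb ka kb k j) ∧
      Good C u la lb (Qz C.W D.K u (tms CT D)) := by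
  unfold chkCase at h
  rw [both_iff, both_iff, frc_eq, frcT_eq, frc_eq, frc_eq, frc_eq, allN_iff, ble_iff] at h
  obtain ⟨hr, hfc, h⟩ := h
  simp only [decide_eq_true_eq] at hfc
  refine ⟨ctab C u la lb ka kb, ?_, ?_⟩
  · intro k hk j hj
    rw [dg_eq, ctab, pack_fld (fun x hx => by have := hfc x hx; omega) (by omega)]
    have := hfc (8 * k + j) (by omega)
    have e : fcx C u la lb ka kb (8 * k + j) = fc C u la lb ka kb k j + 8388608 := by
      unfold fcx; rw [show (8 * k + j) / 8 = k by omega, show (8 * k + j) % 8 = j by omega]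
    omega
  · have hr' : D.r ≤ 40 := hr
    have hlen : (tms (ctab C u la lb ka kb) D).length ≤ 64 := by
      rw [tms_eq, len_mapA, len_mapA, List.length_cons, len_mapA, List.length_nil]; omega
    refine atoms_sound hmd hu (Qz_bd _ _ _ _ (tms_bd _ D) hlen) (fun l hl ha => ?_) h
    rw [gcol_pack (fun i _ => ?_) hl, sel_eq, if_pos ha]
    · exact cast_ncol _ _ _ _ _
    · rw [sel_eq]; split_ifs
      · exact ncol_lt _ _ _ _ _ _
      · rw [bM_eq]; positivity

theorem sF1_lo (CT G k : ℕ) {i : ℕ} (h : i < 48) :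
    sF (tm1 CT G k) i = (dg CT (8 * k + cl8 i) : ℤ) - 8388608 := by
  have hi' : ¬ 48 ≤ i := by omega
  simp only [sF, tm1, sel_eq, ble_iff, if_neg hi', Nat.add_eq, Nat.mul_eq]

theorem sF1_hi (CT G k j : ℕ) :
    sF (tm1 CT G k) (48 + j) = if k = j + 2 then -262144 else 0 := by
  have hi' : 48 ≤ 48 + j := by omega
  simp only [sF, tm1, sel_eq, ble_iff, beq_iff, if_pos hi', Nat.add_eq]
  split_ifs <;> omega

theorem sF2_lo (CT E k : ℕ) {i : ℕ} (h : i < 48) : sF (tm2 CT E k) i = 0 := by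
  have hi' : ¬ 48 ≤ i := by omega
  simp only [sF, tm2, sel_eq, ble_iff, if_neg hi']
  omega

theorem sF2_hi (CT E k j : ℕ) : sF (tm2 CT E k) (48 + j) = dg E (8 * k + j) := by
  have hi' : 48 ≤ 48 + j := by omega
  simp only [sF, tm2, sel_eq, ble_iff, if_pos hi', Nat.add_eq, Nat.mul_eq, Nat.sub_eq,
    Nat.add_sub_cancel_left]
  omega

theorem sG2 (CT E k l : ℕ) :
    sG (tm2 CT E k) l = (dg CT (8 * (k + 2) + cl8 l) : ℤ) - 8388608 := by
  rw [show 8 * (k + 2) + cl8 l = 16 + 8 * k + cl8 l by ring]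
  rfl

theorem sF3_lo (CT : ℕ) {i : ℕ} (h : i < 48) :
    sF (tm3 CT) i = (dg CT (8 * 10 + cl8 i) : ℤ) - 8388608 := by
  have hi' : ¬ 48 ≤ i := by omega
  simp only [sF, tm3, sel_eq, ble_iff, if_neg hi', Nat.add_eq]

theorem sF3_hi (CT j : ℕ) : sF (tm3 CT) (48 + j) = 0 := by
  have hi' : 48 ≤ 48 + j := by omega
  simp only [sF, tm3, sel_eq, ble_iff, if_pos hi']
  omega

theorem sG3 (CT l : ℕ) : sG (tm3 CT) l = 262144 := by
  simp only [sG, tm3]
  omega

theorem sF4_lo (V k : ℕ) {i : ℕ} (h : i < 48) : sF (tm4 V k) i = sG (tm4 V k) i := by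
  have hi' : ¬ 48 ≤ i := by omega
  simp only [sF, sG, tm4, sel_eq, ble_iff, if_neg hi']

theorem sF4_hi (V k j : ℕ) : sF (tm4 V k) (48 + j) = 0 := by
  have hi' : 48 ≤ 48 + j := by omega
  simp only [sF, tm4, sel_eq, ble_iff, if_pos hi']
  omega

theorem Qz_eq (W u CT : ℕ) (D : CD) (i l : ℕ) : Qz W D.K u (tms CT D) i l
    = 262144 * ((kd W D.K u l i : ℤ) - 33554432)
      + (∑ k ∈ range 10, sF (tm1 CT D.G k) i * sG (tm1 CT D.G k) l
        + (∑ j ∈ range 8, sF (tm2 CT D.E j) i * sG (tm2 CT D.E j) l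
          + (sF (tm3 CT) i * 262144
            + ∑ j ∈ range D.r, sF (tm4 D.V j) i * sG (tm4 D.V j) l))) := by
  have h3 : ∀ t (M : List Tm), tsum (t :: M) i l = sF t i * sG t l + tsum M i l := by
    intro t M; simp [tsum]
  have h4 : tsum [] i l = 0 := rfl
  rw [Qz, tms_eq, tsum_mapA, tsum_mapA, h3, tsum_mapA, sG3, h4, add_zero]

theorem vertex {Ω : Type} [Fintype Ω] (L : Ω → ℕ) (Lin : ℤ) {C : Ct} {u la lb ka kb : ℕ} {D : CD}
    (h : chkCase C u la lb ka kb D = true) (hmd : C.md < 2) (hu : u < 4)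
    (hL : ∀ ω, L ω < 48 ∧ alw C.md u la lb (L ω) = true)
    (hat : ∀ Q, Good C u la lb Q → ∀ i < 56, rowOK C.md u la lb i = true →
      2 * ∑ ω, Q i (L ω) ≤ 262144 * Lin * ind i)
    (heq : ∀ k < 2, ∑ ω, fc C u la lb ka kb k (cl8 (L ω)) = 0)
    (hge : ∀ k < 8, 0 ≤ ∑ ω, fc C u la lb ka kb (k + 2) (cl8 (L ω))) :
    2 * Fintype.card Ω * ∑ ω, fc C u la lb ka kb 10 (cl8 (L ω))
      ≤ Fintype.card Ω * Lin + ∑ ω, ∑ ω', Ws C.W u (L ω) (L ω') := by
  obtain ⟨CT, hct, hG⟩ := case_good h hmd hu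
  have hV := hat _ hG
  have hQe := Qz_eq C.W u CT D
  generalize Qz C.W D.K u (tms CT D) = Q at hV hQe
  obtain ⟨g, hg⟩ : ∃ g : ℕ → ℕ → ℤ, ∀ k l, sG (tm1 CT D.G k) l = g k l := ⟨_, fun _ _ => rfl⟩
  obtain ⟨v, hv⟩ : ∃ v : ℕ → ℕ → ℤ, ∀ k l, sG (tm4 D.V k) l = v k l := ⟨_, fun _ _ => rfl⟩
  obtain ⟨F, hF⟩ : ∃ F : ℕ → ℕ → ℤ, ∀ k i, fc C u la lb ka kb k (cl8 i) = F k i :=
    ⟨_, fun _ _ => rfl⟩
  simp only [hF] at heq hge ⊢
  simp only [hg, hv] at hQe
  have hs : ∀ i < 48, ∀ l, Q i l = 262144 * ((kd C.W D.K u l i : ℤ) - 33554432)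
      + (∑ k ∈ range 10, F k i * g k l + (F 10 i * 262144 + ∑ j ∈ range D.r, v j i * v j l)) := by
    intro i hi l
    have c := cl8_lt i hi
    have e1 : ∀ k ∈ range 10, sF (tm1 CT D.G k) i * g k l = F k i * g k l := by
      intro k hk
      rw [sF1_lo _ _ _ hi, hct k (by have := mem_range.1 hk; omega) _ c, hF]
    have e2 : ∑ j ∈ range 8, sF (tm2 CT D.E j) i * sG (tm2 CT D.E j) l = 0 :=
      sum_eq_zero fun j _ => by rw [sF2_lo _ _ _ hi, zero_mul]
    have e3 : sF (tm3 CT) i = F 10 i := by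
      rw [sF3_lo _ hi, hct 10 (by omega) _ c, hF]
    have e4 : ∀ j ∈ range D.r, sF (tm4 D.V j) i * v j l = v j i * v j l := by
      intro j _
      rw [sF4_lo _ _ hi, hv]
    rw [hQe, sum_congr rfl e1, e2, e3, sum_congr rfl e4, zero_add]
  have hb : ∀ k < 8, ∀ l < 48, Q (48 + k) l = -262144 * g (k + 2) l
      + ∑ j ∈ range 8, (dg D.E (8 * j + k) : ℤ) * F (j + 2) l := by
    intro k hk l hl
    have hi' : 48 ≤ 48 + k := by omega
    rw [hQe, kd_big _ _ _ _ hi', sum_eq_single (k + 2)]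
    · have e3 : ∑ j ∈ range D.r, sF (tm4 D.V j) (48 + k) * v j l = 0 :=
        sum_eq_zero fun j _ => by rw [sF4_hi, zero_mul]
      have e4 : ∀ j ∈ range 8, sF (tm2 CT D.E j) (48 + k) * sG (tm2 CT D.E j) l
          = (dg D.E (8 * j + k) : ℤ) * F (j + 2) l := by
        intro j hj
        rw [sF2_hi, sG2, hct (j + 2) (by have := mem_range.1 hj; omega) _ (cl8_lt l hl), hF]
      rw [sF1_hi, if_pos rfl, sF3_hi, e3, sum_congr rfl e4]
      have : ((33554432 : ℕ) : ℤ) = 33554432 := rfl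
      rw [this]
      ring
    · intro k' _ hne
      rw [sF1_hi, if_neg hne, zero_mul]
    · intro hn; exact absurd (mem_range.2 (by omega)) hn
  have hgp : ∀ k < 8, 0 ≤ ∑ ω, g (k + 2) (L ω) := by
    intro k hk
    have hi' : 48 ≤ 48 + k := by omega
    have h1 := hV (48 + k) (by omega) (by simp only [rowOK, sel_eq, ble_iff, if_pos hi'])
    rw [sum_congr rfl fun ω _ => hb k hk _ (hL ω).1, sum_add_distrib, ← mul_sum, sum_comm,
      show ind (48 + k) = 0 from if_neg (by omega)] at h1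
    have h2 : 0 ≤ ∑ j ∈ range 8, ∑ ω, (dg D.E (8 * j + k) : ℤ) * F (j + 2) (L ω) :=
      sum_nonneg fun j hj => by
        rw [← mul_sum]; exact mul_nonneg (by positivity) (hge j (mem_range.1 hj))
    omega
  have h1 : ∑ ω, 2 * ∑ ω', Q (L ω) (L ω') ≤ ∑ _ω : Ω, 262144 * Lin := by
    refine sum_le_sum fun ω _ => ?_
    have := hV (L ω) (by have := (hL ω).1; omega) (by
      have : ¬ 48 ≤ L ω := by have := (hL ω).1; omega
      simp only [rowOK, sel_eq, ble_iff, if_neg this, (hL ω).2])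
    rwa [show ind (L ω) = 1 by simp [ind, (hL ω).1], mul_one] at this
  rw [← mul_sum, sum_const, card_univ, nsmul_eq_mul] at h1
  set Kp : Ω → Ω → ℤ := fun ω ω' => (kd C.W D.K u (L ω') (L ω) : ℤ) - 33554432 with hK
  have h2 : ∑ ω, ∑ ω', Q (L ω) (L ω') = 262144 * ∑ ω, ∑ ω', Kp ω ω'
      + (∑ k ∈ range 10, (∑ ω, F k (L ω)) * (∑ ω, g k (L ω))
        + ((∑ ω, F 10 (L ω)) * (Fintype.card Ω * 262144)
          + ∑ j ∈ range D.r, (∑ ω, v j (L ω)) * (∑ ω, v j (L ω)))) := by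
    rw [sum_congr rfl fun ω _ => sum_congr rfl fun ω' _ => hs _ (hL ω).1 (L ω')]
    have e1 : ∀ (m : ℕ) (a b : ℕ → ℕ → ℤ), ∑ ω, ∑ ω', ∑ k ∈ range m, a k (L ω) * b k (L ω')
        = ∑ k ∈ range m, (∑ ω, a k (L ω)) * (∑ ω, b k (L ω)) := by
      intro m a b
      rw [sum_congr rfl fun ω _ => sum_comm, sum_comm]
      exact sum_congr rfl fun k _ => (sum_mul_sum _ _ _ _).symm
    simp only [sum_add_distrib, e1, ← mul_sum, ← sum_mul, sum_const, card_univ, nsmul_eq_mul, hK]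
  have h3 : 2 * ∑ ω, ∑ ω', Kp ω ω' = -∑ ω, ∑ ω', Ws C.W u (L ω) (L ω') := by
    rw [two_mul]
    nth_rewrite 2 [sum_comm]
    rw [← sum_add_distrib, ← sum_neg_distrib]
    refine sum_congr rfl fun ω _ => ?_
    rw [← sum_add_distrib, ← sum_neg_distrib]
    exact sum_congr rfl fun ω' _ => kd_anti _ _ _ (hL ω).1 (hL ω').1
  have h4 : 0 ≤ ∑ k ∈ range 10, (∑ ω, F k (L ω)) * (∑ ω, g k (L ω)) := by
    refine sum_nonneg fun k hk => ?_
    rcases lt_or_ge k 2 with h5 | h5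
    · rw [show ∑ ω, F k (L ω) = 0 from heq k h5, zero_mul]
    · obtain ⟨k, rfl⟩ : ∃ j, k = j + 2 := ⟨k - 2, by omega⟩
      have := mem_range.1 hk
      exact mul_nonneg (hge k (by omega)) (hgp k (by omega))
  have h5 : 0 ≤ ∑ j ∈ range D.r, (∑ ω, v j (L ω)) * (∑ ω, v j (L ω)) :=
    sum_nonneg fun j _ => mul_self_nonneg _
  nlinarith

end Pool.Agent.P.MP_41d1ec_co
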