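import Pool.Agent.P.MP_41d1ec_co.Rook
import Pool.Agent.P.MP_41d1ec_co.Slots
import Pool.Agent.P.MP_41d1ec_co.Vertex

/-! The atom inequalities summed over the lines at one vertex. -/

set_option autoImplicit false
set_option synthInstance.maxSize 2000

namespace Pool.Agent.P.MP_41d1ec_co

open Finset Function Classical

variable {n : ℕ} {S : Finset (Cl n)} {κ : Fin 3 → Fin n → ℕ} {C : Ct}

theorem sab : ∀ p : Fin 3, p ≠ sa p ∧ p ≠ sb p ∧ sa p ≠ sb p := by decide

theorem cb_lt : ∀ k < 4, cb k < 2 := by decide +kernel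

theorem cb_le : ∀ md < 2, ∀ p < 3, ∀ k < 4, kdir md p k = true → cb k ≤ md := by decide +kernel

theorem okN_a : ∀ md < 2, ∀ p : Fin 3, ∀ u < 4, ∀ k < 4, ∀ t < 12,
    (kdir md p u && kdir md (sa p) k && okL t u k) = true → okN md u (12 * cb k + t) = true := by
  decide +kernel

theorem okN_b : ∀ md < 2, ∀ p : Fin 3, ∀ u < 4, ∀ k < 4, ∀ t < 12,
    (kdir md p u && kdir md (sb p) k && okL t u k) = true →
      okN md u (24 + 12 * cb k + t) = true := by
  decide +kernel

/-- lanes of the lines at a vertex -/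
noncomputable def lane (S : Finset (Cl n)) (κ : Fin 3 → Fin n → ℕ) (p : Fin 3) (v : Fin n) :
    Fin n ⊕ Fin n → ℕ :=
  Sum.elim (fun w => 12 * cb (κ (sa p) w) + ht S p v (sa p) w)
    (fun w => 24 + 12 * cb (κ (sb p) w) + ht S p v (sb p) w)

theorem alw_iff (md u la lb i : ℕ) : alw md u la lb i = true ↔
    okN md u i = true ∧ (i % 12 = 8 → 1 ≤ if 24 ≤ i then la else lb) := by
  unfold alw
  simp only [both_iff, imp_iff, beq_iff, ble_iff, sel_eq]
  rfl

theorem lane_ok (hK : Cls C.md S κ) (hmd : C.md < 2) {p : Fin 3} {v : Fin n} {la lb : ℕ}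
    (ha : Hi S p v (sa p) → 1 ≤ la) (hb : Hi S p v (sb p) → 1 ≤ lb) (ω : Fin n ⊕ Fin n) :
    lane S κ p v ω < 48 ∧ alw C.md (κ p v) la lb (lane S κ p v ω) = true := by
  obtain ⟨s1, s2, s3⟩ := sab p
  rcases ω with w | w
  · have h1 := cb_lt _ (hK.lt (sa p) w)
    have h2 := ht_lt (S := S) p v (sa p) w
    change 12 * cb (κ (sa p) w) + ht S p v (sa p) w < 48 ∧
      alw _ _ _ _ (12 * cb (κ (sa p) w) + ht S p v (sa p) w) = true
    refine ⟨by omega, (alw_iff _ _ _ _ _).2 ⟨okN_a _ hmd p _ (hK.lt _ _) _ (hK.lt _ _) _ h2 ?_, ?_⟩⟩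
    · rw [hK.dir, hK.dir, okL_ht hK s1]; rfl
    · intro h8
      rw [if_neg (by omega)]
      exact hb (high_end s1 s2 s3 v w (by omega))
  · have h1 := cb_lt _ (hK.lt (sb p) w)
    have h2 := ht_lt (S := S) p v (sb p) w
    change 24 + 12 * cb (κ (sb p) w) + ht S p v (sb p) w < 48 ∧
      alw _ _ _ _ (24 + 12 * cb (κ (sb p) w) + ht S p v (sb p) w) = true
    refine ⟨by omega, (alw_iff _ _ _ _ _).2 ⟨okN_b _ hmd p _ (hK.lt _ _) _ (hK.lt _ _) _ h2 ?_, ?_⟩⟩
    · rw [hK.dir, hK.dir, okL_ht hK s2]; rfl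
    · intro h8
      rw [if_pos (by omega)]
      exact ha (high_end s2 s1 s3.symm v w (by omega))

theorem conv1 {t l : ℕ} {A R : ℝ} (h : ∀ m : ℤ, okm t m → m * A ≤ R) (h5 : t = 5 ↔ 2 ≤ l)
    (h0 : l ≠ 0) : 2 * (A / l) ≤ R := by
  by_cases e : t = 5
  · have a0 := h 0 (by unfold okm; rw [if_pos e]; exact Or.inl rfl)
    have a1 := h 1 (by unfold okm; rw [if_pos e]; exact Or.inr rfl)
    have hl : (2 : ℝ) ≤ l := by exact_mod_cast h5.1 e
    push_cast at a0 a1
    rw [← mul_div_assoc, div_le_iff₀ (by linarith)]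
    nlinarith
  · have a2 := h 2 (by unfold okm; rw [if_neg e])
    have hl : l = 1 := by have := mt h5.2 e; omega
    push_cast at a2
    rw [hl]; simpa using a2

theorem rk2_types {u : Cl n} (hu : u ∈ S) (k : rk S u = 2) :
    (∀ p, p ≠ sd S u → isE (hc S u p (sd S u)) = false) ∧
    ∀ p q, p ≠ q → p ≠ sd S u → q ≠ sd S u → isE (hc S u p q) = true := by
  rcases rook_types hu with ⟨k', -⟩ | ⟨k', -⟩ | ⟨-, ta, tc, -, te, -⟩ | ⟨k', -⟩ | ⟨k', -⟩
  · omega
  · omega
  · have F := fun j => fin3_cases (sd S u) (sd S u + 1) (sd S u + 2) j (fin3_a _).symm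
      (fin3_b _).symm (fin3_c _)
    refine ⟨fun p hp => ?_, fun p q hpq hp hq => ?_⟩
    · rcases F p with e | rfl | rfl
      · exact absurd e hp
      · rcases ta with e | e <;> rw [e] <;> rfl
      · rcases tc with e | e <;> rw [e] <;> rfl
    · rcases F p with e | rfl | rfl
      · exact absurd e hp
      · rcases F q with e | e | rfl
        · exact absurd e hq
        · exact absurd e.symm hpq
        · rcases te with e | e <;> rw [e] <;> rfl
      · rcases F q with e | rfl | e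
        · exact absurd e hq
        · rw [hc_ot u (fin3_c _)]
          rcases te with e | e <;> rw [e] <;> rfl
        · exact absurd e.symm hpq
  · omega
  · omega

/-- linear part of the vertex inequality -/
noncomputable def Lin (C : Ct) (S : Finset (Cl n)) (κ : Fin 3 → Fin n → ℕ) (p : Fin 3)
    (v : Fin n) : ℤ :=
  ∑ u ∈ S with u p = v, (524288 - sI (prc C.P S κ u p (mkv S κ u p)))
    + ∑ u ∈ S with rk S u = 2 ∧ sd S u = p ∧ ap S u = v, sI (tau C.X S κ u)

theorem mq_one (Q : ℕ → ℕ → ℤ) (i b c : ℕ) : mq Q i b (1 + c) = Q i (b + 12 * c) := by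
  unfold mq
  rw [if_neg (by omega), Nat.add_sub_cancel_left]

theorem atoms_sum (hK : Cls C.md S κ) (hmd : C.md < 2) {p : Fin 3} {v : Fin n} {la lb : ℕ}
    (ha : Hi S p v (sa p) → 1 ≤ la) (hb : Hi S p v (sb p) → 1 ≤ lb)
    (hro : ∀ u ∈ S, ∀ p, okR C.md S κ u p (mkv S κ u p) = true)
    (Q : ℕ → ℕ → ℤ) (hG : Good C (κ p v) la lb Q) (i : ℕ) (hi : i < 56)
    (ho : rowOK C.md (κ p v) la lb i = true) :
    2 * ∑ ω, Q i (lane S κ p v ω) ≤ 262144 * Lin C S κ p v * ind i := by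
  obtain ⟨s1, s2, s3⟩ := sab p
  have hL := lane_ok hK hmd ha hb
  have e1 := slots (S := S) s1 v fun w t => (Q i (12 * cb (κ (sa p) w) + t) : ℝ)
  have e2 := slots (S := S) s2 v fun w t => (Q i (24 + 12 * cb (κ (sb p) w) + t) : ℝ)
  have f1 : ∑ w with ht S p v (sa p) w ≤ 1,
      (Q i (12 * cb (κ (sa p) w) + ht S p v (sa p) w) : ℝ) ≤ 0 := by
    refine sum_nonpos fun w hw => ?_
    have h1 := (mem_filter.1 hw).2
    obtain ⟨a, b⟩ := hL (Sum.inl w)
    exact_mod_cast hG.free _ a (by change (12 * _ + _) % 12 ≤ 1; omega)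
      ((alw_iff _ _ _ _ _).1 b).1 i hi ho
  have f2 : ∑ w with ht S p v (sb p) w ≤ 1,
      (Q i (24 + 12 * cb (κ (sb p) w) + ht S p v (sb p) w) : ℝ) ≤ 0 := by
    refine sum_nonpos fun w hw => ?_
    have h1 := (mem_filter.1 hw).2
    obtain ⟨a, b⟩ := hL (Sum.inr w)
    exact_mod_cast hG.free _ a (by change (24 + 12 * _ + _) % 12 ≤ 1; omega)
      ((alw_iff _ _ _ _ _).1 b).1 i hi ho
  have r1 : ∀ u ∈ S.filter fun u => u p = v,
      2 * (((Q i (12 * cb (κ (sa p) (u (sa p))) + hc S u p (sa p)) : ℝ)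
            / (lm S p v (sa p) (u (sa p)) : ℝ)
          + if Own S u p ∧ sd S u = sa p then (Q i (12 * cb (κ (sa p) (ap S u)) + 2) : ℝ) else 0)
        + ((Q i (24 + 12 * cb (κ (sb p) (u (sb p))) + hc S u p (sb p)) : ℝ)
            / (lm S p v (sb p) (u (sb p)) : ℝ)
          + if Own S u p ∧ sd S u = sb p then
            (Q i (24 + 12 * cb (κ (sb p) (ap S u)) + 2) : ℝ) else 0))
        ≤ ((262144 * (524288 - sI (prc C.P S κ u p (mkv S κ u p))) * ind i : ℤ) : ℝ) := by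
    intro u hu0
    obtain ⟨hu, rfl⟩ := mem_filter.1 hu0
    have hm : mkv S κ u p < 3 := by
      unfold mkv; have := cb_lt _ (hK.lt (sd S u) (ap S u)); split_ifs <;> omega
    have R := hG.role _ (hc_lt u p (sa p)) _ (hc_lt u p (sb p)) _ (cb_lt _ (hK.lt _ _)) _
      (cb_lt _ (hK.lt _ _)) _ hm (hL (Sum.inl (u (sa p)))).2 (hL (Sum.inr (u (sb p)))).2
      (hro u hu p)
    have M : ((if Own S u p ∧ sd S u = sa p then (Q i (12 * cb (κ (sa p) (ap S u)) + 2) : ℝ) else 0)
        + if Own S u p ∧ sd S u = sb p then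
            (Q i (24 + 12 * cb (κ (sb p) (ap S u)) + 2) : ℝ) else 0)
        = (mq Q i (if isE (hc S u p (sa p)) = true then 26 else 2) (mkv S κ u p) : ℤ) := by
      unfold mkv
      by_cases o : Own S u p
      · obtain ⟨t1, t2⟩ := rk2_types hu o.1
        rw [if_pos o, mq_one]
        rcases fin3_cases p (sa p) (sb p) (sd S u) s1 s2 s3 with e | e | e
        · exact absurd e o.2.1
        · have := t1 p o.2.1.symm
          rw [e] at this
          rw [if_pos ⟨o, e⟩, if_neg fun x => s3 (e.symm.trans x.2), this, e, add_zero,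
            if_neg (by decide), add_comm 2]
        · rw [if_neg fun x => s3 (x.2.symm.trans e), if_pos ⟨o, e⟩,
            t2 p (sa p) s1 o.2.1.symm (e ▸ s3), if_pos rfl, e, zero_add,
            show ∀ x, 24 + 12 * x + 2 = 26 + 12 * x from fun x => by ring]
      · rw [if_neg fun x => o x.1, if_neg fun x => o x.1, if_neg o]
        simp [mq]
    have c2 := conv1 (t := hc S u p (sb p)) (l := lm S p (u p) (sb p) (u (sb p)))
      (A := (Q i (24 + 12 * cb (κ (sb p) (u (sb p))) + hc S u p (sb p)) : ℝ))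
      (R := ((262144 * (524288 - sI (prc C.P S κ u p (mkv S κ u p))) * ind i : ℤ) : ℝ)
        - 2 * (mq Q i (if isE (hc S u p (sa p)) = true then 26 else 2) (mkv S κ u p) : ℤ)
        - 2 * ((Q i (12 * cb (κ (sa p) (u (sa p))) + hc S u p (sa p)) : ℝ)
            / (lm S p (u p) (sa p) (u (sa p)) : ℝ)))
      (fun m1 k1 => by
        have := conv1 (t := hc S u p (sa p)) (l := lm S p (u p) (sa p) (u (sa p)))
          (A := (Q i (12 * cb (κ (sa p) (u (sa p))) + hc S u p (sa p)) : ℝ))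
          (R := ((262144 * (524288 - sI (prc C.P S κ u p (mkv S κ u p))) * ind i : ℤ) : ℝ)
            - 2 * (mq Q i (if isE (hc S u p (sa p)) = true then 26 else 2) (mkv S κ u p) : ℤ)
            - m1 * (Q i (24 + 12 * cb (κ (sb p) (u (sb p))) + hc S u p (sb p)) : ℝ))
          (fun m0 k0 => by
            have := (Int.cast_le (R := ℝ)).2 (R m0 m1 k0 k1 i hi ho)
            rw [Int.cast_add, Int.cast_add, Int.cast_mul, Int.cast_mul, Int.cast_mul,
              Int.cast_ofNat] at this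
            unfold prc
            linarith)
          (ht_five _ _ _ _) (lm_ne_zero hu rfl rfl)
        linarith)
      (ht_five _ _ _ _) (lm_ne_zero hu rfl rfl)
    linarith
  have r2 : ∀ u ∈ S.filter fun u => rk S u = 2 ∧ sd S u = p ∧ ap S u = v,
      2 * ((if Own S u (sa p) then (Q i (12 * cb (κ (sa p) (u (sa p))) + 3) : ℝ) else 0)
        + if Own S u (sb p) then (Q i (24 + 12 * cb (κ (sb p) (u (sb p))) + 3) : ℝ) else 0)
        ≤ ((262144 * sI (tau C.X S κ u) * ind i : ℤ) : ℝ) := by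
    intro u hu
    obtain ⟨-, -, rfl, rfl⟩ := mem_filter.1 hu
    have hx : ∀ q, apc S κ u q < C.md + 2 := by
      intro q
      have := cb_le _ hmd _ q.2 _ (hK.lt q (u q)) (hK.dir _ _)
      unfold apc; split_ifs <;> omega
    have R := (Int.cast_le (R := ℝ)).2 (hG.apex _ (hx (sa (sd S u))) _ (hx (sb (sd S u))) i hi ho)
    have M : ∀ q b, (if Own S u q then (Q i (b + 12 * cb (κ q (u q)) + 3) : ℝ) else 0)
        = (mq Q i (b + 3) (apc S κ u q) : ℤ) := by
      intro q b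
      unfold apc
      split_ifs
      · rw [mq_one, add_right_comm]
      · simp [mq]
    have M0 := M (sa (sd S u)) 0
    simp only [zero_add] at M0
    rw [M0, M]
    rw [Int.cast_add, Int.cast_mul, Int.cast_mul, Int.cast_ofNat] at R
    unfold tau
    linarith
  have g1 := sum_le_sum r1
  have g2 := sum_le_sum r2
  rw [← mul_sum, sum_add_distrib] at g1 g2
  rw [← Int.cast_le (R := ℝ), Fintype.sum_sum_type, Lin, mul_add 262144, add_mul, mul_sum, mul_sum,
    sum_mul, sum_mul, Int.cast_add, Int.cast_sum, Int.cast_sum, Int.cast_mul, Int.cast_add,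
    Int.cast_sum, Int.cast_sum, Int.cast_ofNat]
  simp only [lane, Sum.elim_inl, Sum.elim_inr]
  rw [e1, e2]
  linarith

theorem cl8_a : ∀ c < 2, ∀ t < 12,
    cl8 (12 * c + t) = 0 + 2 * c + if 4 ≤ t then 1 else 0 := by decide +kernel

theorem cl8_b : ∀ c < 2, ∀ t < 12,
    cl8 (24 + 12 * c + t) = 4 + 2 * c + if 4 ≤ t then 1 else 0 := by decide +kernel

/-- number of vertices of the upper class in a direction -/
noncomputable def cn (κ : Fin 3 → Fin n → ℕ) (q : Fin 3) : ℕ := ∑ w, cb (κ q w)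

theorem side_sum {md : ℕ} (hK : Cls md S κ) (p q : Fin 3) (v : Fin n) (f : ℕ → ℤ) (b : ℕ)
    (hf : f (b + 3) + f b = f (b + 1) + f (b + 2)) :
    ∑ w, f (b + 2 * cb (κ q w) + if 4 ≤ ht S p v q w then 1 else 0)
      = n * f b + cn κ q * (f (b + 2) - f b) + hd S p v q * (f (b + 1) - f b) := by
  have e : ∀ w, f (b + 2 * cb (κ q w) + if 4 ≤ ht S p v q w then 1 else 0)
      = f b + cb (κ q w) * (f (b + 2) - f b)
        + (if 4 ≤ ht S p v q w then 1 else 0 : ℕ) * (f (b + 1) - f b) := by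
    intro w
    have := cb_lt _ (hK.lt q w)
    generalize cb (κ q w) = c at this
    interval_cases c <;> split_ifs <;> simp
    linarith
  simp only [e, sum_add_distrib, ← sum_mul, sum_const, card_univ, Fintype.card_fin, nsmul_eq_mul]
  rw [hd_eq, card_filter, cn]
  push_cast
  rfl

def fsum (f : ℕ → ℤ) (n ca cb ha hb : ℤ) : ℤ :=
  n * f 0 + ca * (f 2 - f 0) + ha * (f 1 - f 0) + (n * f 4 + cb * (f 6 - f 4) + hb * (f 5 - f 4))

theorem lane_sum {md : ℕ} (hK : Cls md S κ) (p : Fin 3) (v : Fin n) (f : ℕ → ℤ)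
    (h1 : f 3 + f 0 = f 1 + f 2) (h2 : f 7 + f 4 = f 5 + f 6) :
    ∑ ω, f (cl8 (lane S κ p v ω))
      = fsum f n (cn κ (sa p)) (cn κ (sb p)) (hd S p v (sa p)) (hd S p v (sb p)) := by
  rw [Fintype.sum_sum_type]
  simp only [lane, Sum.elim_inl, Sum.elim_inr]
  rw [sum_congr rfl fun w _ => congrArg f (cl8_a _ (cb_lt _ (hK.lt _ w)) _ (ht_lt _ _ _ w)),
    sum_congr rfl fun w _ => congrArg f (cl8_b _ (cb_lt _ (hK.lt _ w)) _ (ht_lt _ _ _ w)),
    side_sum hK p _ v f 0 h1, side_sum hK p _ v f 4 h2]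
  rfl

theorem lane_W {md : ℕ} (hK : Cls md S κ) (W : ℕ) (p : Fin 3) (v : Fin n) :
    ∑ ω, ∑ ω', Ws W (κ p v) (lane S κ p v ω) (lane S κ p v ω')
      = 2 * ∑ w, ∑ w', sI (wd W (κ p v) (hl (κ (sa p) w) (ht S p v (sa p) w))
        (hl (κ (sb p) w') (ht S p v (sb p) w'))) := by
  have la : ∀ w, 12 * cb (κ (sa p) w) + ht S p v (sa p) w < 24 := fun w => by
    have := cb_lt _ (hK.lt (sa p) w)
    have := ht_lt (S := S) p v (sa p) w
    omega
  have e : ∀ a b c d : ℕ, a < 24 → b < 24 → Ws W (κ p v) a b = 0 ∧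
      Ws W (κ p v) a (24 + c + d) = sI (wd W (κ p v) a (c + d)) ∧
      Ws W (κ p v) (24 + c + d) a = sI (wd W (κ p v) a (c + d)) := by
    intro a b c d ha hb
    unfold Ws
    rw [show 24 + c + d - 24 = c + d by omega]
    refine ⟨by rw [if_neg (by omega), if_neg (by omega)], by rw [if_pos (by omega)], ?_⟩
    rw [if_neg (by omega), if_pos (by omega)]
  have e4 : ∀ a b c d : ℕ, Ws W (κ p v) (24 + a + b) (24 + c + d) = 0 := by
    intro a b c d
    unfold Ws
    rw [if_neg (by omega), if_neg (by omega)]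
  simp only [Fintype.sum_sum_type, lane, Sum.elim_inl, Sum.elim_inr, e4,
    fun w w' => (e _ _ 0 0 (la w) (la w')).1, fun w c d => (e _ _ c d (la w) (la w)).2.1,
    fun w c d => (e _ _ c d (la w) (la w)).2.2, sum_const_zero, zero_add, add_zero]
  rw [two_mul]
  congr 1
  exact sum_comm

/-- sums of the basic functions over the lanes of a vertex -/
structure Sums {Ω : Type} [Fintype Ω] (j : Ω → ℕ) (z : Bool) (n k ha hb : ℤ) : Prop where
  card : (Fintype.card Ω : ℤ) = 2 * n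
  sg : ∀ x : ℤ, ∑ ω, (if j ω < 4 then x else -x) = 0
  sc : ∀ x : ℤ, ∑ ω, (if z ∧ j ω / 2 % 2 = 1 then (if j ω < 4 then x else -x) else 0) = 0
  kp : ∑ ω, kap z (j ω) = 2 * k
  tw : ∑ ω, twf z (j ω) = if z then 0 else 2
  h0 : ∑ ω, hhf 0 (j ω) = ha
  h1 : ∑ ω, hhf 1 (j ω) = hb

theorem lane_sums {md : ℕ} (hK : Cls md S κ) (p : Fin 3) (v : Fin n) (z : Bool) (k : ℕ)
    (h1 : cn κ (sa p) = k) (h2 : cn κ (sb p) = if z then k else 1) :
    Sums (fun ω => cl8 (lane S κ p v ω)) z n k (hd S p v (sa p)) (hd S p v (sb p)) := by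
  refine ⟨by rw [Fintype.card_sum, Fintype.card_fin]; push_cast; ring, fun x => ?_, fun x => ?_,
    ?_, ?_, ?_, ?_⟩
  · rw [lane_sum hK p v (fun j => if j < 4 then x else -x) (by simp) (by simp)]
    simp [fsum]
  · rw [lane_sum hK p v (fun j => if z ∧ j / 2 % 2 = 1 then (if j < 4 then x else -x) else 0)
      (by simp) (by simp), h1, h2]
    cases z <;> simp [fsum]
  · rw [lane_sum hK p v (kap z) (by cases z <;> rfl) (by cases z <;> rfl), h1, h2]
    cases z <;> simp [fsum, kap] <;> ring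
  · rw [lane_sum hK p v (twf z) (by cases z <;> rfl) (by cases z <;> rfl), h1, h2]
    cases z <;> simp [fsum, twf]
  · rw [lane_sum hK p v (hhf 0) rfl rfl]
    simp [fsum, hhf]
  · rw [lane_sum hK p v (hhf 1) rfl rfl]
    simp [fsum, hhf]

/-- the inequality at one vertex -/
theorem vtx (hK : Cls C.md S κ) (hmd : C.md < 2) {p : Fin 3} {v : Fin n} {la lb ka kb : ℕ}
    {D : CD} (h : chkCase C (κ p v) la lb ka kb D = true)
    (ha : Hi S p v (sa p) → 1 ≤ la) (hb : Hi S p v (sb p) → 1 ≤ lb)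
    (hro : ∀ u ∈ S, ∀ p, okR C.md S κ u p (mkv S κ u p) = true)
    (heq : ∀ k < 2, ∑ ω, fc C (κ p v) la lb ka kb k (cl8 (lane S κ p v ω)) = 0)
    (hge : ∀ k < 8, 0 ≤ ∑ ω, fc C (κ p v) la lb ka kb (k + 2) (cl8 (lane S κ p v ω))) :
    2 * n * ∑ ω, fc C (κ p v) la lb ka kb 10 (cl8 (lane S κ p v ω))
      ≤ n * Lin C S κ p v + ∑ w, ∑ w', sI (wd C.W (κ p v) (hl (κ (sa p) w) (ht S p v (sa p) w))
        (hl (κ (sb p) w') (ht S p v (sb p) w'))) := by
  have := vertex (lane S κ p v) (Lin C S κ p v) h hmd (hK.lt p v) (lane_ok hK hmd ha hb)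
    (atoms_sum hK hmd ha hb hro) heq hge
  rw [lane_W hK, Fintype.card_sum, Fintype.card_fin] at this
  push_cast at this
  linarith

end Pool.Agent.P.MP_41d1ec_co
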